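import Pool.Agent.SRT.Defs

/-!
The closed adjacency matrix over a commutative ring `R`.  All proofs are adaptations of the
corresponding ones in Pool/Agent/MP_e446a9_co/BlockS.lean (`matM`, `matJ`, `deflated_sq`).
-/

set_option autoImplicit false

namespace SRT

open Classical in
/-- the closed adjacency matrix -/
noncomputable def mM (R : Type*) [CommRing R] {V : Type*} (B : V → V → Prop) : Matrix V V R :=
  Matrix.of fun x y => if B x y then 1 else 0

/-- the all-one matrix -/
def mJ (R : Type*) [CommRing R] (V : Type*) : Matrix V V R := Matrix.of fun _ _ => 1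

variable {V : Type*} [Fintype V] [DecidableEq V] {B : V → V → Prop} {d : ℕ}

omit [DecidableEq V] in
/-- a count as a sum.  (`Nat.card_eq_fintype_card`, `Fintype.card_subtype`,
`Finset.card_filter`/`Finset.sum_boole`.) -/
theorem sum_ite (R : Type*) [CommRing R] (p : V → Prop) [DecidablePred p] :
    ∑ y : V, (if p y then (1 : R) else 0) = (Nat.card {y : V // p y} : R) := by
  rw [Finset.sum_boole, Nat.card_eq_fintype_card, Fintype.card_subtype]

/-- PROOF. Entry `(x, z)` of the product is `#{y : B x y ∧ B y z}` (`sum_ite`): it is `2` for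
`x ≠ z` (`h.two`), and for `x = z` it is `#{y : B x y ∧ B y x} = #{y : B x y} = d` (`h.symm`). -/
theorem mM_sq (h : Geo B d) (R : Type*) [CommRing R] :
    mM R B * mM R B = ((d : R) - 2) • (1 : Matrix V V R) + (2 : R) • mJ R V := by
  classical
  ext x z
  rw [Matrix.mul_apply]
  have h1 : ∑ y, mM R B x y * mM R B y z = (Nat.card {y : V // B x y ∧ B y z} : R) := by
    rw [← sum_ite R (fun y => B x y ∧ B y z)]
    refine Finset.sum_congr rfl (fun y _ => ?_)
    simp only [mM, Matrix.of_apply]
    by_cases h1 : B x y <;> by_cases h2 : B y z <;> simp [h1, h2]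
  rw [h1]
  by_cases hxz : x = z
  · subst hxz
    have h2 : Nat.card {y : V // B x y ∧ B y x} = d := by
      rw [← h.card x]
      apply Nat.card_congr
      exact Equiv.subtypeEquivRight (fun y => ⟨fun hy => hy.1, fun hy => ⟨hy, h.symm _ _ hy⟩⟩)
    rw [h2]
    simp [mJ]
  · rw [h.two x z hxz]
    simp [mJ, hxz]

omit [DecidableEq V] in
theorem mM_mul_mJ (h : Geo B d) (R : Type*) [CommRing R] :
    mM R B * mJ R V = (d : R) • mJ R V := by
  classical
  ext x y
  rw [Matrix.mul_apply]
  have h1 : ∑ z, mM R B x z * mJ R V z y = (Nat.card {z : V // B x z} : R) := by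
    rw [← sum_ite R (fun z => B x z)]
    refine Finset.sum_congr rfl (fun z _ => ?_)
    simp [mM, mJ]
  rw [h1, h.card x]
  simp [mJ]

omit [DecidableEq V] in
theorem mJ_mul_mM (h : Geo B d) (R : Type*) [CommRing R] :
    mJ R V * mM R B = (d : R) • mJ R V := by
  classical
  ext x y
  rw [Matrix.mul_apply]
  have h1 : ∑ z, mJ R V x z * mM R B z y = (Nat.card {z : V // B z y} : R) := by
    rw [← sum_ite R (fun z => B z y)]
    refine Finset.sum_congr rfl (fun z _ => ?_)
    simp [mM, mJ]
  have h2 : Nat.card {z : V // B z y} = d := by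
    rw [← h.card y]
    apply Nat.card_congr
    exact Equiv.subtypeEquivRight (fun z => ⟨fun hz => h.symm _ _ hz, fun hz => h.symm _ _ hz⟩)
  rw [h1, h2]
  simp [mJ]

omit [DecidableEq V] in
theorem mJ_mul_mJ (R : Type*) [CommRing R] :
    mJ R V * mJ R V = (Fintype.card V : R) • mJ R V := by
  ext x y
  simp [Matrix.mul_apply, mJ, Finset.card_univ]

/-- PROOF. As `deflated_sq` in BlockS. -/
theorem deflated_sq (h : Geo B d) (R : Type*) [CommRing R] (c : R)
    (hc : c ^ 2 * (Fintype.card V : R) - 2 * c * (d : R) + 2 = 0) :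
    (mM R B - c • mJ R V) * (mM R B - c • mJ R V) = ((d : R) - 2) • (1 : Matrix V V R) := by
  rw [sub_mul, mul_sub, mul_sub, mM_sq h, Matrix.mul_smul, Matrix.smul_mul,
    Matrix.smul_mul, Matrix.mul_smul, mM_mul_mJ h, mJ_mul_mM h, mJ_mul_mJ]
  simp only [smul_smul]
  have : (2 : R) • mJ R V - (c * (d : R)) • mJ R V - ((c * (d : R)) • mJ R V
      - (c * (c * (Fintype.card V : R))) • mJ R V) = 0 := by
    rw [← sub_smul, ← sub_smul, ← sub_smul]
    have : 2 - c * (d : R) - (c * (d : R) - c * (c * (Fintype.card V : R))) = 0 := by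
      linear_combination hc
    rw [this, zero_smul]
  rw [add_sub_assoc, add_sub_assoc, this, add_zero]

omit [DecidableEq V] in
theorem trace_mM (h : Geo B d) (R : Type*) [CommRing R] :
    (mM R B).trace = (Fintype.card V : R) := by
  simp [Matrix.trace, mM, h.refl, Finset.card_univ]

omit [DecidableEq V] in
theorem trace_mJ (R : Type*) [CommRing R] : (mJ R V).trace = (Fintype.card V : R) := by
  simp [Matrix.trace, mJ, Finset.card_univ]

end SRT
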