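import Pool.Agent.SRT.A0a

/-!
Permutation matrices.  Adaptations of Pool/Agent/MP_e446a9_co/BlockS.lean (`matP`).
-/

set_option autoImplicit false

namespace SRT

open Classical in
/-- the permutation matrix of `g` -/
noncomputable def mP (R : Type*) [CommRing R] {G : Type*} (V : Type*) [Group G] [MulAction G V]
    (g : G) : Matrix V V R :=
  Matrix.of fun x y => if y = g • x then 1 else 0

variable {G V : Type*} [Group G] [MulAction G V] [Fintype V] [DecidableEq V]
  {B : V → V → Prop} {d : ℕ}

theorem mP_mul (R : Type*) [CommRing R] (g h : G) : mP R V g * mP R V h = mP R V (h * g) := by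
  ext x y
  rw [Matrix.mul_apply, Finset.sum_eq_single (g • x)]
  · simp [mP, smul_smul]
  · intro z _ hz
    simp [mP, hz]
  · simp

theorem mP_one (R : Type*) [CommRing R] : mP R V (1 : G) = 1 := by
  ext x y
  simp [mP, Matrix.one_apply, eq_comm]

theorem mP_pow (R : Type*) [CommRing R] (g : G) (m : ℕ) : mP R V g ^ m = mP R V (g ^ m) := by
  induction m with
  | zero => simp [mP_one]
  | succ m ih => rw [pow_succ, ih, mP_mul, pow_succ']

omit [DecidableEq V] in
theorem mP_mul_mJ (R : Type*) [CommRing R] (g : G) : mP R V g * mJ R V = mJ R V := by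
  ext x y
  rw [Matrix.mul_apply, Finset.sum_eq_single (g • x)]
  · simp [mP, mJ]
  · intro z _ hz
    simp [mP, hz]
  · simp

omit [DecidableEq V] in
theorem mJ_mul_mP (R : Type*) [CommRing R] (g : G) : mJ R V * mP R V g = mJ R V := by
  ext x y
  rw [Matrix.mul_apply, Finset.sum_eq_single (g⁻¹ • y)]
  · simp [mP, mJ]
  · intro z _ hz
    have : ¬ y = g • z := by
      intro h
      apply hz
      rw [h, inv_smul_smul]
    simp [mP, this]
  · simp

omit [DecidableEq V] in
/-- PROOF. Entry `(x, y)`: left `[B (g x) y]`, right `[B x (g⁻¹ y)]`; equal because `g` preserves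
`B` in both directions (`haut g`, `haut g⁻¹`). -/
theorem mP_comm (haut : Aut G B) (R : Type*) [CommRing R] (g : G) :
    mP R V g * mM R B = mM R B * mP R V g := by
  classical
  ext x y
  rw [Matrix.mul_apply, Matrix.mul_apply, Finset.sum_eq_single (g • x),
    Finset.sum_eq_single (g⁻¹ • y)]
  · have h1 : B (g • x) y ↔ B x (g⁻¹ • y) := by
      constructor
      · intro h
        have := haut g⁻¹ _ _ h
        rwa [inv_smul_smul] at this
      · intro h
        have := haut g _ _ h
        rwa [smul_inv_smul] at this
    simp [mP, mM, h1]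
  · intro z _ hz
    have : ¬ y = g • z := by
      intro h
      apply hz
      rw [h, inv_smul_smul]
    simp [mP, this]
  · simp
  · intro z _ hz
    simp [mP, hz]
  · simp

omit [DecidableEq V] in
/-- PROOF. The diagonal entry at `x` is `[B (g x) x] = [B x (g x)]`. -/
theorem trace_mP_mul_mM (h : Geo B d) (R : Type*) [CommRing R] (g : G) :
    (mP R V g * mM R B).trace = (NN B g : R) := by
  classical
  rw [NN, ← sum_ite R (fun y => B y (g • y)), Matrix.trace]
  refine Finset.sum_congr rfl (fun x _ => ?_)
  rw [Matrix.diag_apply, Matrix.mul_apply, Finset.sum_eq_single (g • x)]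
  · have h1 : B (g • x) x ↔ B x (g • x) := ⟨fun hx => h.symm _ _ hx, fun hx => h.symm _ _ hx⟩
    simp [mP, mM, h1]
  · intro z _ hz
    simp [mP, hz]
  · simp

end SRT
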