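import Pool.Agent.SRT.A0b

set_option autoImplicit false

namespace SRT

variable {V : Type*} {B : V → V → Prop} {d n : ℕ}

/-- `1 ≤ d`.  (`x` itself is a closed neighbour of `x`.) -/
theorem Geo.one_le [Finite V] [Nonempty V] (h : Geo B d) : 1 ≤ d := by
  obtain ⟨x⟩ := (inferInstance : Nonempty V)
  rw [← h.card x]
  have : Nonempty {y : V // B x y} := ⟨⟨x, h.refl x⟩⟩
  exact Nat.card_pos

/-- PROOF. Fix `x`.  Sum over `z : V` of `#{y : B x y ∧ B y z}`: it is `d` for `z = x` and `2`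
otherwise, so the sum is `d + 2 (v - 1)`; exchanging the sums it is
`∑_{y : B x y} #{z : B y z} = d ^ 2`.  (Alternatively compare the entries of
`mM * (mM * mJ)` and `(mM * mM) * mJ`, `mM_sq`, `mM_mul_mJ`, `mJ_mul_mJ` over `ℤ`:
`d^2 = d - 2 + 2 v`.) -/
theorem Geo.two_mul_card [Finite V] [Nonempty V] (h : Geo B d) :
    2 * Nat.card V + d = d ^ 2 + 2 := by
  classical
  let _ : Fintype V := Fintype.ofFinite V
  obtain ⟨x⟩ := (inferInstance : Nonempty V)
  have h1 : (mM ℤ B * mM ℤ B) * mJ ℤ V = mM ℤ B * (mM ℤ B * mJ ℤ V) := Matrix.mul_assoc _ _ _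
  rw [mM_sq h, mM_mul_mJ h, add_mul, Matrix.smul_mul, Matrix.one_mul, Matrix.smul_mul,
    mJ_mul_mJ, Matrix.mul_smul, mM_mul_mJ h] at h1
  have h2 := congrFun (congrFun h1 x) x
  simp [mJ] at h2
  have h3 : ((2 * Nat.card V + d : ℕ) : ℤ) = ((d ^ 2 + 2 : ℕ) : ℤ) := by
    rw [Nat.card_eq_fintype_card]
    push_cast
    linear_combination h2
  exact_mod_cast h3

/-- PROOF. `two_mul_card` for `d = n ^ 2 + 2`. -/
theorem Geo.two_mul_card' [Finite V] [Nonempty V] (h : Geo B (n ^ 2 + 2)) :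
    2 * Nat.card V = n ^ 4 + 3 * n ^ 2 + 4 := by
  have h1 := h.two_mul_card
  have h2 : (n ^ 2 + 2) ^ 2 = n ^ 4 + 4 * n ^ 2 + 4 := by ring
  omega

end SRT
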