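import Pool.Agent.SRT.A1a

set_option autoImplicit false

namespace SRT

variable {V : Type*} {B : V → V → Prop} {d n : ℕ}

/-- PROOF. Adaptation of `RectCay.exists_sq` (Pool/Agent/MP_e446a9_co/BlockS.lean), with
`k = d - 1 ≥ 2` (`matM D`, `matJ G` replaced by `mM ℂ B`, `mJ ℂ V`; `two_mul_card`). -/
theorem Geo.exists_sq [Finite V] [Nonempty V] (h : Geo B d) (hd : 3 ≤ d) :
    ∃ n : ℕ, d = n ^ 2 + 2 := by
  classical
  let _ : Fintype V := Fintype.ofFinite V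
  obtain ⟨k, rfl⟩ : ∃ k, d = k + 1 := ⟨d - 1, by omega⟩
  have hk : 2 ≤ k := by omega
  have hv0 : (Fintype.card V : ℂ) ≠ 0 := by exact_mod_cast Fintype.card_ne_zero
  have hvC : 2 * (Fintype.card V : ℂ) = (k : ℂ) ^ 2 + k + 2 := by
    have h1 := h.two_mul_card
    rw [Nat.card_eq_fintype_card] at h1
    have h2 : 2 * Fintype.card V = k ^ 2 + k + 2 := by
      have : (k + 1) ^ 2 = k ^ 2 + 2 * k + 1 := by ring
      omega
    exact_mod_cast h2
  set v : ℂ := (Fintype.card V : ℂ) with hvdef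
  set ρ : ℝ := Real.sqrt ((k : ℝ) - 1) with hρ
  have hkR : (0 : ℝ) < (k : ℝ) - 1 := by
    have : (2 : ℝ) ≤ k := by exact_mod_cast hk
    linarith
  have hρ2 : ρ ^ 2 = (k : ℝ) - 1 := Real.sq_sqrt hkR.le
  have hρ0 : ρ ≠ 0 := (Real.sqrt_pos.2 hkR).ne'
  set r : ℂ := (ρ : ℂ) with hr
  have hr2 : r ^ 2 = (k : ℂ) - 1 := by
    rw [hr]
    exact_mod_cast congrArg (fun x : ℝ => (x : ℂ)) hρ2
  have hr0 : r ≠ 0 := by
    rw [hr]
    exact_mod_cast hρ0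
  set c : ℂ := ((k : ℂ) + 1 + r) / v with hc
  have hcv : c * v = (k : ℂ) + 1 + r := by rw [hc]; field_simp
  have hc2 : c ^ 2 * v - 2 * c * ((k + 1 : ℕ) : ℂ) + 2 = 0 := by
    have h1 : v * (c ^ 2 * v - 2 * c * ((k + 1 : ℕ) : ℂ) + 2) = 0 := by
      push_cast
      have : v * (c ^ 2 * v - 2 * c * ((k : ℂ) + 1) + 2)
          = (c * v) ^ 2 - 2 * (c * v) * ((k : ℂ) + 1) + 2 * v := by ring
      rw [this, hcv, hvC]
      linear_combination hr2
    exact (mul_eq_zero.1 h1).resolve_left hv0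
  have hQ := deflated_sq h ℂ c hc2
  set Q := mM ℂ B - c • mJ ℂ V with hQdef
  have hX : (r⁻¹ • Q) ^ 2 = 1 := by
    have e : (((k + 1 : ℕ) : ℂ) - 2) = r ^ 2 := by
      rw [hr2]; push_cast; ring
    rw [smul_pow, pow_two Q, hQ, smul_smul, e]
    have : (r⁻¹) ^ 2 * r ^ 2 = 1 := by field_simp
    rw [this, one_smul]
  obtain ⟨z, hz⟩ := RectCay.exists_int_trace _ hX
  have htr : (r⁻¹ • Q).trace = (v - ((k : ℂ) + 1 + r)) / r := by
    rw [Matrix.trace_smul, hQdef, Matrix.trace_sub, Matrix.trace_smul, trace_mM h, trace_mJ,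
      smul_eq_mul, smul_eq_mul, ← hvdef, hcv]
    field_simp
  have h3 : v - ((k : ℂ) + 1) = ((z : ℂ) + 1) * r := by
    rw [htr] at hz
    have := hz
    field_simp at this
    linear_combination this
  have h4 : ((k : ℂ) ^ 2 - k) ^ 2 = (2 * ((z : ℂ) + 1)) ^ 2 * ((k : ℂ) - 1) := by
    have e : (k : ℂ) ^ 2 - k = 2 * (((z : ℂ) + 1) * r) := by
      rw [← h3]
      linear_combination -hvC
    rw [e, ← hr2]
    ring
  have h5 : ((k : ℤ) ^ 2 - k) ^ 2 = (2 * (z + 1)) ^ 2 * ((k : ℤ) - 1) := by exact_mod_cast h4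
  have h6 : ((k : ℤ) - 1) ≠ 0 := by
    have : (2 : ℤ) ≤ k := by exact_mod_cast hk
    omega
  have h7 : (k : ℤ) ^ 2 * ((k : ℤ) - 1) = (2 * (z + 1)) ^ 2 := by
    apply mul_right_cancel₀ h6
    rw [← h5]
    ring
  have h8 : (k : ℤ) ∣ 2 * (z + 1) := by
    rw [← Int.pow_dvd_pow_iff two_ne_zero, ← h7]
    exact dvd_mul_right _ _
  obtain ⟨u, hu⟩ := h8
  have hk0 : (k : ℤ) ^ 2 ≠ 0 := by
    have : (2 : ℤ) ≤ k := by exact_mod_cast hk
    positivity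
  have h9 : (k : ℤ) - 1 = u ^ 2 := by
    apply mul_left_cancel₀ hk0
    rw [h7, hu]
    ring
  refine ⟨u.natAbs, ?_⟩
  have : ((k + 1 : ℕ) : ℤ) = ((u.natAbs ^ 2 + 2 : ℕ) : ℤ) := by
    push_cast
    rw [sq_abs]
    linarith
  exact_mod_cast this

end SRT
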