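import Pool.Agent.SRT.A1a

set_option autoImplicit false

namespace SRT

variable {V : Type*} {B : V → V → Prop} {d n : ℕ}

/-- PROOF. Adaptation of `SRC.four_not_dvd` (Pool/Agent/SRC/W6.lean), with `mM ℂ B`, `mJ ℂ V`,
`deflated_sq`, `SRC.exists_nat_trace`. -/
theorem Geo.four_not_dvd [Finite V] [Nonempty V] (h : Geo B (n ^ 2 + 2)) (hn : 1 ≤ n) :
    ¬ 4 ∣ n := by
  classical
  let _ : Fintype V := Fintype.ofFinite V
  have hn0 : (n : ℂ) ≠ 0 := by exact_mod_cast (by omega : n ≠ 0)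
  have hv := h.two_mul_card'
  rw [Nat.card_eq_fintype_card] at hv
  have hv0 : (Fintype.card V : ℂ) ≠ 0 := by exact_mod_cast Fintype.card_ne_zero
  have hvC : 2 * (Fintype.card V : ℂ) = (n : ℂ) ^ 4 + 3 * (n : ℂ) ^ 2 + 4 := by exact_mod_cast hv
  set v : ℂ := (Fintype.card V : ℂ) with hvdef
  set c : ℂ := ((n : ℂ) ^ 2 + 2 + n) / v with hc
  have hcv : c * v = (n : ℂ) ^ 2 + 2 + n := by rw [hc]; field_simp
  have hc2 : c ^ 2 * v - 2 * c * ((n ^ 2 + 2 : ℕ) : ℂ) + 2 = 0 := by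
    have h1 : v * (c ^ 2 * v - 2 * c * ((n ^ 2 + 2 : ℕ) : ℂ) + 2) = 0 := by
      push_cast
      have : v * (c ^ 2 * v - 2 * c * ((n : ℂ) ^ 2 + 2) + 2)
          = (c * v) ^ 2 - 2 * (c * v) * ((n : ℂ) ^ 2 + 2) + 2 * v := by ring
      rw [this, hcv, hvC]
      ring
    exact (mul_eq_zero.1 h1).resolve_left hv0
  have hQ := deflated_sq h ℂ c hc2
  set Q := mM ℂ B - c • mJ ℂ V with hQdef
  have hX : ((n : ℂ)⁻¹ • Q) ^ 2 = 1 := by
    rw [smul_pow, pow_two Q, hQ, smul_smul]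
    have : ((n : ℂ)⁻¹) ^ 2 * (((n ^ 2 + 2 : ℕ) : ℂ) - 2) = 1 := by
      push_cast
      field_simp
      ring
    rw [this, one_smul]
  obtain ⟨b, hb⟩ := SRC.exists_nat_trace _ hX
  have htr : ((n : ℂ)⁻¹ • Q).trace = (v - ((n : ℂ) ^ 2 + 2 + n)) / n := by
    rw [Matrix.trace_smul, hQdef, Matrix.trace_sub, Matrix.trace_smul, trace_mM h, trace_mJ,
      smul_eq_mul, smul_eq_mul, ← hvdef, hcv]
    field_simp
  have hmain : v - ((n : ℂ) ^ 2 + 2 + n) = n * (v - 2 * b) := by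
    rw [← hb, htr]
    field_simp
  have hmainZ : (Fintype.card V : ℤ) - ((n : ℤ) ^ 2 + 2 + n) = n * ((Fintype.card V : ℤ) - 2 * b) := by
    rw [hvdef] at hmain
    exact_mod_cast hmain
  rintro ⟨k, rfl⟩
  have hk : 1 ≤ k := by omega
  have hvZ : (Fintype.card V : ℤ) = 128 * (k : ℤ) ^ 4 + 24 * (k : ℤ) ^ 2 + 2 := by
    have h2 : 2 * (Fintype.card V : ℤ) = ((4 * k : ℕ) : ℤ) ^ 4 + 3 * ((4 * k : ℕ) : ℤ) ^ 2 + 4 := by
      exact_mod_cast hv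
    push_cast at h2
    linarith
  rw [hvZ] at hmainZ
  push_cast at hmainZ
  have hk0 : (4 * (k : ℤ)) ≠ 0 := by positivity
  have h3 : (4 * (k : ℤ)) * (32 * (k : ℤ) ^ 3 + 2 * k - 1)
      = (4 * (k : ℤ)) * (128 * (k : ℤ) ^ 4 + 24 * (k : ℤ) ^ 2 + 2 - 2 * b) := by
    linarith
  have h4 := mul_left_cancel₀ hk0 h3
  omega

end SRT
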