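import Pool.Agent.SRT.A1a

set_option autoImplicit false

namespace SRT

/-- PROOF. Adaptation of `RectCay.T_modEq` (Pool/Agent/MP_e446a9_co/BlockS.lean), with `mM ℂ B`,
`mJ ℂ V`, `mP ℂ V g` (`mP_comm`, `mP_mul`, `mP_pow`, `trace_mP_mul_mM`, `two_mul_card'`). -/
theorem NN_modEq {G V : Type*} [Group G] [Finite G] [MulAction G V] [Finite V] [Nonempty V]
    {B : V → V → Prop} {n : ℕ} (h : Geo B (n ^ 2 + 2)) (haut : Aut G B) (hn : 1 ≤ n) (g : G) :
    (NN B g : ℤ) ≡ 2 [ZMOD n] := by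
  classical
  let _ : Fintype V := Fintype.ofFinite V
  have hn0 : (n : ℂ) ≠ 0 := by exact_mod_cast (by omega : n ≠ 0)
  have hv := h.two_mul_card'
  rw [Nat.card_eq_fintype_card] at hv
  have hv0 : (Fintype.card V : ℂ) ≠ 0 := by exact_mod_cast Fintype.card_ne_zero
  have hvC : 2 * (Fintype.card V : ℂ) = (n : ℂ) ^ 4 + 3 * (n : ℂ) ^ 2 + 4 := by exact_mod_cast hv
  set v : ℂ := (Fintype.card V : ℂ) with hvdef
  set c : ℂ := ((n : ℂ) ^ 2 + 2 + n) / v with hc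
  have hcv : c * v = (n : ℂ) ^ 2 + 2 + n := by rw [hc]; field_simp
  have hc2 : c ^ 2 * v - 2 * c * ((n ^ 2 + 2 : ℕ) : ℂ) + 2 = 0 := by
    have h1 : v * (c ^ 2 * v - 2 * c * ((n ^ 2 + 2 : ℕ) : ℂ) + 2) = 0 := by
      push_cast
      have : v * (c ^ 2 * v - 2 * c * ((n : ℂ) ^ 2 + 2) + 2)
          = (c * v) ^ 2 - 2 * (c * v) * ((n : ℂ) ^ 2 + 2) + 2 * v := by ring
      rw [this, hcv, hvC]
      ring
    exact (mul_eq_zero.1 h1).resolve_left hv0
  have hQ := deflated_sq h ℂ c hc2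
  set Q := mM ℂ B - c • mJ ℂ V with hQdef
  set X : Matrix V V ℂ := (n : ℂ)⁻¹ • (mP ℂ V g * Q) with hX
  have hcomm : mP ℂ V g * Q = Q * mP ℂ V g := by
    rw [hQdef, mul_sub, sub_mul, mP_comm haut, Matrix.mul_smul, Matrix.smul_mul,
      mP_mul_mJ, mJ_mul_mP]
  have hXX : X ^ 2 = mP ℂ V (g ^ 2) := by
    rw [hX, smul_pow, pow_two (mP ℂ V g * Q)]
    have : mP ℂ V g * Q * (mP ℂ V g * Q) = ((n : ℂ) ^ 2) • mP ℂ V (g ^ 2) := by
      calc mP ℂ V g * Q * (mP ℂ V g * Q) = mP ℂ V g * (Q * mP ℂ V g) * Q := by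
            simp only [mul_assoc]
        _ = mP ℂ V g * (mP ℂ V g * Q) * Q := by rw [hcomm]
        _ = (mP ℂ V g * mP ℂ V g) * (Q * Q) := by simp only [mul_assoc]
        _ = ((n : ℂ) ^ 2) • mP ℂ V (g ^ 2) := by
            rw [hQ, mP_mul, ← pow_two]
            push_cast
            simp
    rw [this, smul_smul]
    have : ((n : ℂ)⁻¹) ^ 2 * (n : ℂ) ^ 2 = 1 := by field_simp
    rw [this, one_smul]
  have hXm : X ^ (2 * orderOf g) = 1 := by
    rw [pow_mul, hXX, mP_pow, ← pow_mul, mul_comm 2, pow_mul, pow_orderOf_eq_one, one_pow,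
      mP_one]
  have hint := RectCay.isIntegral_trace X (by have := orderOf_pos g; omega) hXm
  have htr : X.trace = (((NN B g : ℤ) : ℂ) - ((n : ℂ) ^ 2 + 2 + n)) / n := by
    rw [hX, Matrix.trace_smul, hQdef, mul_sub, Matrix.mul_smul, mP_mul_mJ,
      Matrix.trace_sub, Matrix.trace_smul, trace_mP_mul_mM h, trace_mJ, smul_eq_mul, smul_eq_mul,
      ← hvdef, hcv]
    push_cast
    field_simp
  -- a rational algebraic integer is an integer
  set q : ℚ := (((NN B g : ℤ) : ℚ) - ((n : ℚ) ^ 2 + 2 + n)) / n with hq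
  have hqt : X.trace = algebraMap ℚ ℂ q := by
    rw [htr, hq]
    simp
  rw [hqt, isIntegral_algebraMap_iff (algebraMap ℚ ℂ).injective] at hint
  obtain ⟨z, hz⟩ := IsIntegrallyClosed.isIntegral_iff.1 hint
  have hz' : (z : ℚ) * n = ((NN B g : ℤ) : ℚ) - ((n : ℚ) ^ 2 + 2 + n) := by
    have hnq : (n : ℚ) ≠ 0 := by exact_mod_cast (by omega : n ≠ 0)
    have : (z : ℚ) = q := by simpa using hz
    rw [this, hq]
    field_simp
  have hz'' : z * n = (NN B g : ℤ) - ((n : ℤ) ^ 2 + 2 + n) := by exact_mod_cast hz'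
  apply Int.ModEq.symm
  rw [Int.modEq_iff_dvd]
  refine ⟨z + n + 1, ?_⟩
  linear_combination -hz''

end SRT
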