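import Pool.Agent.SRT.W4

set_option autoImplicit false

namespace SRT

/-- the centraliser of `z` acts on the set of points moved into their closed neighbourhood by `z` -/
@[instance_reducible]
def b1_act {G V : Type*} [Group G] [MulAction G V] {B : V → V → Prop} (haut : Aut G B) (z : G) :
    MulAction (Subgroup.centralizer ({z} : Set G)) {y : V // B y (z • y)} where
  smul u y := ⟨(u : G) • (y : V), by
    have h1 : z * (u : G) = (u : G) * z := Subgroup.mem_centralizer_singleton_iff.1 u.2 |>.symm
    have h2 := haut (u : G) _ _ y.2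
    rwa [smul_smul, ← h1, ← smul_smul] at h2⟩
  one_smul y := Subtype.ext (one_smul G (y : V))
  mul_smul u w y := Subtype.ext (mul_smul (u : G) (w : G) (y : V))

variable {G V : Type*} [Group G] [Finite G] [MulAction G V] [Finite V] [Nonempty V]
  {B : V → V → Prop} {n : ℕ}

omit [Finite V] [Nonempty V] in
/-- An element of odd order with a fixed point is trivial.
PROOF. It lies in the stabiliser, a `2`-group, so its order is a power of `2`; being odd it is
`1`. -/
theorem Sit.eq_one (S : Sit G V B n) (g : G) (hg : Odd (orderOf g)) (x : V) (hx : g • x = x) :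
    g = 1 := by
  obtain ⟨k, hk⟩ := S.stab x ⟨g, hx⟩
  have h1 : g ^ 2 ^ k = 1 := by
    have := congrArg Subtype.val hk
    simpa using this
  have h2 : orderOf g ∣ 2 ^ k := orderOf_dvd_of_pow_eq_one h1
  have h3 : Nat.Coprime (orderOf g) (2 ^ k) := Nat.Coprime.pow_right _ (Nat.coprime_two_right.2 hg)
  exact orderOf_eq_one_iff.1 (h3.eq_one_of_dvd h2)

omit [Finite V] [Nonempty V] in
/-- elements of odd prime order have no fixed point -/
theorem Sit.free (S : Sit G V B n) (p : ℕ) (hp : p.Prime) (hp2 : p ≠ 2) (g : G)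
    (hg : orderOf g = p) (x : V) : g • x ≠ x := by
  intro hx
  have h1 := S.eq_one g (by rw [hg]; exact hp.odd_of_ne_two hp2) x hx
  rw [h1, orderOf_one] at hg
  exact hp.one_lt.ne hg

/-- PROOF. `NN_eq` and `Sit.free`. -/
theorem Sit.NN_eq (S : Sit G V B n) (p : ℕ) (hp : p.Prime) (hp2 : p ≠ 2) (ε : ℤ)
    (hε : ε = 1 ∨ ε = -1) (hd : (p : ℤ) ∣ (n : ℤ) ^ 2 + 2 + ε * n) (g : G)
    (hg : orderOf g = p) : (NN B g : ℤ) = (n : ℤ) ^ 2 + 2 + ε * n :=
  SRT.NN_eq S.geo S.aut p hp hp2 ε hε hd g (by rw [← hg]; exact pow_orderOf_eq_one g)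
    (S.free p hp hp2 g hg)

/-- The set moved into its closed neighbourhood by `z` is invariant under the centraliser of `z`,
and odd order subgroups of the centraliser act freely on it.
PROOF. `m = r ^ b` a prime power, `r` odd: there is a subgroup `U` of `centralizer {z}` of order
`r ^ b` (`Sylow.exists_subgroup_card_pow_prime`); it acts on `{y : V // B y (z • y)}`
(`B (u y) (z u y) = B (u y) (u z y)`), with trivial stabilisers (`Sit.eq_one`: elements of `U` have
odd order), so `r ^ b ∣ NN B z` (`SRC.free_dvd`, Pool/Agent/SRC/C3.lean).  General odd `m`: all prime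
powers dividing `m` divide `NN B z`, so `m` does (`Nat.dvd_iff_prime_pow_dvd_dvd` or similar). -/
theorem Sit.dvd_NN (S : Sit G V B n) (z : G) (m : ℕ) (hm : Odd m)
    (hd : m ∣ Nat.card (Subgroup.centralizer ({z} : Set G))) : m ∣ NN B z := by
  rw [Nat.dvd_iff_prime_pow_dvd_dvd]
  intro r b hr hrb
  have hodd : Odd (r ^ b) := by
    rcases Nat.even_or_odd (r ^ b) with h1 | h1
    · exfalso
      have h2 : 2 ∣ m := (even_iff_two_dvd.1 h1).trans hrb
      exact (Nat.not_even_iff_odd.2 hm) (even_iff_two_dvd.2 h2)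
    · exact h1
  have : Fact r.Prime := ⟨hr⟩
  obtain ⟨U, hU⟩ := Sylow.exists_subgroup_card_pow_prime r (hrb.trans hd)
  let _ := b1_act S.aut z
  rw [← hU, NN]
  apply SRC.free_dvd
  intro y
  rw [eq_bot_iff]
  intro u hu
  rw [Subgroup.mem_bot]
  have h1 : ((u : Subgroup.centralizer ({z} : Set G)) : G) • (y : V) = y :=
    congrArg Subtype.val hu
  have h2 : Odd (orderOf ((u : Subgroup.centralizer ({z} : Set G)) : G)) := by
    have h3 : orderOf ((u : Subgroup.centralizer ({z} : Set G)) : G) = orderOf u := by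
      rw [Subgroup.orderOf_coe, Subgroup.orderOf_coe]
    have h4 : orderOf u ∣ r ^ b := by
      rw [← hU]
      exact orderOf_dvd_natCard u
    rw [h3]
    rcases Nat.even_or_odd (orderOf u) with h5 | h5
    · exfalso
      have h6 : 2 ∣ r ^ b := (even_iff_two_dvd.1 h5).trans h4
      exact (Nat.not_even_iff_odd.2 hodd) (even_iff_two_dvd.2 h6)
    · exact h5
  have h5 := S.eq_one _ h2 _ h1
  ext
  exact h5

/-- PROOF. `w ^ (orderOf w / p)` is an element `u` of order `p` of `centralizer {w}`; the subgroup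
`zpowers u` has order `p`, so `p` divides the order of the centraliser; `Sit.dvd_NN`. -/
theorem Sit.prime_dvd_NN (S : Sit G V B n) (p : ℕ) (hp : p.Prime) (hp2 : p ≠ 2) (w : G)
    (hw : p ∣ orderOf w) : p ∣ NN B w := by
  apply S.dvd_NN w p (hp.odd_of_ne_two hp2)
  have h1 : w ∈ Subgroup.centralizer ({w} : Set G) := by
    rw [Subgroup.mem_centralizer_singleton_iff]
  have h2 : Subgroup.zpowers w ≤ Subgroup.centralizer ({w} : Set G) := by
    rw [Subgroup.zpowers_le]
    exact h1
  have h3 := Subgroup.card_dvd_of_le h2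
  rw [Nat.card_zpowers] at h3
  exact hw.trans h3

end SRT
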