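import Pool.Agent.SRT.B1

set_option autoImplicit false

namespace SRT

variable {G V : Type*} [Group G] [Finite G] [MulAction G V] [Finite V] [Nonempty V]
  {B : V → V → Prop} {n : ℕ}

omit [Nonempty V] in
/-- Let a `2`-group `T` act on a finite set `X` with `2 ^ i * P` elements, `P` odd, such that all
stabilisers have at most `h` elements (`2`-power).  Then `|T| ≤ 2 ^ i * h`.
PROOF. Otherwise every orbit has `|T| / |T_x| > 2 ^ i` elements, a power of `2`, so it is divisible by
`2 ^ (i+1)`, and so is `|X|` (sum over the orbits, as in `SRC.free_dvd`); but `|X| = 2^i * P`.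
(`MulAction.selfEquivSigmaOrbits`, `MulAction.card_orbit_mul_card_stabilizer_eq_card_group`.) -/
theorem card_le_of_stab {T X : Type*} [Group T] [Finite T] [MulAction T X] [Finite X]
    (hT : IsPGroup 2 T) (i P h : ℕ) (hP : Odd P) (hX : Nat.card X = 2 ^ i * P)
    (hst : ∀ x : X, Nat.card (MulAction.stabilizer T x) ≤ h) : Nat.card T ≤ 2 ^ i * h := by
  classical
  by_contra hcon
  push Not at hcon
  have := Fintype.ofFinite T
  have := Fintype.ofFinite X
  have := Fintype.ofFinite (Quotient (MulAction.orbitRel T X))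
  obtain ⟨b, hb⟩ := (IsPGroup.iff_card (p := 2)).1 hT
  have key : 2 ^ (i + 1) ∣ Nat.card X := by
    rw [Nat.card_congr (MulAction.selfEquivSigmaOrbits T X), Nat.card_sigma]
    apply Finset.dvd_sum
    intro ω _
    have h1 := MulAction.card_orbit_mul_card_stabilizer_eq_card_group T ω.out
    rw [← Nat.card_eq_fintype_card, ← Nat.card_eq_fintype_card, ← Nat.card_eq_fintype_card] at h1
    have h2 : Nat.card (MulAction.orbit T ω.out) ∣ 2 ^ b := by
      rw [← hb, ← h1]
      exact dvd_mul_right _ _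
    obtain ⟨c, -, hc⟩ := (Nat.dvd_prime_pow Nat.prime_two).1 h2
    rw [hc] at h1 ⊢
    apply pow_dvd_pow
    by_contra hci
    have h3 : 2 ^ c ≤ 2 ^ i := Nat.pow_le_pow_right (by norm_num) (by omega)
    have h4 := hst ω.out
    have h5 : Nat.card T ≤ 2 ^ i * h := by
      rw [← h1]
      exact Nat.mul_le_mul h3 h4
    omega
  rw [hX, pow_succ] at key
  have h6 : 2 ∣ P := Nat.dvd_of_mul_dvd_mul_left (by positivity) key
  exact (Nat.not_even_iff_odd.2 hP) (even_iff_two_dvd.2 h6)

/-- PROOF. Apply `card_le_of_stab` to the action of `T = Q ⊓ centralizer {z}` on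
`X = {y : V // B y (z • y)}` (`Nat.card X = NN B z`); the stabiliser in `T` of a point embeds in
`Q ⊓ stabilizer G y`. -/
theorem Sit.card_fix_le (S : Sit G V B n) (Q : Subgroup G) (hQ : IsPGroup 2 Q) (h : ℕ)
    (hst : ∀ x : V, Nat.card ↥(Q ⊓ MulAction.stabilizer G x) ≤ h) (z : G) (i P : ℕ)
    (hP : Odd P) (hz : NN B z = 2 ^ i * P) :
    Nat.card ↥(Q ⊓ Subgroup.centralizer ({z} : Set G)) ≤ 2 ^ i * h := by
  let _ := b1_act S.aut z
  let _ : MulAction ↥(Q ⊓ Subgroup.centralizer ({z} : Set G)) {y : V // B y (z • y)} :=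
    MulAction.compHom _ (Subgroup.inclusion
      (inf_le_right : Q ⊓ Subgroup.centralizer ({z} : Set G) ≤ Subgroup.centralizer ({z} : Set G)))
  have hT : IsPGroup 2 ↥(Q ⊓ Subgroup.centralizer ({z} : Set G)) := hQ.to_le inf_le_left
  refine card_le_of_stab (X := {y : V // B y (z • y)}) hT i P h hP hz ?_
  intro y
  refine le_trans ?_ (hst y.1)
  have hsm : ∀ t : MulAction.stabilizer ↥(Q ⊓ Subgroup.centralizer ({z} : Set G)) y,
      ((t : ↥(Q ⊓ Subgroup.centralizer ({z} : Set G))) : G) • (y : V) = y :=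
    fun t => congrArg Subtype.val t.2
  let f : MulAction.stabilizer ↥(Q ⊓ Subgroup.centralizer ({z} : Set G)) y →
      ↥(Q ⊓ MulAction.stabilizer G y.1) :=
    fun t => ⟨t.1.1, ⟨t.1.2.1, hsm t⟩⟩
  apply Nat.card_le_card_of_injective f
  intro t t' htt
  have h1 := congrArg Subtype.val htt
  exact Subtype.ext (Subtype.ext h1)

end SRT
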