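import Pool.Agent.SRT.B1

set_option autoImplicit false

namespace SRT

variable {G V : Type*} [Group G] [Finite G] [MulAction G V] [Finite V] [Nonempty V]
  {B : V → V → Prop} {n : ℕ}

omit [Nonempty V] in
/-- PROOF. `|G| = |V| |G_x|` (transitivity: the orbit of `x` is everything,
`MulAction.card_orbit_mul_card_stabilizer_eq_card_group`), `|G_x|` is a power of `2`. -/
theorem Sit.card_group (S : Sit G V B n) (x : V) :
    ∃ e : ℕ, Nat.card (MulAction.stabilizer G x) = 2 ^ e ∧ Nat.card G = 2 ^ e * Nat.card V := by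
  obtain ⟨e, he⟩ := (IsPGroup.iff_card (p := 2)).1 (S.stab x)
  refine ⟨e, he, ?_⟩
  have h1 := Subgroup.card_mul_index (MulAction.stabilizer G x)
  have h2 : (MulAction.orbit G x) = Set.univ := by
    ext y
    obtain ⟨g, hg⟩ := S.trans x y
    simp only [Set.mem_univ, iff_true]
    exact ⟨g, hg⟩
  rw [MulAction.index_stabilizer, h2, Set.ncard_univ, he] at h1
  exact h1.symm

omit [Finite V] [Nonempty V] in
/-- PROOF. `g Q_x g⁻¹ = Q_{g x}`, conjugation by `g` is a bijection from `Q ⊓ G_x` to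
`Q ⊓ G_{g x}` (`Q` normal). -/
theorem Sit.card_stab_eq (S : Sit G V B n) (Q : Subgroup G) (hQ : Q.Normal) (x y : V) :
    Nat.card ↥(Q ⊓ MulAction.stabilizer G x) = Nat.card ↥(Q ⊓ MulAction.stabilizer G y) := by
  obtain ⟨g, hg⟩ := S.trans x y
  have hg' : g⁻¹ • y = x := by rw [← hg, inv_smul_smul]
  apply Nat.card_congr
  refine ⟨fun q => ⟨g * q.1 * g⁻¹, ⟨hQ.conj_mem _ q.2.1 g, ?_⟩⟩,
    fun q => ⟨g⁻¹ * q.1 * g, ⟨?_, ?_⟩⟩, fun q => ?_, fun q => ?_⟩
  · have h1 : (q.1 : G) • x = x := q.2.2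
    show (g * (q.1 : G) * g⁻¹) • y = y
    rw [← hg, smul_smul]
    have : g * (q.1 : G) * g⁻¹ * g = g * (q.1 : G) := by group
    rw [this, mul_smul, h1]
  · have := hQ.conj_mem _ q.2.1 g⁻¹
    rwa [inv_inv] at this
  · have h1 : (q.1 : G) • y = y := q.2.2
    show (g⁻¹ * (q.1 : G) * g) • x = x
    rw [mul_smul, hg, mul_smul, h1, hg']
  · apply Subtype.ext
    show g⁻¹ * (g * (q.1 : G) * g⁻¹) * g = q.1
    group
  · apply Subtype.ext
    show g * (g⁻¹ * (q.1 : G) * g) * g⁻¹ = q.1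
    group

/-- PROOF. `2 ^ a` is the common size of the orbits of `Q`: `|Q| = |Q x| |Q_x|` with
`|Q_x| = h`, both powers of `2`.  All orbits of `Q` have size `2^a`, so `2^a ∣ |V|`. -/
theorem Sit.exists_a (S : Sit G V B n) (Q : Subgroup G) (hQ : Q.Normal) (hQ2 : IsPGroup 2 Q)
    (h : ℕ) (hh : ∀ x : V, Nat.card ↥(Q ⊓ MulAction.stabilizer G x) = h) :
    ∃ a η : ℕ, Nat.card Q = 2 ^ a * h ∧ h = 2 ^ η ∧ 2 ^ a ∣ Nat.card V := by
  classical
  obtain ⟨x₀⟩ := (inferInstance : Nonempty V)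
  obtain ⟨b, hb⟩ := (IsPGroup.iff_card (p := 2)).1 hQ2
  have h1 : IsPGroup 2 ↥(Q ⊓ MulAction.stabilizer G x₀) := hQ2.to_le inf_le_left
  obtain ⟨η, hη⟩ := (IsPGroup.iff_card (p := 2)).1 h1
  rw [hh x₀] at hη
  have hst : ∀ x : V, Nat.card (MulAction.stabilizer Q x) = h := by
    intro x
    rw [← hh x]
    apply Nat.card_congr
    exact ⟨fun q => ⟨q.1.1, ⟨q.1.2, q.2⟩⟩, fun q => ⟨⟨q.1, q.2.1⟩, q.2.2⟩, fun q => rfl,
      fun q => rfl⟩
  have h2 : 2 ^ η ∣ 2 ^ b := by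
    rw [← hb, ← hη, ← hst x₀]
    exact Subgroup.card_subgroup_dvd_card _
  have h3 : η ≤ b := (Nat.pow_dvd_pow_iff_le_right (by norm_num)).1 h2
  obtain ⟨a, rfl⟩ := Nat.exists_eq_add_of_le h3
  have hcQ : Nat.card Q = 2 ^ a * h := by rw [hb, hη, pow_add, mul_comm]
  refine ⟨a, η, hcQ, hη, ?_⟩
  have := Fintype.ofFinite Q
  have := Fintype.ofFinite V
  have := Fintype.ofFinite (Quotient (MulAction.orbitRel Q V))
  rw [Nat.card_congr (MulAction.selfEquivSigmaOrbits Q V), Nat.card_sigma]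
  apply Finset.dvd_sum
  intro ω _
  have h4 := MulAction.card_orbit_mul_card_stabilizer_eq_card_group Q ω.out
  rw [← Nat.card_eq_fintype_card, ← Nat.card_eq_fintype_card, ← Nat.card_eq_fintype_card,
    hst, hcQ] at h4
  have h5 : 0 < h := by rw [hη]; positivity
  rw [Nat.eq_of_mul_eq_mul_right h5 h4]

omit [Nonempty V] in
/-- double count of `{(g, x) : g ∈ Q, g x = x}` -/
theorem Sit.sum_fixed (S : Sit G V B n) (Q : Subgroup G) (h : ℕ)
    (hh : ∀ x : V, Nat.card ↥(Q ⊓ MulAction.stabilizer G x) = h) [Fintype Q] :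
    ∑ g : Q, Nat.card {x : V // (g : G) • x = x} = Nat.card V * h := by
  classical
  have := Fintype.ofFinite V
  have e : (Σ g : Q, {x : V // (g : G) • x = x}) ≃
      (Σ x : V, ↥(Q ⊓ MulAction.stabilizer G x)) :=
    { toFun := fun p => ⟨p.2.1, ⟨p.1.1, ⟨p.1.2, p.2.2⟩⟩⟩
      invFun := fun p => ⟨⟨p.2.1, p.2.2.1⟩, ⟨p.1, p.2.2.2⟩⟩
      left_inv := fun p => rfl
      right_inv := fun p => rfl }
  have h1 := Nat.card_congr e
  rw [Nat.card_sigma, Nat.card_sigma] at h1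
  rw [h1, Finset.sum_congr rfl (fun x _ => hh x), Finset.sum_const, Finset.card_univ,
    smul_eq_mul, Nat.card_eq_fintype_card]

end SRT
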