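import Pool.Agent.SRT.Defs

set_option autoImplicit false

namespace SRT

open Classical in
/-- another element of `S` -/
private noncomputable def c1_oth {V : Type*} (S : Finset V) (a : V) : V :=
  if h : ∃ b ∈ S, b ≠ a then h.choose else a

private theorem c1_two {V : Type*} {S : Finset V} (hS : S.card = 2) {a b c : V} (ha : a ∈ S) (hb : b ∈ S)
    (hab : a ≠ b) (hc : c ∈ S) : c = a ∨ c = b := by
  classical
  by_contra hcon
  push Not at hcon
  have h1 : ({a, b, c} : Finset V) ⊆ S := by
    intro y hy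
    simp only [Finset.mem_insert, Finset.mem_singleton] at hy
    rcases hy with rfl | rfl | rfl <;> assumption
  have h2 := Finset.card_le_card h1
  rw [Finset.card_eq_three.2 ⟨a, b, c, hab, hcon.1.symm, hcon.2.symm, rfl⟩, hS] at h2
  omega

private theorem c1_oth_spec {V : Type*} {S : Finset V} (hS : S.card = 2) (a : V) :
    c1_oth S a ∈ S ∧ c1_oth S a ≠ a := by
  classical
  have h : ∃ b ∈ S, b ≠ a := by
    by_contra hcon
    push Not at hcon
    have h1 : S ⊆ {a} := fun b hb => Finset.mem_singleton.2 (hcon b hb)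
    have h2 := Finset.card_le_card h1
    rw [Finset.card_singleton] at h2
    omega
  rw [c1_oth, dif_pos h]
  exact h.choose_spec

private theorem c1_oth_eq {V : Type*} {S : Finset V} (hS : S.card = 2) {a b : V} (ha : a ∈ S) (hb : b ∈ S)
    (hab : b ≠ a) : c1_oth S a = b := by
  obtain ⟨h1, h2⟩ := c1_oth_spec hS a
  rcases c1_two hS ha hb hab.symm h1 with h | h
  · exact absurd h h2
  · exact h

open Classical in
/-- common closed neighbours -/
private noncomputable def c1_C {V : Type*} [Fintype V] (B : V → V → Prop) (u v : V) : Finset V :=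
  Finset.univ.filter (fun y => B u y ∧ B y v)

private theorem c1_mem {V : Type*} [Fintype V] {B : V → V → Prop} {u v y : V} :
    y ∈ c1_C B u v ↔ B u y ∧ B y v := by
  simp [c1_C]

private theorem c1_card {V : Type*} [Fintype V] {B : V → V → Prop} {d : ℕ} (h : Geo B d) {u v : V}
    (huv : u ≠ v) : (c1_C B u v).card = 2 := by
  classical
  rw [← h.two u v huv, Nat.card_eq_fintype_card, Fintype.card_subtype]
  unfold c1_C
  congr 1

/-- two neighbours of `x` have a second common neighbour, which is not a neighbour of `x` -/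
private theorem c1_not {V : Type*} [Fintype V] {B : V → V → Prop} {d : ℕ} (h : Geo B d) {x a b z : V}
    (ha : a ≠ x) (hxa : B x a) (hb : b ≠ x) (hxb : B x b) (hab : a ≠ b) (hz : z ≠ x) (haz : B a z)
    (hzb : B z b) : ¬ B x z := by
  intro hxz
  have h1 : z = x ∨ z = a := c1_two (c1_card h ha.symm) (a := x) (b := a)
    (c1_mem.2 ⟨h.refl x, hxa⟩) (c1_mem.2 ⟨hxa, h.refl a⟩) ha.symm (c1_mem.2 ⟨hxz, h.symm _ _ haz⟩)
  have h2 : z = x ∨ z = b := c1_two (c1_card h hb.symm) (a := x) (b := b)
    (c1_mem.2 ⟨h.refl x, hxb⟩) (c1_mem.2 ⟨hxb, h.refl b⟩) hb.symm (c1_mem.2 ⟨hxz, hzb⟩)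
  rcases h1 with h1 | h1
  · exact hz h1
  · rcases h2 with h2 | h2
    · exact hz h2
    · exact hab (h1.symm.trans h2)

/-- Fixed points of an involution that fixes `x`.  `f` = number of fixed points of `t` in the open
neighbourhood `N(x) = {y ≠ x : B x y}` (it has `n^2+1` elements).
PROOF.  Every `z` with `¬ B x z` has exactly two common closed neighbours with `x`; these are
`≠ x, z`, so they are elements of `N(x)`: let `c(z) = {y : B x y ∧ B y z}`, a `2`-element subset of
`N(x)`.  Conversely for `a ≠ b` in `N(x)`, `{y : B a y ∧ B y b}` has two elements, one of which is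
`x`; the other one, `z`, satisfies `z ≠ x` and `¬ B x z` (if `z ∈ N(x)`, say `z ≠ a` (rename): `B x z`,
`B a z`, `B a x`: then `{y : B a y ∧ B y x}` contains `a, x, z`, three elements, unless `z = a`; and
`z = a` gives `B a b`, then `{y : B a y ∧ B y x}` contains `a`, `x` and `b`, contradiction).
So `z ↦ c(z)` is a bijection from `{z : ¬ B x z}` onto the `2`-subsets of `N(x)`, and it commutes with
`t`.  Hence the number of fixed points of `t` outside the closed neighbourhood of `x` is the number of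
`t`-invariant `2`-subsets of `N(x)`: `f (f-1) / 2` subsets of fixed points and `(n^2+1-f)/2` pairs
`{y, t y}`.  Total: `|Fix| = 1 + f + f(f-1)/2 + (n^2+1-f)/2`, i.e. `2 |Fix| = f^2 + n^2 + 3`.

A way to count without subsets (all in ordered pairs): let `F` be the set of `z` with `t z = z`,
`¬ B x z`.  Count ordered pairs `(y, z)`, `y ∈ N(x)`, `z ∈ F`, `B y z`: it is `2 |F|`.  For fixed `y`
in `N(x)`: if `t y = y`, then `z ↦` (the other element of `c(z)`) is a bijection onto
`{y' ∈ N(x) : t y' = y', y' ≠ y}` (the number is `f - 1`); if `t y ≠ y`, there is exactly one such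
`z`: the common neighbour `≠ x` of `y` and `t y` (it is fixed by `t`, which permutes the two common
neighbours of `y, t y` and fixes `x`; and a `z ∈ F` with `B y z` has `B (t y) z`).
So `2 |F| = f (f - 1) + (n^2 + 1 - f)` and `|Fix| = 1 + f + |F|`. -/
theorem card_fix_involution {V : Type*} [Finite V] {B : V → V → Prop} {n : ℕ}
    (h : Geo B (n ^ 2 + 2)) (t : V → V) (ht : ∀ x, t (t x) = x)
    (haut : ∀ x y, B x y → B (t x) (t y)) (x : V) (hx : t x = x) :
    2 * Nat.card {y : V // t y = y} =
      (Nat.card {y : V // y ≠ x ∧ B x y ∧ t y = y}) ^ 2 + n ^ 2 + 3 := by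
  classical
  cases nonempty_fintype V
  set N : Finset V := Finset.univ.filter (fun y => y ≠ x ∧ B x y) with hN
  set Nf : Finset V := Finset.univ.filter (fun y => y ≠ x ∧ B x y ∧ t y = y) with hNf
  set Ff : Finset V := Finset.univ.filter (fun z => t z = z ∧ ¬ B x z) with hFf
  set Fx : Finset V := Finset.univ.filter (fun y => t y = y) with hFx
  have hmN : ∀ y, y ∈ N ↔ y ≠ x ∧ B x y := fun y => by simp [hN]
  have hmNf : ∀ y, y ∈ Nf ↔ y ≠ x ∧ B x y ∧ t y = y := fun y => by simp [hNf]
  have hmF : ∀ z, z ∈ Ff ↔ t z = z ∧ ¬ B x z := fun z => by simp [hFf]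
  have hsub : Nf ⊆ N := fun y hy => (hmN y).2 ⟨((hmNf y).1 hy).1, ((hmNf y).1 hy).2.1⟩
  have e1 : Nat.card {y : V // t y = y} = Fx.card := by
    rw [Nat.card_eq_fintype_card, Fintype.card_subtype]
  have e2 : Nat.card {y : V // y ≠ x ∧ B x y ∧ t y = y} = Nf.card := by
    rw [Nat.card_eq_fintype_card, Fintype.card_subtype]
  have e3 : N.card = n ^ 2 + 1 := by
    have h1 : (Finset.univ.filter (fun y => B x y)).card = n ^ 2 + 2 := by
      rw [← h.card x, Nat.card_eq_fintype_card, Fintype.card_subtype]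
    have h2 : N = (Finset.univ.filter (fun y => B x y)).erase x := by
      ext y
      rw [hmN, Finset.mem_erase, Finset.mem_filter]
      simp
    rw [h2, Finset.card_erase_of_mem (by simp [h.refl x]), h1]
    rfl
  have htinj : ∀ a b, t a = t b → a = b := by
    intro a b hab
    rw [← ht a, hab, ht]
  have htN : ∀ y ∈ N, t y ∈ N := by
    intro y hy
    rw [hmN] at hy ⊢
    refine ⟨fun h1 => hy.1 (htinj _ _ (by rw [h1, hx])), ?_⟩
    have := haut x y hy.2
    rwa [hx] at this
  -- the fixed points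
  have e4 : Fx.card = 1 + Nf.card + Ff.card := by
    have h1 : Fx = insert x (Nf ∪ Ff) := by
      ext y
      rw [Finset.mem_insert, Finset.mem_union, hmNf, hmF]
      simp only [hFx, Finset.mem_filter, Finset.mem_univ, true_and]
      constructor
      · intro hy
        by_cases h1 : y = x
        · exact Or.inl h1
        · by_cases h2 : B x y
          · exact Or.inr (Or.inl ⟨h1, h2, hy⟩)
          · exact Or.inr (Or.inr ⟨hy, h2⟩)
      · rintro (h1 | h1 | h1)
        · rw [h1]; exact hx
        · exact h1.2.2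
        · exact h1.1
    have h2 : Disjoint Nf Ff := by
      rw [Finset.disjoint_left]
      intro y hy hy'
      exact ((hmF y).1 hy').2 ((hmNf y).1 hy).2.1
    have h3 : x ∉ Nf ∪ Ff := by
      rw [Finset.mem_union, hmNf, hmF]
      rintro (h1 | h1)
      · exact h1.1 rfl
      · exact h1.2 (h.refl x)
    rw [h1, Finset.card_insert_of_notMem h3, Finset.card_union_of_disjoint h2]
    omega
  -- the double count
  set S2 : Finset (V × V) := Nf.offDiag ∪ (N \ Nf).image (fun y => (y, t y)) with hS2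
  have hm2 : ∀ y y', (y, y') ∈ S2 ↔ y ∈ N ∧ y' ∈ N ∧ y ≠ y' ∧ ((t y = y ∧ t y' = y') ∨ t y = y') := by
    intro y y'
    rw [hS2, Finset.mem_union, Finset.mem_offDiag, Finset.mem_image]
    constructor
    · rintro (⟨h1, h2, h3⟩ | ⟨a, ha, h1⟩)
      · exact ⟨hsub h1, hsub h2, h3, Or.inl ⟨((hmNf y).1 h1).2.2, ((hmNf y').1 h2).2.2⟩⟩
      · obtain ⟨rfl, rfl⟩ := Prod.mk.inj h1
        rw [Finset.mem_sdiff] at ha
        refine ⟨ha.1, htN _ ha.1, ?_, Or.inr rfl⟩
        intro h2
        apply ha.2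
        have h3 := (hmN a).1 ha.1
        exact (hmNf a).2 ⟨h3.1, h3.2, h2.symm⟩
    · rintro ⟨h1, h2, h3, h4 | h4⟩
      · left
        have h5 := (hmN y).1 h1
        have h6 := (hmN y').1 h2
        exact ⟨(hmNf y).2 ⟨h5.1, h5.2, h4.1⟩, (hmNf y').2 ⟨h6.1, h6.2, h4.2⟩, h3⟩
      · right
        refine ⟨y, ?_, by rw [h4]⟩
        rw [Finset.mem_sdiff]
        refine ⟨h1, fun h5 => h3 ?_⟩
        rw [← h4]
        exact ((hmNf y).1 h5).2.2.symm
  have hc2 : S2.card + 2 * Nf.card = Nf.card ^ 2 + (n ^ 2 + 1) := by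
    have h1 : Disjoint Nf.offDiag ((N \ Nf).image (fun y => (y, t y))) := by
      rw [Finset.disjoint_left]
      rintro ⟨y, y'⟩ hy hy'
      rw [Finset.mem_offDiag] at hy
      rw [Finset.mem_image] at hy'
      obtain ⟨a, ha, h2⟩ := hy'
      obtain ⟨rfl, rfl⟩ := Prod.mk.inj h2
      exact (Finset.mem_sdiff.1 ha).2 hy.1
    have h2 : ((N \ Nf).image (fun y => (y, t y))).card = (N \ Nf).card :=
      Finset.card_image_of_injective _ (fun a b hab => (Prod.mk.inj hab).1)
    have h3 := Finset.card_sdiff_add_card_eq_card hsub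
    have h4 : Nf.card ≤ Nf.card * Nf.card := Nat.le_mul_self _
    rw [hS2, Finset.card_union_of_disjoint h1, Finset.offDiag_card, h2]
    have h5 : Nf.card ^ 2 = Nf.card * Nf.card := sq _
    omega
  have hc1 : (Ff.sigma (fun z => c1_C B x z)).card = 2 * Ff.card := by
    rw [Finset.card_sigma]
    have h1 : ∀ z ∈ Ff, (c1_C B x z).card = 2 := by
      intro z hz
      apply c1_card h
      rintro rfl
      exact ((hmF _).1 hz).2 (h.refl _)
    rw [Finset.sum_congr rfl h1, Finset.sum_const, smul_eq_mul, mul_comm]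
  have hbij : (Ff.sigma (fun z => c1_C B x z)).card = S2.card := by
    refine Finset.card_bij' (fun a _ => (a.2, c1_oth (c1_C B x a.1) a.2))
      (fun b _ => ⟨c1_oth (c1_C B b.1 b.2) x, b.1⟩) ?_ ?_ ?_ ?_
    · rintro ⟨z, y⟩ ha
      rw [Finset.mem_sigma] at ha
      obtain ⟨hz, hy⟩ := ha
      dsimp only at hz hy ⊢
      obtain ⟨htz, hxz⟩ := (hmF z).1 hz
      have hne : x ≠ z := by
        rintro rfl
        exact hxz (h.refl _)
      have hcard := c1_card h hne
      obtain ⟨ho1, ho2⟩ := c1_oth_spec hcard y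
      set y' := c1_oth (c1_C B x z) y with hy'
      have hyC := c1_mem.1 hy
      have hy'C := c1_mem.1 ho1
      rw [hm2]
      have hyN : y ∈ N := (hmN y).2 ⟨by rintro rfl; exact hxz hyC.2, hyC.1⟩
      have hy'N : y' ∈ N := (hmN y').2 ⟨by intro h1; rw [h1] at hy'C; exact hxz hy'C.2, hy'C.1⟩
      have htC : ∀ a ∈ c1_C B x z, t a ∈ c1_C B x z := by
        intro a ha
        have h1 := c1_mem.1 ha
        have h2 := haut _ _ h1.1
        have h3 := haut _ _ h1.2
        rw [hx] at h2
        rw [htz] at h3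
        exact c1_mem.2 ⟨h2, h3⟩
      refine ⟨hyN, hy'N, ho2.symm, ?_⟩
      rcases c1_two hcard hy ho1 ho2.symm (htC y hy) with h1 | h1
      · left
        refine ⟨h1, ?_⟩
        rcases c1_two hcard hy ho1 ho2.symm (htC y' ho1) with h2 | h2
        · exfalso
          apply ho2
          apply htinj
          rw [h2, h1]
        · exact h2
      · right
        exact h1
    · rintro ⟨y, y'⟩ hb
      rw [hm2] at hb
      obtain ⟨hy, hy', hne, hcase⟩ := hb
      dsimp only
      obtain ⟨hyx, hxy⟩ := (hmN y).1 hy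
      obtain ⟨hyx', hxy'⟩ := (hmN y').1 hy'
      have hcard := c1_card h hne
      obtain ⟨ho1, ho2⟩ := c1_oth_spec hcard x
      set z := c1_oth (c1_C B y y') x with hz
      have hzC := c1_mem.1 ho1
      have hxz := c1_not h hyx hxy hyx' hxy' hne ho2 hzC.1 hzC.2
      rw [Finset.mem_sigma]
      refine ⟨(hmF z).2 ⟨?_, hxz⟩, c1_mem.2 ⟨hxy, hzC.1⟩⟩
      have hxC : x ∈ c1_C B y y' := c1_mem.2 ⟨h.symm _ _ hxy, hxy'⟩
      have htz : t z ∈ c1_C B y y' := by
        have h1 := haut _ _ hzC.1
        have h2 := haut _ _ hzC.2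
        rcases hcase with ⟨h3, h4⟩ | h3
        · rw [h3] at h1
          rw [h4] at h2
          exact c1_mem.2 ⟨h1, h2⟩
        · rw [h3] at h1
          have h4 : t y' = y := by rw [← h3, ht]
          rw [h4] at h2
          exact c1_mem.2 ⟨h.symm _ _ h2, h.symm _ _ h1⟩
      rcases c1_two hcard hxC ho1 ho2.symm htz with h1 | h1
      · exfalso
        apply ho2
        apply htinj
        rw [h1, hx]
      · exact h1
    · rintro ⟨z, y⟩ ha
      rw [Finset.mem_sigma] at ha
      obtain ⟨hz, hy⟩ := ha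
      dsimp only at hz hy ⊢
      obtain ⟨htz, hxz⟩ := (hmF z).1 hz
      have hne : x ≠ z := by
        rintro rfl
        exact hxz (h.refl _)
      have hcard := c1_card h hne
      obtain ⟨ho1, ho2⟩ := c1_oth_spec hcard y
      set y' := c1_oth (c1_C B x z) y with hy'
      have hyC := c1_mem.1 hy
      have hy'C := c1_mem.1 ho1
      have h1 : c1_oth (c1_C B y y') x = z :=
        c1_oth_eq (c1_card h ho2.symm) (c1_mem.2 ⟨h.symm _ _ hyC.1, hy'C.1⟩)
          (c1_mem.2 ⟨hyC.2, h.symm _ _ hy'C.2⟩) hne.symm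
      rw [h1]
    · rintro ⟨y, y'⟩ hb
      rw [hm2] at hb
      obtain ⟨hy, hy', hne, hcase⟩ := hb
      dsimp only
      obtain ⟨hyx, hxy⟩ := (hmN y).1 hy
      obtain ⟨hyx', hxy'⟩ := (hmN y').1 hy'
      have hcard := c1_card h hne
      obtain ⟨ho1, ho2⟩ := c1_oth_spec hcard x
      set z := c1_oth (c1_C B y y') x with hz
      have hzC := c1_mem.1 ho1
      have h1 : c1_oth (c1_C B x z) y = y' :=
        c1_oth_eq (c1_card h ho2.symm) (c1_mem.2 ⟨hxy, hzC.1⟩)
          (c1_mem.2 ⟨hxy', h.symm _ _ hzC.2⟩) hne.symm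
      rw [h1]
  rw [e1, e2, e4]
  have h5 : Nf.card ^ 2 + n ^ 2 + 3 = Nf.card ^ 2 + (n ^ 2 + 1) + 2 := by ring
  omega

end SRT
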