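import Pool.Agent.SRT.A1a

set_option autoImplicit false

namespace SRT

private theorem c2a_cnt {V : Type*} [Fintype V] (P : V → Prop) [DecidablePred P] :
    ∑ y : V, (if P y then (1 : ℝ) else 0) = (Nat.card {y : V // P y} : ℝ) := by
  rw [Finset.sum_boole, Nat.card_eq_fintype_card, Fintype.card_subtype]

/-- Rayleigh quotient bound.  For `F ⊆ V`, `m = |F|`, `e = #{(x, y) ∈ F × F : B x y}`, `v = |V|`:
`v e ≤ m^2 (n^2+2) + n m (v - m)`.
PROOF. Let `χ : V → ℝ` be the indicator function of `F`, `w = χ - (m/v) 1`, so `∑ w = 0` and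
`w ⬝ w = m - m²/v`.  With `M = mM ℝ B`: `M (M w) = n² w + 2 J w = n² w` (`mM_sq`), so
`(M w) ⬝ (M w) = w ⬝ M (M w) = n² (w ⬝ w)` (`M` symmetric), and by Cauchy-Schwarz
(`(w ⬝ M w)^2 ≤ (w ⬝ w) (M w ⬝ M w) = (n (w ⬝ w))^2`, `Finset.sum_mul_sq_le_sq_mul_sq`)
`w ⬝ M w ≤ n (w ⬝ w)`.  Finally
`e = χ ⬝ M χ = w ⬝ M w + (m/v)² · v (n²+2)` (`M 1 = (n²+2) 1`, `w ⬝ 1 = 0`). -/
theorem rayleigh {V : Type*} [Finite V] [Nonempty V] {B : V → V → Prop} {n : ℕ}
    (h : Geo B (n ^ 2 + 2)) (F : Set V) :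
    (Nat.card V : ℝ) * (Nat.card {p : V × V // p.1 ∈ F ∧ p.2 ∈ F ∧ B p.1 p.2} : ℝ) ≤
      (Nat.card F : ℝ) ^ 2 * ((n : ℝ) ^ 2 + 2) +
        n * (Nat.card F : ℝ) * ((Nat.card V : ℝ) - Nat.card F) := by
  classical
  cases nonempty_fintype V
  set b : V → V → ℝ := fun x y => if B x y then 1 else 0 with hb
  have hsymm : ∀ x y, b x y = b y x := by
    intro x y
    have h1 : B x y ↔ B y x := ⟨h.symm x y, h.symm y x⟩
    simp only [hb, h1]
  have hb1 : ∀ x, ∑ y, b x y = (n : ℝ) ^ 2 + 2 := by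
    intro x
    rw [hb, c2a_cnt, h.card x]
    push_cast
    ring
  have hb2 : ∀ x z, ∑ y, b x y * b y z = (if x = z then (n : ℝ) ^ 2 else 0) + 2 := by
    intro x z
    have h1 : ∀ y, b x y * b y z = if B x y ∧ B y z then (1 : ℝ) else 0 := by
      intro y
      simp only [hb]
      by_cases h1 : B x y <;> by_cases h2 : B y z <;> simp [h1, h2]
    rw [Finset.sum_congr rfl (fun y _ => h1 y), c2a_cnt]
    by_cases hxz : x = z
    · subst hxz
      have h2 : Nat.card {y : V // B x y ∧ B y x} = Nat.card {y : V // B x y} := by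
        apply Nat.card_congr
        apply Equiv.subtypeEquivRight
        intro y
        exact ⟨fun h => h.1, fun h' => ⟨h', h.symm _ _ h'⟩⟩
      rw [h2, h.card x, if_pos rfl]
      push_cast
      ring
    · rw [h.two x z hxz, if_neg hxz]
      norm_num
  set v : ℝ := (Nat.card V : ℝ) with hv
  have hvc : (Finset.univ : Finset V).card = Nat.card V := by
    rw [Nat.card_eq_fintype_card, Finset.card_univ]
  have hv0 : 0 < v := by
    rw [hv]
    exact_mod_cast Nat.card_pos
  set χ : V → ℝ := fun x => if x ∈ F then 1 else 0 with hχ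
  set m : ℝ := (Nat.card F : ℝ) with hm
  have hχ1 : ∑ x, χ x = m := by
    rw [hχ, c2a_cnt]
  have hχ2 : ∀ x, χ x * χ x = χ x := by
    intro x
    simp only [hχ]
    split_ifs <;> simp
  set w : V → ℝ := fun x => χ x - m / v with hw
  have hone : ∑ _x : V, (1 : ℝ) = v := by
    rw [Finset.sum_const, hvc, nsmul_eq_mul, mul_one]
  have hw0 : ∑ x, w x = 0 := by
    rw [hw, Finset.sum_sub_distrib, hχ1, Finset.sum_const, hvc, nsmul_eq_mul]
    field_simp
    ring
  have hww : ∑ x, w x * w x = m - m ^ 2 / v := by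
    have h1 : ∀ x, w x * w x = χ x - 2 * (m / v) * χ x + (m / v) ^ 2 * 1 := by
      intro x
      simp only [hw]
      linear_combination hχ2 x
    rw [Finset.sum_congr rfl (fun x _ => h1 x), Finset.sum_add_distrib, Finset.sum_sub_distrib,
      ← Finset.mul_sum, ← Finset.mul_sum, hχ1, hone]
    field_simp
    ring
  set u : V → ℝ := fun x => ∑ y, b x y * w y with hu
  have huu : ∑ x, u x * u x = (n : ℝ) ^ 2 * ∑ x, w x * w x := by
    have h1 : ∑ x, u x * u x = ∑ y, ∑ z, (∑ x, b y x * b x z) * (w y * w z) := by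
      have h2 : ∀ x, u x * u x = ∑ y, ∑ z, (b y x * b x z) * (w y * w z) := by
        intro x
        simp only [hu]
        rw [Finset.sum_mul_sum]
        refine Finset.sum_congr rfl fun y _ => Finset.sum_congr rfl fun z _ => ?_
        rw [hsymm y x]
        ring
      rw [Finset.sum_congr rfl (fun x _ => h2 x), Finset.sum_comm]
      refine Finset.sum_congr rfl fun y _ => ?_
      rw [Finset.sum_comm]
      refine Finset.sum_congr rfl fun z _ => ?_
      rw [Finset.sum_mul]
    rw [h1]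
    have h3 : ∀ y, ∑ z, (∑ x, b y x * b x z) * (w y * w z) = (n : ℝ) ^ 2 * (w y * w y) := by
      intro y
      have h4 : ∀ z, (∑ x, b y x * b x z) * (w y * w z) =
          (if y = z then (n : ℝ) ^ 2 * (w y * w z) else 0) + 2 * w y * w z := by
        intro z
        rw [hb2 y z]
        split_ifs <;> ring
      rw [Finset.sum_congr rfl (fun z _ => h4 z), Finset.sum_add_distrib, Finset.sum_ite_eq,
        if_pos (Finset.mem_univ y), ← Finset.mul_sum, hw0]
      ring
    rw [Finset.sum_congr rfl (fun y _ => h3 y), ← Finset.mul_sum]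
  have hW : 0 ≤ ∑ x, w x * w x := Finset.sum_nonneg fun x _ => mul_self_nonneg _
  have hCS : ∑ x, w x * u x ≤ n * ∑ x, w x * w x := by
    have h1 := Finset.sum_mul_sq_le_sq_mul_sq Finset.univ w u
    have h2 : (∑ x, w x * u x) ^ 2 ≤ ((n : ℝ) * ∑ x, w x * w x) ^ 2 := by
      refine h1.trans (le_of_eq ?_)
      have e1 : ∑ x, w x ^ 2 = ∑ x, w x * w x := Finset.sum_congr rfl fun x _ => sq _
      have e2 : ∑ x, u x ^ 2 = ∑ x, u x * u x := Finset.sum_congr rfl fun x _ => sq _
      rw [e1, e2, huu]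
      ring
    exact abs_le_of_sq_le_sq' h2 (by positivity) |>.2
  -- the count
  have he : (Nat.card {p : V × V // p.1 ∈ F ∧ p.2 ∈ F ∧ B p.1 p.2} : ℝ) =
      ∑ x, ∑ y, χ x * (b x y * χ y) := by
    rw [← c2a_cnt, Fintype.sum_prod_type]
    refine Finset.sum_congr rfl fun x _ => Finset.sum_congr rfl fun y _ => ?_
    simp only [hχ, hb]
    by_cases h1 : x ∈ F <;> by_cases h2 : y ∈ F <;> by_cases h3 : B x y <;> simp [h1, h2, h3]
  have he2 : ∑ x, ∑ y, χ x * (b x y * χ y) = ∑ x, w x * u x + m ^ 2 / v * ((n : ℝ) ^ 2 + 2) := by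
    have h1 : ∀ x, ∑ y, χ x * (b x y * χ y) = χ x * u x + (m / v) * ((n : ℝ) ^ 2 + 2) * χ x := by
      intro x
      rw [← Finset.mul_sum]
      have h2 : ∑ y, b x y * χ y = u x + (m / v) * ((n : ℝ) ^ 2 + 2) := by
        have h3 : ∀ y, b x y * χ y = b x y * w y + (m / v) * b x y := by
          intro y
          simp only [hw]
          ring
        rw [Finset.sum_congr rfl (fun y _ => h3 y), Finset.sum_add_distrib, ← Finset.mul_sum, hb1]
      rw [h2]
      ring
    rw [Finset.sum_congr rfl (fun x _ => h1 x), Finset.sum_add_distrib, ← Finset.mul_sum, hχ1]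
    have h4 : ∑ x, χ x * u x = ∑ x, w x * u x := by
      have h5 : ∀ x, χ x * u x = w x * u x + (m / v) * u x := by
        intro x
        simp only [hw]
        ring
      have h6 : ∑ x, u x = 0 := by
        simp only [hu]
        rw [Finset.sum_comm]
        have h7 : ∀ y, ∑ x, b x y * w y = ((n : ℝ) ^ 2 + 2) * w y := by
          intro y
          rw [← Finset.sum_mul]
          congr 1
          rw [← hb1 y]
          exact Finset.sum_congr rfl fun x _ => hsymm x y
        rw [Finset.sum_congr rfl (fun y _ => h7 y), ← Finset.mul_sum, hw0, mul_zero]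
      rw [Finset.sum_congr rfl (fun x _ => h5 x), Finset.sum_add_distrib, ← Finset.mul_sum, h6]
      ring
    rw [h4]
    ring
  rw [he, he2]
  rw [hww] at hCS
  have h1 : v * (∑ x, w x * u x) ≤ v * (n * (m - m ^ 2 / v)) := mul_le_mul_of_nonneg_left hCS hv0.le
  have h2 : v * (n * (m - m ^ 2 / v)) = n * m * (v - m) := by
    field_simp
  have h3 : v * (∑ x, w x * u x + m ^ 2 / v * ((n : ℝ) ^ 2 + 2)) =
      v * (∑ x, w x * u x) + m ^ 2 * ((n : ℝ) ^ 2 + 2) := by
    field_simp
  rw [h3]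
  linarith

end SRT
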