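import Pool.Agent.SRT.C2a

set_option autoImplicit false

namespace SRT

/-- An automorphism `t ≠ 1` has at most `n^2 + n + 2` fixed points.
PROOF. `F = {y : t y = y}`, `m = |F|`, `v = |V|`.  If `y ∉ F`, then
`{z ∈ F : B z y} ⊆ {z : B (t y) z ∧ B z y}` (`B z y` implies `B (t z) (t y) = B z (t y)`), so it has at
most two elements (`t y ≠ y`).  Counting the pairs `(z, y)`, `z ∈ F`, `B z y`, there are `m (n^2+2)`
of them, `e` with `y ∈ F` and at most `2 (v - m)` with `y ∉ F`:
`m (n²+2) ≤ e + 2 (v - m)`.  Multiply by `v` and use `rayleigh`: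
`m (n²+2) v ≤ m² (n²+2) + n m (v-m) + 2 v (v-m)`, i.e.
`(v - m) m (n²+2-n) ≤ 2 v (v - m)`; `v > m` since `t ≠ 1`, so `m (n²+2-n) ≤ 2 v =
(n²+2-n)(n²+2+n)` (`Geo.two_mul_card'`), so `m ≤ n²+n+2`. -/
theorem card_fix_le {V : Type*} [Finite V] [Nonempty V] {B : V → V → Prop} {n : ℕ}
    (h : Geo B (n ^ 2 + 2)) (t : V → V) (haut : ∀ x y, B x y → B (t x) (t y)) (hne : ∃ y, t y ≠ y) :
    Nat.card {y : V // t y = y} ≤ n ^ 2 + n + 2 := by
  classical
  have : Fintype V := Fintype.ofFinite V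
  let F : Finset V := Finset.univ.filter fun y => t y = y
  have hm : Nat.card {y : V // t y = y} = F.card := by
    rw [Nat.card_eq_fintype_card, Fintype.card_subtype]
  have hv : Nat.card V = Fintype.card V := Nat.card_eq_fintype_card
  have hk : ∀ z, (Finset.univ.filter fun y => B z y).card = n ^ 2 + 2 := by
    intro z
    rw [← Fintype.card_subtype, ← Nat.card_eq_fintype_card]
    exact h.card z
  have h2 : ∀ y, y ∉ F → (F.filter fun z => B z y).card ≤ 2 := by
    intro y hy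
    have hty : t y ≠ y := fun h' => hy (Finset.mem_filter.2 ⟨Finset.mem_univ _, h'⟩)
    rw [← h.two (t y) y hty, Nat.card_eq_fintype_card, Fintype.card_subtype]
    refine Finset.card_le_card fun z hz => ?_
    rw [Finset.mem_filter, Finset.mem_filter] at hz
    obtain ⟨⟨-, hz1⟩, hz2⟩ := hz
    rw [Finset.mem_filter]
    refine ⟨Finset.mem_univ _, ?_, hz2⟩
    have h3 := haut z y hz2
    rw [hz1] at h3
    exact h.symm _ _ h3
  have he : Nat.card {p : V × V // p.1 ∈ (F : Set V) ∧ p.2 ∈ (F : Set V) ∧ B p.1 p.2} =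
      ∑ y ∈ F, (F.filter fun z => B z y).card := by
    rw [Nat.card_eq_fintype_card, Fintype.card_subtype]
    have e1 : (Finset.univ.filter fun p : V × V => p.1 ∈ (F : Set V) ∧ p.2 ∈ (F : Set V) ∧ B p.1 p.2) =
        (F ×ˢ F).filter fun p => B p.1 p.2 := by
      ext p
      simp only [Finset.mem_filter, Finset.mem_univ, true_and, Finset.mem_product, Finset.mem_coe, and_assoc]
    rw [e1, Finset.card_filter, Finset.sum_product_right]
    refine Finset.sum_congr rfl fun y _ => ?_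
    rw [Finset.card_filter]
  have hcount : F.card * (n ^ 2 + 2) ≤ (∑ y ∈ F, (F.filter fun z => B z y).card) + 2 * (Fintype.card V - F.card) := by
    have e1 : F.card * (n ^ 2 + 2) = ∑ z ∈ F, (Finset.univ.filter fun y => B z y).card := by
      rw [Finset.sum_congr rfl (fun z _ => hk z), Finset.sum_const, smul_eq_mul]
    have e2 : ∑ z ∈ F, (Finset.univ.filter fun y => B z y).card = ∑ y, (F.filter fun z => B z y).card := by
      simp only [Finset.card_filter]
      exact Finset.sum_comm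
    have e3 : ∑ y, (F.filter fun z => B z y).card = ∑ y ∈ F, (F.filter fun z => B z y).card +
        ∑ y ∈ Fᶜ, (F.filter fun z => B z y).card := (Finset.sum_add_sum_compl F _).symm
    rw [e1, e2, e3]
    refine Nat.add_le_add_left ?_ _
    calc ∑ y ∈ Fᶜ, (F.filter fun z => B z y).card ≤ ∑ y ∈ Fᶜ, 2 :=
          Finset.sum_le_sum fun y hy => h2 y (Finset.mem_compl.1 hy)
      _ = 2 * (Fintype.card V - F.card) := by
          rw [Finset.sum_const, smul_eq_mul, Finset.card_compl, mul_comm]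
  have hlt : F.card < Fintype.card V := by
    obtain ⟨y, hy⟩ := hne
    rw [← Finset.card_univ]
    refine Finset.card_lt_card ⟨Finset.subset_univ _, fun h' => ?_⟩
    exact hy (Finset.mem_filter.1 (h' (Finset.mem_univ y))).2
  have hray := rayleigh h (F : Set V)
  rw [he, hv] at hray
  have hFc : Nat.card (F : Set V) = F.card := by
    rw [Nat.card_eq_fintype_card]
    exact Fintype.card_coe F
  rw [hFc] at hray
  have hv2 := h.two_mul_card'
  rw [hv] at hv2
  rw [hm]
  set m := F.card with hmd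
  set v := Fintype.card V with hvd
  set e := ∑ y ∈ F, (F.filter fun z => B z y).card with hed
  have hcount' : (m : ℝ) * ((n : ℝ) ^ 2 + 2) ≤ (e : ℝ) + 2 * ((v : ℝ) - m) := by
    have h3 : (m : ℝ) * ((n : ℝ) ^ 2 + 2) ≤ (e : ℝ) + 2 * (((v - m : ℕ)) : ℝ) := by exact_mod_cast hcount
    rwa [Nat.cast_sub hlt.le] at h3
  have hlt' : (m : ℝ) < v := by exact_mod_cast hlt
  have hv2' : 2 * (v : ℝ) = ((n : ℝ) ^ 2 + 2 - n) * ((n : ℝ) ^ 2 + 2 + n) := by
    have h3 : (2 * v : ℝ) = (n : ℝ) ^ 4 + 3 * (n : ℝ) ^ 2 + 4 := by exact_mod_cast hv2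
    rw [h3]
    ring
  have hvpos : (0 : ℝ) ≤ v := Nat.cast_nonneg _
  have h5 : ((v : ℝ) - m) * ((m : ℝ) * ((n : ℝ) ^ 2 + 2 - n)) ≤ ((v : ℝ) - m) * (2 * v) := by
    have h6 := mul_le_mul_of_nonneg_left hcount' hvpos
    nlinarith [h6, hray]
  have h7 : (m : ℝ) * ((n : ℝ) ^ 2 + 2 - n) ≤ 2 * v := le_of_mul_le_mul_left h5 (sub_pos.2 hlt')
  rw [hv2', mul_comm] at h7
  have hpos : (0 : ℝ) < (n : ℝ) ^ 2 + 2 - n := by nlinarith [sq_nonneg ((n : ℝ) - 1)]
  have h8 := le_of_mul_le_mul_left h7 hpos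
  have h9 : (m : ℝ) ≤ ((n ^ 2 + n + 2 : ℕ) : ℝ) := by
    push_cast
    linarith
  exact_mod_cast h9

end SRT
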