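import Pool.Agent.SRT.B4
import Pool.Agent.SRT.C1
import Pool.Agent.SRT.C2b

set_option autoImplicit false

namespace SRT

variable {G V : Type*} [Group G] [Finite G] [MulAction G V] [Finite V] [Nonempty V]
  {B : V → V → Prop} {n : ℕ}

/-- a nontrivial `2`-element that fixes `x` fixes at most `n + 2` closed neighbours of `x`.
PROOF. Some power `t` of `g` has order `2` (`orderOf g = 2 ^ c`, `c ≥ 1`, `t = g ^ (2^(c-1))`), and
the fixed points of `g` are fixed by `t`.  So we may replace `g` by `t`.  By `card_fix_involution` and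
`card_fix_le` (with `f` = number of fixed points `≠ x` of `t` in the closed neighbourhood),
`f² + n² + 3 = 2 |Fix t| ≤ 2 n² + 2 n + 4`, so `f² ≤ (n+1)²`, `f ≤ n + 1`; and `x` itself is fixed. -/
theorem Sit.card_fix_nbhd_le (S : Sit G V B n) (g : G) (hg : g ≠ 1) (c : ℕ) (hc : g ^ (2 ^ c) = 1)
    (x : V) (hx : g • x = x) :
    Nat.card {y : V // B x y ∧ g • y = y} ≤ n + 2 := by
  classical
  have hex : ∃ k, g ^ (2 ^ k) = 1 := ⟨c, hc⟩
  have hk0 : Nat.find hex ≠ 0 := by
    intro h0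
    have h1 := Nat.find_spec hex
    rw [h0, pow_zero, pow_one] at h1
    exact hg h1
  obtain ⟨k, hk⟩ := Nat.exists_eq_succ_of_ne_zero hk0
  set t := g ^ (2 ^ k) with ht
  have ht1 : t ≠ 1 := by
    intro h1
    exact Nat.find_min hex (by rw [hk]; exact Nat.lt_succ_self k) h1
  have ht2 : t * t = 1 := by
    have h1 := Nat.find_spec hex
    rw [hk] at h1
    rw [ht, ← pow_add, ← h1]
    congr 1
    rw [Nat.succ_eq_add_one, pow_succ]
    ring
  have hfix : ∀ y : V, g • y = y → t • y = y := by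
    intro y hy
    have h1 : ∀ m : ℕ, g ^ m • y = y := by
      intro m
      induction m with
      | zero => rw [pow_zero, one_smul]
      | succ m ih => rw [pow_succ, mul_smul, hy, ih]
    exact h1 _
  have hne : ∃ y : V, t • y ≠ y := by
    by_contra hcon
    exact ht1 (S.faithful t fun y => by
      by_contra h1
      exact hcon ⟨y, h1⟩)
  have h1 := card_fix_le S.geo (fun y => t • y) (fun a b hab => S.aut t a b hab) hne
  have h2 := card_fix_involution S.geo (fun y => t • y) (fun y => by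
    rw [smul_smul, ht2, one_smul]) (fun a b hab => S.aut t a b hab) x (hfix x hx)
  have h3 : Nat.card {y : V // B x y ∧ g • y = y} ≤ Nat.card {y : V // y ≠ x ∧ B x y ∧ t • y = y} + 1 := by
    have : Fintype V := Fintype.ofFinite V
    rw [Nat.card_eq_fintype_card, Nat.card_eq_fintype_card, Fintype.card_subtype, Fintype.card_subtype]
    refine (Finset.card_le_card (t := insert x (Finset.univ.filter fun y => y ≠ x ∧ B x y ∧ t • y = y)) fun y hy => ?_).trans
      (Finset.card_insert_le _ _)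
    rw [Finset.mem_filter] at hy
    rw [Finset.mem_insert, Finset.mem_filter]
    by_cases hyx : y = x
    · exact Or.inl hyx
    · exact Or.inr ⟨Finset.mem_univ _, hyx, hy.2.1, hfix y hy.2.2⟩
  set f := Nat.card {y : V // y ≠ x ∧ B x y ∧ t • y = y} with hf
  have h4 : f ^ 2 ≤ (n + 1) ^ 2 := by nlinarith
  have h5 : f ≤ n + 1 := by
    by_contra hcon
    have : n + 2 ≤ f := by omega
    nlinarith
  omega

/-- PROOF. `∑_{g ∈ Q} |Fix g| = v h` (`Sit.sum_fixed`), the term `g = 1` is `v`, the others are at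
most `n²+n+2` (`card_fix_le`, `Sit.faithful`): `v (h - 1) ≤ (|Q| - 1)(n²+n+2)`, `|Q| = 2^a h`,
`2 v = (n²+n+2)(n²-n+2)`; divide by `n²+n+2`. -/
theorem Sit.ineq1 (S : Sit G V B n) (hn : 1 ≤ n) (Q : Subgroup G) (a h : ℕ)
    (hh : ∀ x : V, Nat.card ↥(Q ⊓ MulAction.stabilizer G x) = h)
    (hQ : Nat.card Q = 2 ^ a * h) :
    ((h : ℤ) - 1) * ((n : ℤ) ^ 2 - n + 2) ≤ 2 * (2 ^ a * (h : ℤ) - 1) := by
  classical
  have : Fintype Q := Fintype.ofFinite Q
  have h1 := S.sum_fixed Q h hh
  have h2 : ∑ g : Q, Nat.card {x : V // (g : G) • x = x} ≤ Nat.card V + (Nat.card Q - 1) * (n ^ 2 + n + 2) := by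
    rw [← Finset.add_sum_erase Finset.univ _ (Finset.mem_univ (1 : Q))]
    refine Nat.add_le_add ?_ ?_
    · refine le_of_eq ?_
      have e1 : ∀ x : V, ((1 : Q) : G) • x = x := fun x => by rw [OneMemClass.coe_one, one_smul]
      exact Nat.card_congr (Equiv.subtypeUnivEquiv e1)
    · have e1 : (Finset.univ.erase (1 : Q)).card = Nat.card Q - 1 := by
        rw [Finset.card_erase_of_mem (Finset.mem_univ _), Finset.card_univ, Nat.card_eq_fintype_card]
      rw [← e1, ← smul_eq_mul, ← Finset.sum_const]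
      refine Finset.sum_le_sum fun g hg => ?_
      refine card_fix_le S.geo (fun y => (g : G) • y) (fun a b hab => S.aut (g : G) a b hab) ?_
      by_contra hcon
      refine Finset.ne_of_mem_erase hg (Subtype.ext (S.faithful (g : G) fun y => ?_))
      by_contra h3
      exact hcon ⟨y, h3⟩
  rw [h1, hQ] at h2
  have hv := S.geo.two_mul_card'
  have hQ0 : 0 < 2 ^ a * h := by
    rw [← hQ]
    exact Nat.card_pos
  have h3 : (Nat.card V : ℤ) * h ≤ Nat.card V + (2 ^ a * (h : ℤ) - 1) * ((n : ℤ) ^ 2 + n + 2) := by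
    have h4 : ((Nat.card V * h : ℕ) : ℤ) ≤ ((Nat.card V + (2 ^ a * h - 1) * (n ^ 2 + n + 2) : ℕ) : ℤ) := by exact_mod_cast h2
    rw [Nat.cast_add, Nat.cast_mul, Nat.cast_mul, Nat.cast_sub hQ0] at h4
    push_cast at h4
    exact h4
  have hv' : 2 * (Nat.card V : ℤ) = ((n : ℤ) ^ 2 + n + 2) * ((n : ℤ) ^ 2 - n + 2) := by
    have h4 : 2 * (Nat.card V : ℤ) = (n : ℤ) ^ 4 + 3 * (n : ℤ) ^ 2 + 4 := by exact_mod_cast hv
    rw [h4]
    ring
  have hpos : (0 : ℤ) < (n : ℤ) ^ 2 + n + 2 := by positivity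
  refine le_of_mul_le_mul_left ?_ hpos
  nlinarith [h3, hv']

end SRT
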