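import Pool.Agent.SRT.C3

set_option autoImplicit false

namespace SRT

variable {G V : Type*} [Group G] [Finite G] [MulAction G V] [Finite V] [Nonempty V]
  {B : V → V → Prop} {n : ℕ}

/-- PROOF. Count the triples... : the pairs `(y, z)` with `B x y`, `B x z`, `z = q y` for some
`q ∈ Q`.  For given `(y, z)` there are `|Q_y| = h` such `q`.  So `h` times the number of pairs is
`∑_{q ∈ Q} #{y : B x y ∧ B x (q y)}`, and `B x (q y) ↔ B (q⁻¹ x) y`, so the term is `n²+2` if
`q⁻¹ x = x` (`h` elements `q`) and `2` otherwise: the sum is `h (n²+2) + 2 (2^a h - h)`. -/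
theorem Sit.pairs (S : Sit G V B n) (Q : Subgroup G) (a h : ℕ) (x : V)
    (hh : ∀ x : V, Nat.card ↥(Q ⊓ MulAction.stabilizer G x) = h)
    (hQ : Nat.card Q = 2 ^ a * h) :
    Nat.card {p : V × V // B x p.1 ∧ B x p.2 ∧ ∃ q ∈ Q, p.2 = q • p.1} = n ^ 2 + 2 ^ (a + 1) := by
  classical
  have : Fintype V := Fintype.ofFinite V
  have : Fintype Q := Fintype.ofFinite Q
  have hpos : 0 < h := by
    rw [← hh x]
    exact Nat.card_pos
  -- number of `q` with `q y = z`
  have hfib : ∀ y z : V, (Finset.univ.filter fun q : Q => z = (q : G) • y).card = if ∃ q ∈ Q, z = q • y then h else 0 := by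
    intro y z
    by_cases hz : ∃ q ∈ Q, z = q • y
    · rw [if_pos hz]
      obtain ⟨q0, hq0, rfl⟩ := hz
      rw [← hh y, ← Fintype.card_subtype, ← Nat.card_eq_fintype_card]
      refine Nat.card_congr ⟨fun q => ⟨q0⁻¹ * (q.1 : G), ?_⟩, fun g => ⟨⟨q0 * (g : G), ?_⟩, ?_⟩, ?_, ?_⟩
      · rw [Subgroup.mem_inf]
        refine ⟨Q.mul_mem (Q.inv_mem hq0) q.1.2, ?_⟩
        rw [MulAction.mem_stabilizer_iff, mul_smul, ← q.2, inv_smul_smul]
      · exact Q.mul_mem hq0 (Subgroup.mem_inf.1 g.2).1
      · have h1 := (Subgroup.mem_inf.1 g.2).2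
        rw [MulAction.mem_stabilizer_iff] at h1
        change q0 • y = (q0 * (g : G)) • y
        rw [mul_smul, h1]
      · intro q
        refine Subtype.ext (Subtype.ext ?_)
        change q0 * (q0⁻¹ * (q.1 : G)) = q.1
        rw [mul_inv_cancel_left]
      · intro g
        refine Subtype.ext ?_
        change q0⁻¹ * (q0 * (g : G)) = g
        rw [inv_mul_cancel_left]
    · rw [if_neg hz, Finset.card_eq_zero, Finset.filter_eq_empty_iff]
      intro q _ hq
      exact hz ⟨q, q.2, hq⟩
  have hterm : ∀ q : Q, (Finset.univ.filter fun y : V => B x y ∧ B x ((q : G) • y)).card =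
      if (q : G) ∈ MulAction.stabilizer G x then n ^ 2 + 2 else 2 := by
    intro q
    have hiff : ∀ y, B x ((q : G) • y) ↔ B ((q : G)⁻¹ • x) y := by
      intro y
      constructor
      · intro h1
        have h2 := S.aut (q : G)⁻¹ _ _ h1
        rwa [inv_smul_smul] at h2
      · intro h1
        have h2 := S.aut (q : G) _ _ h1
        rwa [smul_inv_smul] at h2
    by_cases hq : (q : G) ∈ MulAction.stabilizer G x
    · rw [if_pos hq]
      rw [MulAction.mem_stabilizer_iff] at hq
      have hq' : (q : G)⁻¹ • x = x := by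
        conv_lhs => rw [← hq]
        rw [inv_smul_smul]
      rw [← S.geo.card x, Nat.card_eq_fintype_card, Fintype.card_subtype]
      congr 1
      ext y
      rw [Finset.mem_filter, Finset.mem_filter, hiff, hq', and_self]
    · rw [if_neg hq]
      have hq' : x ≠ (q : G)⁻¹ • x := by
        intro h1
        apply hq
        rw [MulAction.mem_stabilizer_iff]
        conv_lhs => rw [h1]
        rw [smul_inv_smul]
      rw [← S.geo.two x _ hq', Nat.card_eq_fintype_card, Fintype.card_subtype]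
      congr 1
      ext y
      rw [Finset.mem_filter, Finset.mem_filter, hiff]
      exact ⟨fun h1 => ⟨h1.1, h1.2.1, S.geo.symm _ _ h1.2.2⟩, fun h1 => ⟨h1.1, h1.2.1, S.geo.symm _ _ h1.2.2⟩⟩
  -- double count
  have hdc : h * Nat.card {p : V × V // B x p.1 ∧ B x p.2 ∧ ∃ q ∈ Q, p.2 = q • p.1} =
      ∑ q : Q, (Finset.univ.filter fun y : V => B x y ∧ B x ((q : G) • y)).card := by
    have e1 : h * Nat.card {p : V × V // B x p.1 ∧ B x p.2 ∧ ∃ q ∈ Q, p.2 = q • p.1} =
        ∑ p : V × V, ∑ q : Q, if (B x p.1 ∧ B x p.2) ∧ p.2 = (q : G) • p.1 then 1 else 0 := by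
      rw [Nat.card_eq_fintype_card, Fintype.card_subtype, Finset.card_filter, Finset.mul_sum]
      refine Finset.sum_congr rfl fun p _ => ?_
      by_cases hp : B x p.1 ∧ B x p.2
      · have h1 := hfib p.1 p.2
        rw [Finset.card_filter] at h1
        simp only [hp, true_and]
        rw [h1]
        split_ifs <;> simp
      · have e2 : ∀ q : Q, (if (B x p.1 ∧ B x p.2) ∧ p.2 = (q : G) • p.1 then 1 else 0) = 0 := by
          intro q
          rw [if_neg (fun h1 => hp h1.1)]
        rw [Finset.sum_congr rfl (fun q _ => e2 q), Finset.sum_const_zero, if_neg (fun h1 => hp ⟨h1.1, h1.2.1⟩), mul_zero]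
    rw [e1, Finset.sum_comm]
    refine Finset.sum_congr rfl fun q _ => ?_
    rw [Fintype.sum_prod_type, Finset.card_filter]
    refine Finset.sum_congr rfl fun y _ => ?_
    simp only
    rw [Finset.sum_eq_single ((q : G) • y)]
    · by_cases h1 : B x y ∧ B x ((q : G) • y)
      · rw [if_pos h1, if_pos ⟨h1, rfl⟩]
      · rw [if_neg h1, if_neg (fun h2 => h1 h2.1)]
    · intro z _ hz
      rw [if_neg (fun h2 => hz h2.2)]
    · intro h1
      exact absurd (Finset.mem_univ _) h1
  have hstab : (Finset.univ.filter fun q : Q => (q : G) ∈ MulAction.stabilizer G x).card = h := by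
    rw [← hh x, ← Fintype.card_subtype, ← Nat.card_eq_fintype_card]
    refine Nat.card_congr ⟨fun q => ⟨(q.1 : G), Subgroup.mem_inf.2 ⟨q.1.2, q.2⟩⟩,
      fun g => ⟨⟨g, (Subgroup.mem_inf.1 g.2).1⟩, (Subgroup.mem_inf.1 g.2).2⟩, fun q => rfl, fun g => rfl⟩
  have hsum : ∑ q : Q, (Finset.univ.filter fun y : V => B x y ∧ B x ((q : G) • y)).card =
      h * (n ^ 2 + 2) + (2 ^ a * h - h) * 2 := by
    rw [Finset.sum_congr rfl (fun q _ => hterm q), Finset.sum_ite, Finset.sum_const, Finset.sum_const, hstab, smul_eq_mul,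
      smul_eq_mul]
    congr 2
    have h1 := Finset.card_filter_add_card_filter_not (s := (Finset.univ : Finset Q)) (fun q : Q => (q : G) ∈ MulAction.stabilizer G x)
    rw [hstab, Finset.card_univ, ← Nat.card_eq_fintype_card, hQ] at h1
    omega
  rw [hsum] at hdc
  have h1 : h ≤ 2 ^ a * h := Nat.le_mul_of_pos_left h (Nat.two_pow_pos a)
  have h2 : h * (n ^ 2 + 2) + (2 ^ a * h - h) * 2 = h * (n ^ 2 + 2 ^ (a + 1)) := by
    obtain ⟨c, hc⟩ := Nat.exists_eq_add_of_le h1
    rw [hc, Nat.add_sub_cancel_left]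
    have h3 : 2 ^ (a + 1) * h = 2 * (h + c) := by rw [← hc]; ring
    nlinarith [h3]
  rw [h2] at hdc
  exact Nat.eq_of_mul_eq_mul_left hpos hdc

end SRT
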