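import Pool.Agent.SRT.Defs

set_option autoImplicit false

namespace SRT

/-- A map of odd order that preserves a two-element set fixes its elements.
PROOF. `S = {a, b}`; if `g a = b` then `g b = a` (injectivity on `S`), so `g^m a = b` for odd `m`
(`Function.iterate`, `m = 2 k + 1`), contradiction to `g^m a = a`. -/
theorem fix_of_two {V : Type*} (g : Equiv.Perm V) (m : ℕ) (hm : Odd m) (hg : g ^ m = 1)
    (p : V → Prop) (hp : Nat.card {y : V // p y} = 2) (hpg : ∀ y, p y → p (g y)) (y : V)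
    (hy : p y) : g y = y := by
  by_contra hne
  obtain ⟨a, b, hab, huniv⟩ := Nat.card_eq_two_iff.mp hp
  have hall : ∀ c : V, p c → c = a.1 ∨ c = b.1 := by
    intro c hc
    have h1 : (⟨c, hc⟩ : {y : V // p y}) ∈ ({a, b} : Set {y : V // p y}) := by
      rw [huniv]; trivial
    rcases h1 with h1 | h1
    · left; exact congrArg Subtype.val h1
    · right
      exact congrArg Subtype.val h1
  have h3 : ∀ c : V, p c → c = y ∨ c = g y := by
    intro c hc
    rcases hall c hc with h1 | h1 <;> rcases hall y hy with h2 | h2 <;>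
      rcases hall (g y) (hpg y hy) with h4 | h4 <;>
      first
        | (left; rw [h1, h2]; done)
        | (right; rw [h1, h4]; done)
        | (exact absurd (h4.trans h2.symm) hne)
  have h5 : g (g y) = y := by
    rcases h3 (g (g y)) (hpg _ (hpg y hy)) with h6 | h6
    · exact h6
    · exact absurd (g.injective h6) hne
  obtain ⟨k, hk⟩ := hm
  have h7 : ∀ k : ℕ, (g ^ (2 * k)) y = y := by
    intro k
    induction k with
    | zero => rfl
    | succ k ih =>
      rw [show 2 * (k + 1) = 2 * k + 1 + 1 by ring, pow_succ, pow_succ, Equiv.Perm.mul_apply,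
        Equiv.Perm.mul_apply, h5, ih]
  have h8 : (g ^ m) y = g y := by
    rw [hk, pow_succ', Equiv.Perm.mul_apply, h7]
  rw [hg] at h8
  exact hne h8.symm

/-- The fixed points of a group `P` of odd order: again `refl`, `symm`, `two`; if moreover some set of
symmetries is transitive on them, the closed degree is constant.
PROOF. `d` = closed degree inside `Δ` of one point `x₀ : Δ`.  `card`: for `x : Δ` take `u ∈ N` with
`u x₀ = x`: `u` restricts to a bijection of `Δ` (`hN2`; `u` injective and `Δ` finite) that preserves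
`B` in both directions, so it maps `{y : Δ // B x₀ y}` onto `{y : Δ // B x y}`.
(`B (u x) (u y) → B x y`: use the inverse `u⁻¹ ∈ N`.)
`two`: for `x ≠ z` in `Δ` the set `{y : V // B x y ∧ B y z}` has two elements and is invariant under
each `g ∈ P`, so by `fix_of_two` its elements are fixed by `P`, i.e. in `Δ`. -/
theorem exists_geo_fix {V : Type*} [Finite V] {B : V → V → Prop} {d : ℕ} (h : Geo B d)
    (P N : Subgroup (Equiv.Perm V)) (hP : Odd (Nat.card P))
    (hPaut : ∀ g ∈ P, ∀ x y, B x y → B (g x) (g y))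
    (hNaut : ∀ g ∈ N, ∀ x y, B x y → B (g x) (g y))
    (hN2 : ∀ g ∈ N, ∀ x : V, (∀ u ∈ P, u x = x) → ∀ u ∈ P, u (g x) = g x)
    (htr : ∀ x y : V, (∀ u ∈ P, u x = x) → (∀ u ∈ P, u y = y) → ∃ g ∈ N, g x = y)
    (hne : ∃ x : V, ∀ u ∈ P, u x = x) :
    ∃ d' : ℕ, Geo (fun x y : {x : V // ∀ u ∈ P, u x = x} => B x.1 y.1) d' := by
  obtain ⟨x₀, hx₀⟩ := hne
  refine ⟨Nat.card {y : {x : V // ∀ u ∈ P, u x = x} // B x₀ y.1},
    ⟨fun x => h.refl x.1, fun x y hxy => h.symm _ _ hxy, ?_, ?_⟩⟩
  · rintro ⟨x, hx⟩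
    obtain ⟨g, hg, hgx⟩ := htr x₀ x hx₀ hx
    have hg' : g⁻¹ ∈ N := N.inv_mem hg
    have hgx' : g⁻¹ x = x₀ := by rw [← hgx]; simp
    refine Nat.card_congr ⟨fun y => ⟨⟨g⁻¹ y.1.1, hN2 g⁻¹ hg' _ y.1.2⟩, ?_⟩,
      fun y => ⟨⟨g y.1.1, hN2 g hg _ y.1.2⟩, ?_⟩, ?_, ?_⟩
    · have := hNaut g⁻¹ hg' _ _ y.2
      rw [hgx'] at this
      exact this
    · have := hNaut g hg _ _ y.2
      rw [hgx] at this
      exact this
    · intro y
      apply Subtype.ext
      apply Subtype.ext
      simp
    · intro y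
      apply Subtype.ext
      apply Subtype.ext
      simp
  · rintro ⟨x, hx⟩ ⟨z, hz⟩ hxz
    have hxz' : x ≠ z := fun hc => hxz (Subtype.ext hc)
    have h2 := h.two x z hxz'
    have hfix : ∀ y, B x y ∧ B y z → ∀ u ∈ P, u y = y := by
      intro y hy u hu
      refine fix_of_two u (Nat.card P) hP ?_ (fun y => B x y ∧ B y z) h2 ?_ y hy
      · have h3 : (⟨u, hu⟩ : P) ^ Nat.card P = 1 := pow_card_eq_one'
        exact congrArg Subtype.val h3
      · rintro w ⟨hw1, hw2⟩
        have e1 := hPaut u hu _ _ hw1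
        have e2 := hPaut u hu _ _ hw2
        rw [hx u hu] at e1
        rw [hz u hu] at e2
        exact ⟨e1, e2⟩
    rw [← h2]
    refine Nat.card_congr ⟨fun y => ⟨y.1.1, y.2⟩, fun y => ⟨⟨y.1, hfix y.1 y.2⟩, y.2⟩, ?_, ?_⟩
    · intro y
      rfl
    · intro y
      rfl

end SRT
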