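import Pool.Agent.SRT.A1b

set_option autoImplicit false

namespace SRT

/-- PROOF. `d' = 1`: `2 v' + 1 = 3` (`Geo.two_mul_card`), `v' = 1`.  `d' = 2`: `2 v' + 2 = 6`, `v' = 2`.
`d' ≥ 3`: `d' = m ^ 2 + 2` (`Geo.exists_sq`); `m = 0` is impossible; `m = 1`: `2 v' = 8`; `m = 2`:
`2 v' = 16 + 12 + 4 = 32` (`Geo.two_mul_card'`); in all these cases `v'` is a power of `2`, so it is not
divisible by the odd prime `p`.  So `m ≥ 3`. -/
theorem exists_n_of_dvd {V : Type*} [Finite V] [Nonempty V] {B : V → V → Prop} {d : ℕ}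
    (h : Geo B d) (p : ℕ) (hp : p.Prime) (hp2 : p ≠ 2) (hd : p ∣ Nat.card V) :
    ∃ m : ℕ, 3 ≤ m ∧ d = m ^ 2 + 2 := by
  have hpow : ∀ k : ℕ, ¬ p ∣ 2 ^ k := by
    intro k hk
    exact hp2 ((Nat.prime_dvd_prime_iff_eq hp Nat.prime_two).mp (hp.dvd_of_dvd_pow hk))
  have h1 := h.one_le
  have h2 := h.two_mul_card
  rcases Nat.lt_or_ge d 3 with hd3 | hd3
  · exfalso
    have hd : d = 1 ∨ d = 2 := by omega
    rcases hd with rfl | rfl
    · have h3 : Nat.card V = 2 ^ 0 := by omega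
      rw [h3] at hd
      exact hpow 0 hd
    · have h3 : Nat.card V = 2 ^ 1 := by omega
      rw [h3] at hd
      exact hpow 1 hd
  · obtain ⟨m, rfl⟩ := h.exists_sq hd3
    refine ⟨m, ?_, rfl⟩
    by_contra hm
    have hm3 : m = 0 ∨ m = 1 ∨ m = 2 := by omega
    have h4 := h.two_mul_card'
    rcases hm3 with rfl | rfl | rfl
    · omega
    · have h3 : Nat.card V = 2 ^ 2 := by omega
      rw [h3] at hd
      exact hpow 2 hd
    · have h3 : Nat.card V = 2 ^ 4 := by omega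
      rw [h3] at hd
      exact hpow 4 hd

/-- PROOF. `P` acts on `V` (a `p`-group), fixed points `Δ`:
`IsPGroup.card_modEq_card_fixedPoints`. -/
theorem card_fix_modEq {V : Type*} [Finite V] (P : Subgroup (Equiv.Perm V)) (p : ℕ)
    (hp : p.Prime) (hPp : IsPGroup p P) :
    Nat.card V ≡ Nat.card {x : V // ∀ u ∈ P, u x = x} [MOD p] := by
  have : Fact p.Prime := ⟨hp⟩
  have h1 := hPp.card_modEq_card_fixedPoints V
  have h2 : Nat.card (MulAction.fixedPoints P V) = Nat.card {x : V // ∀ u ∈ P, u x = x} := by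
    refine Nat.card_congr (Equiv.subtypeEquivRight fun x => ?_)
    constructor
    · intro hx u hu
      exact hx ⟨u, hu⟩
    · intro hx u
      exact hx u.1 u.2
  rw [h2] at h1
  exact h1

end SRT
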