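import Pool.Agent.SRT.Defs

set_option autoImplicit false

namespace SRT

open scoped Pointwise

theorem D2b_syl {M : Type*} [Group M] [Finite M] (p : ℕ) (H R : Subgroup M) (hR : R ≤ H)
    (hRp : IsPGroup p R)
    (hmax : ∀ R' : Subgroup M, R' ≤ H → IsPGroup p R' → Nat.card R' ≤ Nat.card R) :
    ∃ S : Sylow p H, (S : Subgroup H) = R.subgroupOf H := by
  refine ⟨⟨R.subgroupOf H, hRp.comap_subtype, ?_⟩, rfl⟩
  intro Q hQ hle
  have h1 : Nat.card (Q.map H.subtype) ≤ Nat.card R :=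
    hmax _ (Subgroup.map_subtype_le Q) (hQ.map _)
  have h2 : Nat.card (Q.map H.subtype) = Nat.card Q :=
    (Nat.card_congr (Q.equivMapOfInjective H.subtype H.subtype_injective).toEquiv).symm
  have h3 : Nat.card (R.subgroupOf H) = Nat.card R :=
    Nat.card_congr (Subgroup.subgroupOfEquivOfLe hR).toEquiv
  rw [h2, ← h3] at h1
  exact (Subgroup.eq_of_le_of_card_ge hle h1).symm

/-- The normaliser of a Sylow `p`-subgroup `P` of a point stabiliser is transitive on the fixed points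
of `P`.
PROOF. `y = g x` with `g ∈ G`.  `P` fixes `y`, so `g⁻¹ P g` fixes `x`: `P` and `g⁻¹ P g` are two
subgroups of `H = G_x` of order `|P|` = the `p`-part of `|H|` (`hsyl`), so they are Sylow and conjugate
in `H`: `h (g⁻¹ P g) h⁻¹ = P` for some `h ∈ H` (`MulAction.exists_smul_eq` for `Sylow p H`), and
`u = g h⁻¹` normalises `P` and maps `x` to `y`.
Statement in terms of elements of the group `G ≤ Equiv.Perm V`. -/
theorem exists_normalizing {V : Type*} [Finite V] (G P : Subgroup (Equiv.Perm V)) (p : ℕ)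
    (hp : p.Prime) (x : V) (hPG : P ≤ G) (hPx : ∀ u ∈ P, u x = x) (hPp : IsPGroup p P)
    (hmax : ∀ R : Subgroup (Equiv.Perm V), R ≤ G → (∀ u ∈ R, u x = x) → IsPGroup p R →
      Nat.card R ≤ Nat.card P)
    (htr : ∀ y z : V, ∃ g ∈ G, g y = z) (y : V) (hy : ∀ u ∈ P, u y = y) :
    ∃ g ∈ G, (∀ u : Equiv.Perm V, u ∈ P ↔ g * u * g⁻¹ ∈ P) ∧ g x = y := by
  have : Fact p.Prime := ⟨hp⟩
  obtain ⟨g, hg, hgx⟩ := htr x y
  set H : Subgroup (Equiv.Perm V) := G ⊓ MulAction.stabilizer (Equiv.Perm V) x with hH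
  have hmemH : ∀ u : Equiv.Perm V, u ∈ H ↔ u ∈ G ∧ u x = x := fun u => Iff.rfl
  have hPH : P ≤ H := fun u hu => (hmemH u).mpr ⟨hPG hu, hPx u hu⟩
  set Q : Subgroup (Equiv.Perm V) := P.comap (MulAut.conj g).toMonoidHom with hQ
  have hmemQ : ∀ w : Equiv.Perm V, w ∈ Q ↔ g * w * g⁻¹ ∈ P := fun w => Iff.rfl
  have hQH : Q ≤ H := by
    intro w hw
    rw [hmemQ] at hw
    refine (hmemH w).mpr ⟨?_, ?_⟩
    · have h1 := G.mul_mem (G.mul_mem (G.inv_mem hg) (hPG hw)) hg
      have h2 : g⁻¹ * (g * w * g⁻¹) * g = w := by group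
      rwa [h2] at h1
    · have h1 := hy _ hw
      rw [← hgx] at h1
      have hgi : g⁻¹ (g x) = x := by simp
      rw [Equiv.Perm.mul_apply, Equiv.Perm.mul_apply, hgi] at h1
      exact g.injective h1
  have hQp : IsPGroup p Q := hPp.comap_of_injective _ (MulAut.conj g).injective
  have hQc : Nat.card Q = Nat.card P := by
    have h1 : Q.map (MulAut.conj g).toMonoidHom = P :=
      Subgroup.map_comap_eq_self_of_surjective (MulAut.conj g).surjective P
    have h2 := Nat.card_congr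
      (Q.equivMapOfInjective (MulAut.conj g).toMonoidHom (MulAut.conj g).injective).toEquiv
    rw [h1] at h2
    exact h2
  have hmax' : ∀ R : Subgroup (Equiv.Perm V), R ≤ H → IsPGroup p R → Nat.card R ≤ Nat.card P :=
    fun R hR hRp => hmax R (hR.trans inf_le_left) (fun u hu => (hR hu).2) hRp
  obtain ⟨S, hS⟩ := D2b_syl p H P hPH hPp hmax'
  obtain ⟨T, hT⟩ := D2b_syl p H Q hQH hQp (by rw [hQc]; exact hmax')
  obtain ⟨h, hh⟩ := MulAction.exists_smul_eq H T S
  have key : ∀ w : H, (w : Equiv.Perm V) ∈ Q ↔ ((h * w * h⁻¹ : H) : Equiv.Perm V) ∈ P := by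
    intro w
    have h1 : w ∈ (T : Subgroup H) ↔ MulAut.conj h • w ∈ MulAut.conj h • (T : Subgroup H) :=
      Subgroup.smul_mem_pointwise_smul_iff.symm
    rw [← Sylow.coe_subgroup_smul, hh, hS, hT, Subgroup.mem_subgroupOf, Subgroup.mem_subgroupOf] at h1
    exact h1
  have hhG : (h : Equiv.Perm V) ∈ G := h.2.1
  have hhx : (h : Equiv.Perm V) x = x := h.2.2
  refine ⟨g * (h : Equiv.Perm V)⁻¹, G.mul_mem hg (G.inv_mem hhG), ?_, ?_⟩
  · intro u
    have e : g * (h : Equiv.Perm V)⁻¹ * u * (g * (h : Equiv.Perm V)⁻¹)⁻¹ =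
        g * ((h : Equiv.Perm V)⁻¹ * u * h) * g⁻¹ := by group
    rw [e, ← hmemQ]
    constructor
    · intro hu
      have hw : (h : Equiv.Perm V)⁻¹ * u * h ∈ H :=
        H.mul_mem (H.mul_mem (H.inv_mem h.2) (hPH hu)) h.2
      refine (key ⟨_, hw⟩).mpr ?_
      have e2 : ((h * ⟨_, hw⟩ * h⁻¹ : H) : Equiv.Perm V) = u := by
        push_cast
        group
      rw [e2]
      exact hu
    · intro hu
      have hw := hQH hu
      have h1 := (key ⟨_, hw⟩).mp hu
      have e2 : ((h * ⟨_, hw⟩ * h⁻¹ : H) : Equiv.Perm V) = u := by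
        push_cast
        group
      rwa [e2] at h1
  · have h1 : (h : Equiv.Perm V)⁻¹ x = x := by
      rw [Equiv.Perm.inv_eq_iff_eq]; exact hhx.symm
    rw [Equiv.Perm.mul_apply, h1, hgx]

end SRT
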