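import Pool.Agent.SRT.Defs

set_option autoImplicit false

namespace SRT

universe u

/-- the statement proved by induction on `|V|` -/
def NoSolv (N : ℕ) : Prop :=
  ∀ (V : Type u) [Finite V] [Nonempty V] (B : V → V → Prop) (n : ℕ), Nat.card V = N → 3 ≤ n →
    Geo B (n ^ 2 + 2) → ∀ G : Subgroup (Equiv.Perm V), Group.IsSolvable G →
      (∀ g ∈ G, ∀ x y, B x y → B (g x) (g y)) → (∀ x y : V, ∃ g ∈ G, g x = y) → False

/-- Restriction to an invariant subset: a solvable group `N` that preserves `Δ = {x // q x}`, acts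
transitively on it and preserves `B`, induces a solvable group of permutations of `Δ`.
PROOF. `φ : N →* Equiv.Perm Δ`, `φ g = g.subtypePerm _` (`Equiv.Perm.subtypePerm`); the image
`φ.range` is solvable (`solvable_of_surjective` for `φ.rangeRestrict`), transitive, preserves
`B`; apply `IH` to it. -/
theorem false_of_invariant (V : Type u) [Finite V] (B : V → V → Prop) (q : V → Prop) (m : ℕ)
    (hne : ∃ x, q x)
    (hm : 3 ≤ m) (hgeo : Geo (fun x y : {x : V // q x} => B x.1 y.1) (m ^ 2 + 2))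
    (IH : NoSolv.{u} (Nat.card {x : V // q x})) (N : Subgroup (Equiv.Perm V))
    (hs : Group.IsSolvable N)
    (hNaut : ∀ g ∈ N, ∀ x y, B x y → B (g x) (g y)) (hNq : ∀ g ∈ N, ∀ x, q x ↔ q (g x))
    (htr : ∀ x y : V, q x → q y → ∃ g ∈ N, g x = y) : False := by
  obtain ⟨x₀, hx₀⟩ := hne
  have hne' : Nonempty {x : V // q x} := ⟨⟨x₀, hx₀⟩⟩
  let φ : N →* Equiv.Perm {x : V // q x} :=
    { toFun := fun g => (g : Equiv.Perm V).subtypePerm (fun x => (hNq g.1 g.2 x).symm)
      map_one' := by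
        ext x
        rfl
      map_mul' := fun a b => by
        ext x
        rfl }
  have hφ : ∀ (g : N) (x : {x : V // q x}), ((φ g) x : V) = g.1 x.1 := fun g x => rfl
  have hsr : Group.IsSolvable φ.range :=
    Group.isSolvable_of_surjective (f := φ.rangeRestrict) φ.rangeRestrict_surjective
  refine IH {x : V // q x} (fun x y => B x.1 y.1) m rfl hm hgeo φ.range hsr ?_ ?_
  · rintro _ ⟨g, rfl⟩ x y hxy
    change B (φ g x).1 (φ g y).1
    rw [hφ, hφ]
    exact hNaut g.1 g.2 _ _ hxy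
  · rintro ⟨x, hx⟩ ⟨y, hy⟩
    obtain ⟨g, hg, hgx⟩ := htr x y hx hy
    exact ⟨φ ⟨g, hg⟩, ⟨⟨g, hg⟩, rfl⟩, Subtype.ext hgx⟩

end SRT
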