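import Pool.Agent.SRT.D1
import Pool.Agent.SRT.D2a
import Pool.Agent.SRT.D2b
import Pool.Agent.SRT.D3a

set_option autoImplicit false

namespace SRT

universe u

/-- the elements of `G` normalising `P` -/
def D3b_N {M : Type*} [Group M] (G P : Subgroup M) : Subgroup M where
  carrier := {g | g ∈ G ∧ ∀ u : M, u ∈ P ↔ g * u * g⁻¹ ∈ P}
  one_mem' := ⟨G.one_mem, fun u => by simp⟩
  mul_mem' := by
    rintro a b ⟨ha, ha'⟩ ⟨hb, hb'⟩
    refine ⟨G.mul_mem ha hb, fun u => ?_⟩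
    rw [hb' u, ha' (b * u * b⁻¹)]
    have e : a * (b * u * b⁻¹) * a⁻¹ = a * b * u * (a * b)⁻¹ := by group
    rw [e]
  inv_mem' := by
    rintro a ⟨ha, ha'⟩
    refine ⟨G.inv_mem ha, fun u => ?_⟩
    rw [ha' (a⁻¹ * u * a⁻¹⁻¹)]
    have e : a * (a⁻¹ * u * a⁻¹⁻¹) * a⁻¹ = u := by group
    rw [e]

/-- In the induction step the point stabilisers are `2`-groups.
PROOF. Suppose the stabiliser `H = {g ∈ G : g x = x}` is not a `2`-group: an odd prime `p` divides
its order (`IsPGroup.iff_card`-type argument), hence `p ∣ |G|` and `p ∣ |V|` (`hpi`).  Let `P` be a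
Sylow `p`-subgroup of `H` as a subgroup of `Equiv.Perm V` (`P ≠ ⊥`), `Δ` its set of fixed points,
`N` the subgroup of the `g ∈ G` with `g P g⁻¹ = P`.  `exists_normalizing`: `N` is transitive on `Δ`
(for `y, z ∈ Δ`: elements `x → y`, `x → z`); `exists_geo_fix` gives `d'`; `p ∣ |Δ|` by
`card_fix_modEq`, so `d' = m^2 + 2`, `m ≥ 3` (`exists_n_of_dvd`); `|Δ| < |V|` because `P ≠ ⊥`
moves some point; `N ≤ G` is solvable.  `IH` and `false_of_invariant` give `False`. -/
theorem stab_two_group (V : Type u) [Finite V] [Nonempty V] (B : V → V → Prop) (n : ℕ) (hn : 3 ≤ n)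
    (hgeo : Geo B (n ^ 2 + 2)) (IH : ∀ N < Nat.card V, NoSolv.{u} N) (G : Subgroup (Equiv.Perm V))
    (hs : Group.IsSolvable G) (haut : ∀ g ∈ G, ∀ x y, B x y → B (g x) (g y))
    (htr : ∀ x y : V, ∃ g ∈ G, g x = y)
    (hpi : ∀ p : ℕ, p.Prime → p ∣ Nat.card G → p ∣ Nat.card V) (x : V) :
    IsPGroup 2 (MulAction.stabilizer G x) := by
  by_contra hcon
  -- an odd prime dividing the order of the stabiliser
  obtain ⟨p, hp, hpd, hp2⟩ : ∃ p : ℕ, p.Prime ∧ p ∣ Nat.card (MulAction.stabilizer G x) ∧ p ≠ 2 := by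
    by_contra hno
    apply hcon
    refine IsPGroup.of_card (n := (Nat.card (MulAction.stabilizer G x)).primeFactorsList.length) ?_
    refine Nat.eq_prime_pow_of_unique_prime_dvd Nat.card_pos.ne' ?_
    intro q hq hqd
    by_contra hq2
    exact hno ⟨q, hq, hqd, hq2⟩
  have : Fact p.Prime := ⟨hp⟩
  have hpV : p ∣ Nat.card V :=
    hpi p hp (hpd.trans (Subgroup.card_subgroup_dvd_card (MulAction.stabilizer G x)))
  -- a maximal `p`-subgroup of the stabiliser
  obtain ⟨P, ⟨hPG, hPx, hPp⟩, hmax⟩ := Set.Finite.exists_maximalFor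
    (fun R : Subgroup (Equiv.Perm V) => Nat.card R)
    {R : Subgroup (Equiv.Perm V) | R ≤ G ∧ (∀ u ∈ R, u x = x) ∧ IsPGroup p R}
    (Set.toFinite _) ⟨⊥, bot_le, by
      intro u hu
      rw [Subgroup.mem_bot] at hu
      rw [hu]; rfl, IsPGroup.of_bot⟩
  have hmax' : ∀ R : Subgroup (Equiv.Perm V), R ≤ G → (∀ u ∈ R, u x = x) → IsPGroup p R →
      Nat.card R ≤ Nat.card P := by
    intro R h1 h2 h3
    rcases le_total (Nat.card R) (Nat.card P) with h | h
    · exact h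
    · exact hmax ⟨h1, h2, h3⟩ h
  -- `P ≠ ⊥`
  obtain ⟨w, hw⟩ := exists_prime_orderOf_dvd_card' (G := MulAction.stabilizer G x) p hpd
  have hPne : ∃ u ∈ P, u ≠ 1 := by
    by_contra hno
    push Not at hno
    have hPbot : P = ⊥ := (Subgroup.eq_bot_iff_forall P).mpr hno
    set w' : Equiv.Perm V := ((w : G) : Equiv.Perm V) with hw'
    have ho : orderOf w' = p := by
      rw [← hw, hw', Subgroup.orderOf_coe, Subgroup.orderOf_coe]
    have hwx : w' x = x := w.2
    have hcard : Nat.card (Subgroup.zpowers w') = p := by rw [Nat.card_zpowers, ho]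
    have h1 := hmax' (Subgroup.zpowers w')
      (by rw [Subgroup.zpowers_le]; exact (w : G).2)
      (by
        intro u hu
        have h2 : Subgroup.zpowers w' ≤ MulAction.stabilizer (Equiv.Perm V) x := by
          rw [Subgroup.zpowers_le]; exact hwx
        exact h2 hu)
      (IsPGroup.of_card (n := 1) (by rw [hcard, pow_one]))
    rw [hcard, hPbot, Subgroup.card_bot] at h1
    exact absurd hp.one_lt (by omega)
  have hPodd : Odd (Nat.card P) := by
    obtain ⟨k, hk⟩ := IsPGroup.iff_card.mp hPp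
    rw [hk]
    exact (hp.odd_of_ne_two hp2).pow
  set N := D3b_N G P with hN
  have hmemN : ∀ g : Equiv.Perm V, g ∈ N ↔ g ∈ G ∧ ∀ u : Equiv.Perm V, u ∈ P ↔ g * u * g⁻¹ ∈ P :=
    fun g => Iff.rfl
  have hN2 : ∀ g ∈ N, ∀ y : V, (∀ u ∈ P, u y = y) → ∀ u ∈ P, u (g y) = g y := by
    intro g hg y hy u hu
    have h1 : g⁻¹ * u * g ∈ P := by
      rw [((hmemN g).mp hg).2]
      have e : g * (g⁻¹ * u * g) * g⁻¹ = u := by group
      rw [e]; exact hu
    have h2 := hy _ h1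
    have h3 : g ((g⁻¹ * u * g) y) = u (g y) := by
      rw [← Equiv.Perm.mul_apply, ← Equiv.Perm.mul_apply]
      congr 1
      group
    rw [← h3, h2]
  have htrN : ∀ y z : V, (∀ u ∈ P, u y = y) → (∀ u ∈ P, u z = z) → ∃ g ∈ N, g y = z := by
    intro y z hy hz
    obtain ⟨a, haG, haP, hax⟩ := exists_normalizing G P p hp x hPG hPx hPp hmax' htr y hy
    obtain ⟨b, hbG, hbP, hbx⟩ := exists_normalizing G P p hp x hPG hPx hPp hmax' htr z hz
    refine ⟨b * a⁻¹, N.mul_mem ⟨hbG, hbP⟩ (N.inv_mem ⟨haG, haP⟩), ?_⟩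
    rw [← hax, ← hbx, Equiv.Perm.mul_apply]
    simp
  have hNaut : ∀ g ∈ N, ∀ y z, B y z → B (g y) (g z) := fun g hg => haut g hg.1
  obtain ⟨d', hd'⟩ := exists_geo_fix hgeo P N hPodd (fun g hg => haut g (hPG hg)) hNaut hN2 htrN
    ⟨x, hPx⟩
  have hmod := card_fix_modEq P p hp hPp
  have hpD : p ∣ Nat.card {x : V // ∀ u ∈ P, u x = x} :=
    (Nat.modEq_zero_iff_dvd.mp (hmod.symm.trans (Nat.modEq_zero_iff_dvd.mpr hpV)))
  have hneD : Nonempty {x : V // ∀ u ∈ P, u x = x} := ⟨⟨x, hPx⟩⟩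
  obtain ⟨m, hm, rfl⟩ := exists_n_of_dvd hd' p hp hp2 hpD
  have hlt : Nat.card {x : V // ∀ u ∈ P, u x = x} < Nat.card V := by
    obtain ⟨u, hu, hu1⟩ := hPne
    obtain ⟨y, hy⟩ : ∃ y, u y ≠ y := by
      by_contra hno
      push Not at hno
      exact hu1 (Equiv.Perm.ext hno)
    exact Finite.card_subtype_lt (x := y) (fun hcon => hy (hcon u hu))
  have hsN : Group.IsSolvable N :=
    Group.isSolvable_of_isSolvable_injective (f := Subgroup.inclusion (fun g hg => hg.1 : N ≤ G))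
      (Subgroup.inclusion_injective _)
  refine false_of_invariant V B (fun x => ∀ u ∈ P, u x = x) m ⟨x, hPx⟩ hm hd' (IH _ hlt) N hsN
    hNaut ?_ htrN
  intro g hg y
  constructor
  · exact hN2 g hg y
  · intro h1
    have h2 := hN2 g⁻¹ (N.inv_mem hg) (g y) h1
    have h3 : g⁻¹ (g y) = y := by simp
    rw [h3] at h2
    exact h2

end SRT
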