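import Mathlib
import Pool.Agent.SRC.A3

set_option autoImplicit false

namespace SRT

universe u

theorem D4a_aux (m : ℕ) (hm : 0 < m) : ∀ (n : ℕ) (G : Type u) [Group G] [Finite G],
    Nat.card G = n → Group.IsSolvable G →
    ∃ H : Subgroup G, (∀ p : ℕ, p.Prime → p ∣ Nat.card H → p ∣ m) ∧ Nat.Coprime H.index m := by
  intro n
  induction n using Nat.strong_induction_on with
  | _ n ih =>
    intro G _ _ hn hs
    by_cases htriv : (⊤ : Subgroup G) = ⊥
    · refine ⟨⊤, ?_, ?_⟩
      · intro q hq hqd
        rw [htriv, Subgroup.card_bot] at hqd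
        exact absurd (Nat.dvd_one.mp hqd) hq.one_lt.ne'
      · rw [Subgroup.index_top]
        exact Nat.coprime_one_left m
    · obtain ⟨p, hp, E, hEn, hE0, -, -, hEp⟩ :=
        SRC.exists_elementary_normal (⊤ : Subgroup G) inferInstance htriv
      have : Fact p.Prime := ⟨hp⟩
      have hEP : IsPGroup p E := fun x => ⟨1, by
        apply Subtype.ext
        rw [pow_one, Subgroup.coe_pow, Subgroup.coe_one]
        exact hEp x.1 x.2⟩
      obtain ⟨k, hk⟩ := IsPGroup.iff_card.mp hEP
      have hcE : 1 < Nat.card E := (Subgroup.one_lt_card_iff_ne_bot E).mpr hE0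
      have hcG : Nat.card G = Nat.card (G ⧸ E) * Nat.card E :=
        Subgroup.card_eq_card_quotient_mul_card_subgroup E
      have hcQ : 0 < Nat.card (G ⧸ E) := Nat.card_pos
      have hlt : Nat.card (G ⧸ E) < n := by
        rw [← hn, hcG]
        exact lt_mul_of_one_lt_right hcQ hcE
      obtain ⟨Hb, hb1, hb2⟩ := ih _ hlt (G ⧸ E) rfl inferInstance
      set H₁ := Hb.comap (QuotientGroup.mk' E) with hH₁
      have hidx : H₁.index = Hb.index :=
        Subgroup.index_comap_of_surjective Hb (QuotientGroup.mk'_surjective E)
      have hbc : Nat.card Hb * Hb.index = Nat.card (G ⧸ E) := Subgroup.card_mul_index Hb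
      have h1c : Nat.card H₁ * H₁.index = Nat.card G := Subgroup.card_mul_index H₁
      have hidx0 : 0 < Hb.index := Nat.pos_of_ne_zero Subgroup.index_ne_zero_of_finite
      have hcard1 : Nat.card H₁ = Nat.card Hb * Nat.card E := by
        rw [hidx, hcG, ← hbc] at h1c
        refine Nat.eq_of_mul_eq_mul_right hidx0 ?_
        rw [h1c]; ring
      by_cases hpm : p ∣ m
      · refine ⟨H₁, ?_, ?_⟩
        · intro q hq hqd
          rw [hcard1, hq.dvd_mul] at hqd
          rcases hqd with h | h
          · exact hb1 q hq h
          · rw [hk] at h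
            rw [(Nat.prime_dvd_prime_iff_eq hq hp).mp (hq.dvd_of_dvd_pow h)]
            exact hpm
        · rw [hidx]; exact hb2
      · have hEH : E ≤ H₁ := by
          intro x hx
          rw [hH₁, Subgroup.mem_comap, QuotientGroup.mk'_apply,
            (QuotientGroup.eq_one_iff x).mpr hx]
          exact Hb.one_mem
        set E' := E.subgroupOf H₁ with hE'
        have hcE' : Nat.card E' = Nat.card E :=
          Nat.card_congr (Subgroup.subgroupOfEquivOfLe hEH).toEquiv
        have hiE' : E'.index = Nat.card Hb := by
          have h := Subgroup.card_mul_index E'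
          rw [hcE', hcard1, mul_comm (Nat.card Hb)] at h
          exact Nat.eq_of_mul_eq_mul_left (by omega) h
        have hcop : Nat.Coprime (Nat.card E') E'.index := by
          rw [hcE', hiE', hk]
          refine Nat.Coprime.pow_left k ((Nat.Prime.coprime_iff_not_dvd hp).mpr fun hd => ?_)
          exact hpm (hb1 p hp hd)
        obtain ⟨K, hK⟩ := Subgroup.exists_right_complement'_of_coprime hcop
        have hcK : Nat.card K = Nat.card Hb := by
          have h := hK.card_mul_card
          rw [hcE', hcard1, mul_comm (Nat.card Hb)] at h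
          exact Nat.eq_of_mul_eq_mul_left (by omega) h
        have hcH : Nat.card (K.map H₁.subtype) = Nat.card Hb := by
          rw [← hcK]
          exact (Nat.card_congr (K.equivMapOfInjective H₁.subtype H₁.subtype_injective).toEquiv).symm
        refine ⟨K.map H₁.subtype, ?_, ?_⟩
        · rw [hcH]; exact hb1
        · have h := Subgroup.card_mul_index (K.map H₁.subtype)
          have h2 : (K.map H₁.subtype).index = Hb.index * Nat.card E := by
            rw [hcH, hcG, ← hbc, mul_assoc] at h
            exact Nat.eq_of_mul_eq_mul_left Nat.card_pos h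
          rw [h2, hk]
          exact Nat.Coprime.mul_left hb2
            (Nat.Coprime.pow_left k ((Nat.Prime.coprime_iff_not_dvd hp).mpr hpm))

/-- Hall subgroups of solvable groups (existence).  `π` = the set of prime divisors of `m`.
PROOF. Strong induction on `|G|`.  If `G` is trivial take `⊥`.  Otherwise `SRC.exists_elementary_normal`
(for `N = ⊤`) gives a prime `p` and a nontrivial normal subgroup `E` with `x ^ p = 1` for all
`x ∈ E` (so `|E|` is a power of `p`).  `G ⧸ E` is solvable and smaller; let `Hb` be a Hall subgroup of it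
and `H₁ = Hb.comap (mk' E)`: `|H₁| = |Hb| |E|`, `H₁.index = Hb.index` (`Subgroup.index_comap_of_surjective`).
If `p ∣ m`, take `H = H₁`.  If `¬ p ∣ m`: `E` is a normal subgroup of `H₁` (`E.subgroupOf H₁`) whose
order (a power of `p`) is prime to its index in `H₁` (which is `|Hb|`, all of whose prime divisors
divide `m`), so by Schur-Zassenhaus (`Subgroup.exists_right_complement'_of_coprime`) it has a
complement `K` in `H₁`, `|K| = |Hb|`; `H = K.map H₁.subtype`; `H.index = |E| * H₁.index` is
prime to `m`. -/
theorem exists_hall {G : Type*} [Group G] [Finite G] (hs : Group.IsSolvable G) (m : ℕ)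
    (hm : 0 < m) :
    ∃ H : Subgroup G, (∀ p : ℕ, p.Prime → p ∣ Nat.card H → p ∣ m) ∧ Nat.Coprime H.index m :=
  D4a_aux m hm _ G rfl hs

end SRT
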