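import Mathlib

set_option autoImplicit false

namespace SRT

/-- A Hall subgroup for the prime divisors of the number of points is transitive.
PROOF. Let `x : V`, `H' = H ⊓ stabilizer G x`.  The orbit of `x` under `H` has `|H| / |H'|` elements.
`|H'|` divides `|stabilizer G x| = |G| / |V|`, so `|V| |H'|` divides `|G| = |H| H.index`; the prime
divisors of `|V| |H'|` divide `|V|` (`h1`), so `|V| |H'|` is prime to `H.index` (`h2`) and it divides
`|H|`: the orbit has at least `|V|` elements, so it is everything. -/
theorem hall_trans {G V : Type*} [Group G] [Finite G] [MulAction G V] [Finite V]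
    (htr : ∀ x y : V, ∃ g : G, g • x = y) (H : Subgroup G)
    (h1 : ∀ p : ℕ, p.Prime → p ∣ Nat.card H → p ∣ Nat.card V)
    (h2 : Nat.Coprime H.index (Nat.card V)) (x y : V) : ∃ g ∈ H, g • x = y := by
  have hV : Nonempty V := ⟨x⟩
  have hpt : MulAction.IsPretransitive G V := ⟨htr⟩
  -- orbit of `x` under `H`
  have e1 : Nat.card (MulAction.orbit H x) * Nat.card (MulAction.stabilizer H x) = Nat.card H := by
    rw [← Nat.card_prod]
    exact Nat.card_congr (MulAction.orbitProdStabilizerEquivGroup H x)
  have e2 : Nat.card V * Nat.card (MulAction.stabilizer G x) = Nat.card G := by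
    have h3 : Nat.card (MulAction.orbit G x) = Nat.card V := by
      rw [MulAction.orbit_eq_univ]
      exact Nat.card_congr (Equiv.Set.univ V)
    rw [← h3, ← Nat.card_prod]
    exact Nat.card_congr (MulAction.orbitProdStabilizerEquivGroup G x)
  have e3 : Nat.card (MulAction.stabilizer H x) ∣ Nat.card (MulAction.stabilizer G x) := by
    let f : MulAction.stabilizer H x →* MulAction.stabilizer G x :=
      { toFun := fun h => ⟨(h : H), h.2⟩
        map_one' := rfl
        map_mul' := fun a b => rfl }
    refine Subgroup.card_dvd_of_injective f ?_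
    intro a b hab
    apply Subtype.ext
    apply Subtype.ext
    exact congrArg (fun z : MulAction.stabilizer G x => (z : G)) hab
  have e4 : Nat.card V * Nat.card (MulAction.stabilizer H x) ∣ Nat.card H * H.index := by
    rw [Subgroup.card_mul_index, ← e2]
    exact Nat.mul_dvd_mul_left _ e3
  have e5 : Nat.Coprime (Nat.card V * Nat.card (MulAction.stabilizer H x)) H.index := by
    refine Nat.Coprime.mul_left h2.symm ?_
    refine Nat.Coprime.symm (Nat.coprime_of_dvd fun q hq hq1 hq2 => ?_)
    have h3 : q ∣ Nat.card V := h1 q hq (hq2.trans ⟨_, by rw [mul_comm]; exact e1.symm⟩)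
    exact Nat.not_coprime_of_dvd_of_dvd hq.one_lt hq1 h3 h2
  have e6 : Nat.card V * Nat.card (MulAction.stabilizer H x) ∣ Nat.card H :=
    e5.dvd_of_dvd_mul_right e4
  have e7 : Nat.card V ≤ Nat.card (MulAction.orbit H x) := by
    have h3 := Nat.le_of_dvd Nat.card_pos e6
    rw [← e1] at h3
    exact Nat.le_of_mul_le_mul_right h3 Nat.card_pos
  have e8 : MulAction.orbit H x = Set.univ := by
    refine Set.eq_of_subset_of_ncard_le (Set.subset_univ _) ?_ (Set.toFinite _)
    rw [Set.ncard_univ]
    exact e7
  have e9 : y ∈ MulAction.orbit H x := by rw [e8]; trivial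
  obtain ⟨g, hg⟩ := e9
  exact ⟨g.1, g.2, hg⟩

end SRT
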