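import Pool.Agent.SRC.F1
import Pool.Agent.SRC.W3a
import Pool.Agent.SRC.W5
import Pool.Agent.SRC.W6

/-!
# MP_e446a9_co, SRT: no strongly regular graph with `λ = 0`, `μ = 2` and degree `k ≥ 10` has a solvable
vertex-transitive group of automorphisms.  Common definitions.

`B x y` means: `x = y` or `x` adjacent to `y` (closed adjacency).
-/

set_option autoImplicit false

namespace SRT

/-- `B` is the closed adjacency relation of a graph in which every closed neighbourhood has `d`
elements and any two distinct vertices have exactly two common closed neighbours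
(for `d = n ^ 2 + 2`: strongly regular, `λ = 0`, `μ = 2`, degree `n ^ 2 + 1`). -/
structure Geo {V : Type*} (B : V → V → Prop) (d : ℕ) : Prop where
  refl : ∀ x, B x x
  symm : ∀ x y, B x y → B y x
  card : ∀ x, Nat.card {y : V // B x y} = d
  two : ∀ x z, x ≠ z → Nat.card {y : V // B x y ∧ B y z} = 2

/-- the number of points moved into their closed neighbourhood by `g` -/
noncomputable def NN {G V : Type*} [Group G] [MulAction G V] (B : V → V → Prop) (g : G) : ℕ :=
  Nat.card {y : V // B y (g • y)}

/-- the action preserves `B` -/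
def Aut (G : Type*) {V : Type*} [Group G] [MulAction G V] (B : V → V → Prop) : Prop :=
  ∀ (g : G) (x y : V), B x y → B (g • x) (g • y)

/-- the situation of the main theorem after the reductions: faithful, transitive, automorphisms,
all point stabilisers are `2`-groups. -/
structure Sit (G V : Type*) [Group G] [MulAction G V] (B : V → V → Prop) (n : ℕ) : Prop where
  aut : Aut G B
  faithful : ∀ g : G, (∀ x : V, g • x = x) → g = 1
  trans : ∀ x y : V, ∃ g : G, g • x = y
  geo : Geo B (n ^ 2 + 2)
  stab : ∀ x : V, IsPGroup 2 (MulAction.stabilizer G x)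

/-- the number of walks `x = y₀, y₁, ..., y_L = z` with `B yᵢ yᵢ₊₁` -/
noncomputable def wk {V : Type*} [Fintype V] (B : V → V → Prop) : ℕ → V → V → ℕ
  | 0, x, z => open Classical in if x = z then 1 else 0
  | (L + 1), x, z => open Classical in ∑ y : V, if B x y then wk B L y z else 0

/-- twisted closed walks: `B yᵢ yᵢ₊₁` and `yᵢ₊L = g yᵢ` for all `i`. -/
def TS {G V : Type*} [Group G] [MulAction G V] (B : V → V → Prop) (g : G) (L : ℕ) : Type _ :=
  {y : ℕ → V // (∀ i, B (y i) (y (i + 1))) ∧ ∀ i, y (i + L) = g • y i}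

/-- information on the order of `G` and of the centralisers of its elements of odd prime order;
`v` = number of points. -/
structure Hyp (G : Type*) [Group G] (v P1 P2 : ℕ) : Prop where
  cG : ∃ e : ℕ, Nat.card G = 2 ^ e * v
  c1 : ∀ p : ℕ, p.Prime → p ≠ 2 → p ∣ P1 → ∀ x : G, orderOf x = p →
    ∀ m : ℕ, Odd m → m ∣ Nat.card (Subgroup.centralizer ({x} : Set G)) → m ∣ P1
  c2 : ∀ p : ℕ, p.Prime → p ≠ 2 → p ∣ P2 → ∀ x : G, orderOf x = p →
    ∀ m : ℕ, Odd m → m ∣ Nat.card (Subgroup.centralizer ({x} : Set G)) → m ∣ P2

end SRT
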