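import Pool.Agent.SRT.Defs

set_option autoImplicit false

namespace SRT

open SRC

variable {G : Type*} [Group G] [Finite G] {v : ℕ} {s : ℤ} {N1 N2 i j P1 P2 : ℕ}

omit [Finite G] in
/-- PROOF. `|H| = 2 ^ u * w` with `w` odd (`Nat.exists_eq_two_pow_mul_odd`), `w ∣ P2`, so `|H|` is
prime to `P1` (`Dat.coprime`, `Dat.odd1`).  `P1 ∣ |G| = |H| * H.index`. -/
theorem dvd_index (d : Dat v s N1 N2 i j P1 P2) (hG : ∃ e : ℕ, Nat.card G = 2 ^ e * v)
    (H : Subgroup G) (hH : ∀ m : ℕ, Odd m → m ∣ Nat.card H → m ∣ P2) : P1 ∣ H.index := by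
  obtain ⟨e, he⟩ := hG
  have h1 : P1 ∣ Nat.card G := by
    rw [he, d.card_eq]
    exact Dvd.dvd.mul_left (Dvd.dvd.mul_left (Dvd.intro _ rfl) _) _
  rw [← H.card_mul_index] at h1
  by_cases hH0 : Nat.card H = 0
  · have h2 : P2 = 0 := by
      by_contra hne
      have h3 := hH (2 * P2 + 1) ⟨P2, rfl⟩ (by rw [hH0]; exact dvd_zero _)
      have := Nat.le_of_dvd (Nat.pos_of_ne_zero hne) h3
      omega
    have h3 := d.odd2
    rw [h2] at h3
    exact absurd h3 (by decide)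
  · obtain ⟨u, w, hw, hw'⟩ := Nat.exists_eq_two_pow_mul_odd hH0
    have h2 : w ∣ P2 := hH w hw (by rw [hw']; exact Dvd.intro_left _ rfl)
    have h3 : Nat.Coprime P1 (Nat.card H) := by
      rw [hw']
      refine Nat.Coprime.mul_right ?_ (Nat.Coprime.coprime_dvd_right h2 d.coprime)
      exact Nat.Coprime.pow_right u (Nat.coprime_two_right.2 d.odd1)
    exact h3.dvd_of_dvd_mul_left h1

/-- PROOF. `u = w ^ (orderOf w / r)` has order `r`, `centralizer {w} ≤ centralizer {u}`; `Hyp.c2` for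
`u` (odd divisors of `|centralizer {w}|` divide `|centralizer {u}|`), `dvd_index`. -/
theorem dvd_index_centralizer (d : Dat v s N1 N2 i j P1 P2) (hyp : Hyp G v P1 P2) (r : ℕ)
    (hr : r.Prime) (hr2 : r ≠ 2) (hrP : r ∣ P2) (w : G) (hw : r ∣ orderOf w) :
    P1 ∣ (Subgroup.centralizer ({w} : Set G)).index := by
  refine dvd_index d hyp.cG _ fun m hm hmd => ?_
  have h1 : orderOf (w ^ (orderOf w / r)) = r := orderOf_pow_orderOf_div (orderOf_pos w).ne' hw
  refine hyp.c2 r hr hr2 hrP _ h1 m hm (hmd.trans (Subgroup.card_dvd_of_le ?_))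
  intro g hg
  rw [Subgroup.mem_centralizer_iff] at hg ⊢
  intro y hy
  rw [Set.mem_singleton_iff] at hy
  subst hy
  have h2 : Commute w g := hg w (Set.mem_singleton w)
  exact (h2.pow_left _).eq

/-- an odd prime divisor of `|G|` divides `P1` or `P2` -/
theorem prime_dvd_or (d : Dat v s N1 N2 i j P1 P2) (hyp : Hyp G v P1 P2) (p : ℕ) (hp : p.Prime)
    (hp2 : p ≠ 2) (h : p ∣ Nat.card G) : p ∣ P1 ∨ p ∣ P2 := by
  obtain ⟨e, he⟩ := hyp.cG
  rw [he] at h
  rcases (Nat.Prime.dvd_mul hp).1 h with h1 | h1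
  · exact absurd ((Nat.prime_dvd_prime_iff_eq hp Nat.prime_two).1 (hp.dvd_of_dvd_pow h1)) hp2
  · exact d.dvd_or hp hp2 h1

end SRT
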