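import Pool.Agent.SRT.E1a

set_option autoImplicit false

namespace SRT

open SRC

variable {G : Type*} [Group G] [Finite G] {v : ℕ} {s : ℤ} {N1 N2 i j P1 P2 : ℕ}

/-- PROOF. As `SRC.not_dvd_P2` (A5): `P1 ∣ |R| - |Q| = (p^k - 1) |Q|`, so `P1 ∣ p^k - 1`; `p^k ∣ |G|`,
so `p^k ∣ P2`, `p^k ≤ P2 < P1` (`Dat.lt`), contradiction. -/
theorem not_dvd_P2 (d : Dat v s N1 N2 i j P1 P2) (hyp : Hyp G v P1 P2) (Q R : Subgroup G)
    (hQ : Core Q) (p : ℕ) (hp : p.Prime) (hp2 : p ≠ 2) (hR : Elem Q R p) : ¬ p ∣ P2 := by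

  intro hpP
  have hfact2 : Fact (Nat.Prime 2) := ⟨Nat.prime_two⟩
  obtain ⟨k, hk1, hk⟩ := relIndex_eq_pow Q R p hp hQ.normal hR
  obtain ⟨a, ha⟩ := IsPGroup.iff_card.1 hQ.two
  have h1 : P1 ∣ Nat.card ((R : Set G) \ (Q : Set G) : Set G) := by
    refine class_count _ ?_ P1 ?_
    · rintro s ⟨hsR, hsQ⟩ g
      refine ⟨hR.normal.conj_mem s hsR g, fun h => hsQ ?_⟩
      have h2 := hQ.normal.conj_mem _ h g⁻¹
      have h3 : g⁻¹ * (g * s * g⁻¹) * g⁻¹⁻¹ = s := by group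
      rwa [h3] at h2
    · rintro s ⟨hsR, hsQ⟩
      exact dvd_index_centralizer d hyp p hp hp2 hpP s
        (dvd_orderOf_of_notMem Q p hp s hsQ (hR.pow_mem s hsR))
  have h2 : Nat.card ((R : Set G) \ (Q : Set G) : Set G) = (p ^ k - 1) * Nat.card Q := by
    have h3 : ((Q : Set G)) ⊆ (R : Set G) := hR.le
    have h4 : ((R : Set G) \ (Q : Set G)).ncard + (Q : Set G).ncard = (R : Set G).ncard :=
      Set.ncard_sdiff_add_ncard_of_subset h3 (Set.toFinite _)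
    have h5 : (R : Set G).ncard = Nat.card R := rfl
    have h6 : (Q : Set G).ncard = Nat.card Q := rfl
    rw [h5, h6, hk] at h4
    show ((R : Set G) \ (Q : Set G)).ncard = _
    rw [Nat.sub_mul, one_mul]
    omega
  rw [h2, ha] at h1
  have hodd : Nat.Coprime P1 (2 ^ a) := (Nat.Coprime.pow_left a
    ((Nat.coprime_two_left).2 d.odd1)).symm
  have h3 : P1 ∣ p ^ k - 1 := hodd.dvd_of_dvd_mul_right h1
  have hP2pos : 0 < P2 := d.odd2.pos
  have hpk : p ^ k ∣ P2 := by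
    have h4 : p ^ k ∣ Nat.card G := (Dvd.intro _ hk.symm).trans (Subgroup.card_subgroup_dvd_card R)
    obtain ⟨e, he⟩ := hyp.cG
    rw [he, d.card_eq] at h4
    have hc2 : ∀ m, Nat.Coprime (p ^ k) (2 ^ m) := fun m =>
      Nat.Coprime.pow _ _ ((Nat.coprime_primes hp Nat.prime_two).2 hp2)
    have hcP : Nat.Coprime (p ^ k) P1 := by
      refine Nat.Coprime.pow_left k ?_
      exact Nat.Coprime.coprime_dvd_left hpP d.coprime.symm
    exact hcP.dvd_of_dvd_mul_left ((hc2 _).dvd_of_dvd_mul_left ((hc2 _).dvd_of_dvd_mul_left h4))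
  have h5 : p ^ k ≤ P2 := Nat.le_of_dvd hP2pos hpk
  have h6 : 2 ≤ p ^ k := hp.two_le.trans (Nat.le_self_pow (by omega) p)
  have h7 : P1 ≤ p ^ k - 1 := Nat.le_of_dvd (by omega) h3
  have h8 := d.lt
  omega

/-- PROOF. `R` has an element of order `p` (`SRC.lift_order`); `prime_dvd_or`, `not_dvd_P2`. -/
theorem dvd_P1 (d : Dat v s N1 N2 i j P1 P2) (hyp : Hyp G v P1 P2) (Q R : Subgroup G)
    (hQ : Core Q) (p : ℕ) (hp : p.Prime) (hp2 : p ≠ 2) (hR : Elem Q R p) : p ∣ P1 := by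

  obtain ⟨x₀, hx₀R, hx₀Q⟩ := SetLike.not_le_iff_exists.1 hR.ne
  obtain ⟨hx, -⟩ := lift_order Q hQ.two p hp hp2 x₀ hx₀Q (hR.pow_mem x₀ hx₀R)
  have h1 : p ∣ Nat.card G := by
    rw [← hx]
    exact orderOf_dvd_natCard _
  rcases prime_dvd_or d hyp p hp hp2 h1 with h2 | h2
  · exact h2
  · exact absurd h2 (not_dvd_P2 d hyp Q R hQ p hp hp2 hR)

/-- PROOF. As `SRC.P1_dvd_card_K` (C2a) with `dvd_index_centralizer` above. -/
theorem P1_dvd_card_K (d : Dat v s N1 N2 i j P1 P2) (hyp : Hyp G v P1 P2) (K : Subgroup G)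
    (hKn : K.Normal) (hab : ∀ a b : G, a * b * a⁻¹ * b⁻¹ ∈ K) (r : ℕ) (hr : r.Prime) (hr2 : r ≠ 2)
    (hrP : r ∣ P2) (hrK : ¬ r ∣ Nat.card K) : P1 ∣ Nat.card K := by

  have hrG : r ∣ Nat.card G := by
    obtain ⟨e, he⟩ := hyp.cG
    rw [he, d.card_eq]
    exact Dvd.dvd.mul_left (Dvd.dvd.mul_left (Dvd.dvd.mul_left hrP _) _) _
  have hfact : Fact r.Prime := ⟨hr⟩
  obtain ⟨w, hw⟩ := exists_prime_orderOf_dvd_card' r hrG
  have hwK : w ∉ K := fun h => hrK (by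
    rw [← hw]
    exact Subgroup.orderOf_dvd_natCard K h)
  have hinv : ∀ s : G, w⁻¹ * s ∈ K → ∀ g : G, w⁻¹ * (g * s * g⁻¹) ∈ K := by
    intro s hs g
    have h1 := hab w⁻¹ g
    rw [inv_inv] at h1
    have h2 := K.mul_mem h1 (hKn.conj_mem _ hs g)
    have h3 : w⁻¹ * g * w * g⁻¹ * (g * (w⁻¹ * s) * g⁻¹) = w⁻¹ * (g * s * g⁻¹) := by group
    rwa [h3] at h2
  have hord : ∀ s : G, w⁻¹ * s ∈ K → r ∣ orderOf s := by
    intro s hs
    by_contra hne
    have hcop : Nat.Coprime r (orderOf s) := (Nat.Prime.coprime_iff_not_dvd hr).2 hne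
    have h1 : s ^ r ∈ K := by
      rw [← QuotientGroup.eq_one_iff, QuotientGroup.mk_pow]
      have h2 : (s : G ⧸ K) = (w : G ⧸ K) := (QuotientGroup.eq.2 hs).symm
      rw [h2, ← QuotientGroup.mk_pow, ← hw, pow_orderOf_eq_one, QuotientGroup.mk_one]
    have h2 : s ^ (orderOf s) ∈ K := by
      rw [pow_orderOf_eq_one]
      exact K.one_mem
    have h3 := mem_of_pow_mem_coprime K s r (orderOf s) hcop h1 h2
    have h4 : w⁻¹ ∈ K := by
      have h5 := K.mul_mem hs (K.inv_mem h3)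
      rwa [mul_inv_cancel_right] at h5
    exact hwK (by
      have h5 := K.inv_mem h4
      rwa [inv_inv] at h5)
  have h1 := class_count {s : G | w⁻¹ * s ∈ K} hinv P1
    (fun s hs => dvd_index_centralizer d hyp r hr hr2 hrP s (hord s hs))
  have h2 : Nat.card {s : G | w⁻¹ * s ∈ K} = Nat.card K := by
    refine Nat.card_congr
      { toFun := fun s => ⟨w⁻¹ * s.1, s.2⟩
        invFun := fun k => ⟨w * k.1, by
          show w⁻¹ * (w * k.1) ∈ K
          rw [inv_mul_cancel_left]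
          exact k.2⟩
        left_inv := fun s => Subtype.ext (mul_inv_cancel_left w s.1)
        right_inv := fun k => Subtype.ext (inv_mul_cancel_left w k.1) }
  rwa [h2] at h1

end SRT
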