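import Pool.Agent.SRT.Defs

set_option autoImplicit false

open scoped Pointwise

namespace SRT

open SRC

/-- A subgroup `C` normalised by `y` (`y ^ r = 1`, `r` prime to `|C|`) has a `y`-invariant Sylow
`2`-subgroup.
PROOF. See the first half of the proof of `SRC.two_part_fixed` (Pool/Agent/SRC/C2c.lean): the
automorphism `σ = conjOn C y` generates an `r`-group acting on `Sylow 2 C`, whose number divides
`|C|`, so is prime to `r`: there is a fixed point (`IsPGroup.nonempty_fixed_point_of_prime_not_dvd_card`). -/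
theorem exists_invariant_sylow {G : Type*} [Group G] [Finite G] (C : Subgroup G) (y : G) (r : ℕ)
    (hr : r.Prime) (hy : y ^ r = 1) (hn : ∀ c ∈ C, y * c * y⁻¹ ∈ C) (hrC : ¬ r ∣ Nat.card C) :
    ∃ S : Subgroup G, S ≤ C ∧ IsPGroup 2 S ∧ (∀ c ∈ S, y * c * y⁻¹ ∈ S) ∧
      ∀ a : ℕ, 2 ^ a ∣ Nat.card C → 2 ^ a ∣ Nat.card S := by
  classical
  have : Fact r.Prime := ⟨hr⟩
  have : Fact (Nat.Prime 2) := ⟨Nat.prime_two⟩
  have hn' := inv_conj_mem C y hn r hr.pos hy
  let σ : MulAut C := conjOn C y hn hn'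
  have hσ : σ ^ r = 1 := conjOn_pow_eq_one C y hn hn' r hy
  have hH : IsPGroup r (Subgroup.zpowers σ) := by
    rintro ⟨g, k, rfl⟩
    refine ⟨1, ?_⟩
    ext1
    rw [pow_one]
    change (σ ^ k) ^ r = 1
    rw [← zpow_natCast, ← zpow_mul, mul_comm, zpow_mul, zpow_natCast, hσ, one_zpow]
  have hcard : ¬ r ∣ Nat.card (Sylow 2 C) := by
    intro h
    have P : Sylow 2 C := default
    exact hrC ((h.trans P.card_dvd_index).trans (Subgroup.index_dvd_card _))
  obtain ⟨S, hS⟩ := hH.nonempty_fixed_point_of_prime_not_dvd_card (Sylow 2 C) hcard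
  have hS1 : σ • (S : Subgroup C) = (S : Subgroup C) := by
    have h1 := hS ⟨σ, Subgroup.mem_zpowers σ⟩
    have h2 : σ • S = S := h1
    rw [← Sylow.pointwise_smul_def, h2]
  have hcardS : Nat.card ((S : Subgroup C).map C.subtype) = Nat.card S :=
    Subgroup.card_map_of_injective C.subtype_injective
  refine ⟨(S : Subgroup C).map C.subtype, Subgroup.map_subtype_le _, S.isPGroup'.map _, ?_, ?_⟩
  · rintro _ ⟨s, hs, rfl⟩
    have h1 : σ • s ∈ σ • (S : Subgroup C) := Subgroup.smul_mem_pointwise_smul s σ _ hs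
    rw [hS1] at h1
    exact ⟨σ • s, h1, rfl⟩
  · intro a ha
    rw [hcardS]
    exact S.pow_dvd_card_of_pow_dvd_card ha

end SRT
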