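import Pool.Agent.SRT.E2a

set_option autoImplicit false

namespace SRT

theorem e2b_pow {G : Type*} [Group G] (S : Subgroup G) (y : G) (h : ∀ c ∈ S, y * c * y⁻¹ ∈ S) (n : ℕ) :
    ∀ c ∈ S, y ^ n * c * (y ^ n)⁻¹ ∈ S := by
  induction n with
  | zero => intro c hc; simpa using hc
  | succ n ih =>
    intro c hc
    have h1 := h _ (ih c hc)
    have h2 : y ^ (n + 1) * c * (y ^ (n + 1))⁻¹ = y * (y ^ n * c * (y ^ n)⁻¹) * y⁻¹ := by
      rw [pow_succ']
      group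
    rw [h2]
    exact h1

theorem e2b_norm {G : Type*} [Group G] (S : Subgroup G) (y : G) (r : ℕ) (hr : 1 ≤ r) (hy : y ^ r = 1)
    (h : ∀ c ∈ S, y * c * y⁻¹ ∈ S) : y ∈ Subgroup.normalizer (S : Set G) := by
  rw [Subgroup.mem_normalizer_iff]
  intro c
  refine ⟨h c, fun hc => ?_⟩
  have h1 := e2b_pow S y h (r - 1) _ hc
  have h2 : y ^ (r - 1) * (y * c * y⁻¹) * (y ^ (r - 1))⁻¹ = y ^ (r - 1 + 1) * c * (y ^ (r - 1 + 1))⁻¹ := by
    rw [pow_succ]
    group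
  rw [h2, Nat.sub_add_cancel hr, hy, one_mul, inv_one, mul_one] at h1
  exact h1

theorem e2b_sup {G : Type*} [Group G] (S T : Subgroup G) (y : G) (h : ∀ c ∈ S, y * c * y⁻¹ ∈ S)
    (h' : ∀ c ∈ T, y * c * y⁻¹ ∈ T) : ∀ c ∈ S ⊔ T, y * c * y⁻¹ ∈ S ⊔ T := by
  have h1 : S ⊔ T ≤ (S ⊔ T).comap (MulAut.conj y).toMonoidHom := by
    refine sup_le ?_ ?_
    · intro c hc
      exact Subgroup.mem_sup_left (h c hc)
    · intro c hc
      exact Subgroup.mem_sup_right (h' c hc)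
  intro c hc
  exact h1 hc

/-- Every `y`-invariant `2`-subgroup `D` of `C` lies in a `y`-invariant Sylow `2`-subgroup.
PROOF. Take `S` maximal among the `y`-invariant `2`-subgroups of `C` containing `D`
(`Set.Finite.exists_maximal`...).  Suppose the order of `S` is not the full `2`-part of `|C|`.
Let `N = C ⊓ normalizer S` (`y`-invariant because `y` normalises `C` and `S`).  Then
`2 ∣ (N : S)` (a `2`-subgroup that is not Sylow has even index in its normaliser: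
`Sylow.prime_dvd_card_quotient_normalizer`, applied to `S.subgroupOf C`, or
`Sylow.exists_subgroup_card_pow_succ`), so by `exists_invariant_sylow` for `N` there is a
`y`-invariant Sylow `2`-subgroup `S'` of `N`; `|S'| > |S|`, and `S ≤ S'` since `S` is a normal
`2`-subgroup of `N` (`S ⊔ S'` is a `2`-group of order `≥ |S'|`, so equal to `S'`; or replace `S'` by
`S ⊔ S'`).  This contradicts the maximality of `S`. -/
theorem exists_sylow_ge {G : Type*} [Group G] [Finite G] (C D : Subgroup G) (y : G) (r : ℕ)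
    (hr : r.Prime) (hy : y ^ r = 1) (hn : ∀ c ∈ C, y * c * y⁻¹ ∈ C) (hrC : ¬ r ∣ Nat.card C)
    (hDC : D ≤ C) (hD : IsPGroup 2 D) (hDn : ∀ c ∈ D, y * c * y⁻¹ ∈ D) :
    ∃ S : Subgroup G, D ≤ S ∧ S ≤ C ∧ IsPGroup 2 S ∧ (∀ c ∈ S, y * c * y⁻¹ ∈ S) ∧
      ∀ a : ℕ, 2 ^ a ∣ Nat.card C → 2 ^ a ∣ Nat.card S := by
  have : Fact (Nat.Prime 2) := ⟨Nat.prime_two⟩
  obtain ⟨S, ⟨hDS, hSC, hSp, hSn⟩, hmax⟩ := Set.exists_max_image
    {S : Subgroup G | D ≤ S ∧ S ≤ C ∧ IsPGroup 2 S ∧ ∀ c ∈ S, y * c * y⁻¹ ∈ S} (fun S => Nat.card S)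
    (Set.toFinite _) ⟨D, le_rfl, hDC, hD, hDn⟩
  refine ⟨S, hDS, hSC, hSp, hSn, ?_⟩
  intro a ha
  by_contra hcon
  obtain ⟨b, hb⟩ := IsPGroup.iff_card.1 hSp
  have hba : b < a := by
    by_contra h1
    rw [not_lt] at h1
    apply hcon
    rw [hb]
    exact pow_dvd_pow 2 h1
  have hb1 : 2 ^ (b + 1) ∣ Nat.card C := (pow_dvd_pow 2 hba).trans ha
  have hSc : Nat.card (S.subgroupOf C) = 2 ^ b := by
    rw [← hb]
    exact Nat.card_congr (Subgroup.subgroupOfEquivOfLe hSC).toEquiv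
  obtain ⟨K, hK, hSK⟩ := Sylow.exists_subgroup_card_pow_succ hb1 hSc
  obtain ⟨K', hK'⟩ : ∃ K' : Subgroup G, K' = K.map C.subtype := ⟨_, rfl⟩
  have hK'c : Nat.card K' = 2 ^ (b + 1) := by
    rw [hK', ← hK]
    exact (Nat.card_congr (K.equivMapOfInjective _ C.subtype_injective).toEquiv).symm
  have hK'C : K' ≤ C := by
    rw [hK']
    rintro _ ⟨k, -, rfl⟩
    exact k.2
  have hSK' : S ≤ K' := by
    intro x hx
    rw [hK']
    exact ⟨⟨x, hSC hx⟩, hSK (Subgroup.mem_subgroupOf.2 hx), rfl⟩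
  have hidx : (S.subgroupOf K').index = 2 := by
    have h1 := Subgroup.card_mul_index (S.subgroupOf K')
    have h2 : Nat.card (S.subgroupOf K') = 2 ^ b := by
      rw [← hb]
      exact Nat.card_congr (Subgroup.subgroupOfEquivOfLe hSK').toEquiv
    rw [h2, hK'c, pow_succ] at h1
    exact Nat.eq_of_mul_eq_mul_left (by positivity) h1
  have hnorm : K' ≤ Subgroup.normalizer (S : Set G) :=
    (Subgroup.normal_subgroupOf_iff_le_normalizer hSK').1 (Subgroup.normal_of_index_eq_two hidx)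
  obtain ⟨N, hN⟩ : ∃ N : Subgroup G, N = C ⊓ Subgroup.normalizer (S : Set G) := ⟨_, rfl⟩
  have hNC : N ≤ C := hN ▸ inf_le_left
  have hNS : N ≤ Subgroup.normalizer (S : Set G) := hN ▸ inf_le_right
  have hyS := e2b_norm S y r hr.one_lt.le hy hSn
  have hNn : ∀ c ∈ N, y * c * y⁻¹ ∈ N := by
    intro c hc
    rw [hN]
    exact ⟨hn c (hNC hc), Subgroup.mul_mem _ (Subgroup.mul_mem _ hyS (hNS hc)) (Subgroup.inv_mem _ hyS)⟩
  have hrN : ¬ r ∣ Nat.card N := fun h => hrC (h.trans (Subgroup.card_dvd_of_le hNC))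
  obtain ⟨T, hTN, hTp, hTn, hT⟩ := exists_invariant_sylow N y r hr hy hNn hrN
  have h2N : 2 ^ (b + 1) ∣ Nat.card N := by
    rw [← hK'c]
    exact Subgroup.card_dvd_of_le (hN ▸ le_inf hK'C hnorm)
  have h2T := hT (b + 1) h2N
  have hsup : IsPGroup 2 (S ⊔ T : Subgroup G) := IsPGroup.to_sup_of_normal_left' hSp hTp (hTN.trans hNS)
  have h3 := hmax (S ⊔ T) ⟨hDS.trans le_sup_left, sup_le hSC (hTN.trans hNC), hsup, e2b_sup S T y hSn hTn⟩
  have h4 : Nat.card T ≤ Nat.card (S ⊔ T : Subgroup G) := Nat.le_of_dvd Nat.card_pos (Subgroup.card_dvd_of_le le_sup_right)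
  have h5 : 2 ^ (b + 1) ≤ Nat.card T := Nat.le_of_dvd Nat.card_pos h2T
  have h6 : 2 ^ b < 2 ^ (b + 1) := Nat.pow_lt_pow_right (by norm_num) (Nat.lt_succ_self b)
  have h7 : Nat.card (S ⊔ T : Subgroup G) ≤ Nat.card S := h3
  omega

end SRT
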