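import Pool.Agent.SRT.E2b

set_option autoImplicit false

namespace SRT

/-- PROOF. `D = C ⊓ centralizer {y}` is a `2`-group by hypothesis; let `S ≥ D` be given by
`exists_sylow_ge`.  Then `S ⊓ centralizer {y} = D` (`S ≤ C`), so by
`SRC.card_inf_centralizer_modEq` (for `S` and for `C`): `|C| ≡ |D| ≡ |S| = 2 ^ e` modulo `r`
(`|S|` is a power of `2` dividing `|C| = 2^e P`, `P` odd, and divisible by `2^e`). -/
theorem card_modEq_two_part {G : Type*} [Group G] [Finite G] (C : Subgroup G) (y : G) (r : ℕ)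
    (hr : r.Prime) (hy : y ^ r = 1) (hn : ∀ c ∈ C, y * c * y⁻¹ ∈ C) (e P : ℕ) (hP : Odd P)
    (hC : Nat.card C = 2 ^ e * P) (hrC : ¬ r ∣ Nat.card C)
    (hD : IsPGroup 2 ↥(C ⊓ Subgroup.centralizer ({y} : Set G))) :
    2 ^ e * P ≡ 2 ^ e [MOD r] := by
  have hDn : ∀ c ∈ C ⊓ Subgroup.centralizer ({y} : Set G),
      y * c * y⁻¹ ∈ C ⊓ Subgroup.centralizer ({y} : Set G) := by
    intro c hc
    have h1 : y * c = c * y := by
      have := Subgroup.mem_centralizer_iff.mp hc.2 y rfl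
      exact this
    rw [h1, mul_inv_cancel_right]
    exact hc
  obtain ⟨S, hDS, hSC, hS2, hSn, hSa⟩ :=
    exists_sylow_ge C (C ⊓ Subgroup.centralizer ({y} : Set G)) y r hr hy hn hrC inf_le_left hD hDn
  have hinf : S ⊓ Subgroup.centralizer ({y} : Set G) =
      C ⊓ Subgroup.centralizer ({y} : Set G) :=
    le_antisymm (inf_le_inf_right _ hSC) (le_inf hDS inf_le_right)
  have e1 := SRC.card_inf_centralizer_modEq S y r hr hy hSn
  have e2 := SRC.card_inf_centralizer_modEq C y r hr hy hn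
  rw [hinf] at e1
  have h3 : Nat.card S = 2 ^ e := by
    have : Fact (Nat.Prime 2) := ⟨Nat.prime_two⟩
    obtain ⟨k, hk⟩ := IsPGroup.iff_card.mp hS2
    have ha : 2 ^ e ∣ Nat.card S := hSa e (by rw [hC]; exact Dvd.intro _ rfl)
    have hb : Nat.card S ∣ 2 ^ e * P := by
      rw [← hC]
      exact Subgroup.card_dvd_of_le hSC
    have hcop : Nat.Coprime (Nat.card S) P := by
      rw [hk]
      exact Nat.Coprime.pow_left _ (Nat.coprime_two_left.mpr hP)
    exact Nat.dvd_antisymm (hcop.dvd_of_dvd_mul_right hb) ha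
  rw [hC] at e2
  rw [h3] at e1
  exact e2.symm.trans e1

end SRT
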