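import Pool.Agent.SRT.E1b
import Pool.Agent.SRT.E2c

set_option autoImplicit false

namespace SRT

open SRC

/-- PROOF. `C = centralizer {x}`, normalised by `y`.  `|C| = 2 ^ e * P1`: write `|C| = 2^e w`, `w` odd
(`Nat.exists_eq_two_pow_mul_odd`), `w ∣ P1` (`Hyp.c1`) and `P1 ∣ |C|` so `P1 ∣ w`.  `r ∤ |C|`
(`r ∣ P2`, coprime to `P1`, odd).  `C ⊓ centralizer {y}` is a `2`-group: an odd divisor of its order
divides `P1` (`Hyp.c1`) and `P2` (`Hyp.c2` for `y`), so it is `1` (`Dat.coprime`).  By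
`card_modEq_two_part`: `r ∣ 2^e (P1 - 1)`, so `r ∣ P1 - 1`, contradiction to `Dat.arith6`. -/
theorem false_of_xy {G : Type*} [Group G] [Finite G] {v : ℕ} {s : ℤ} {N1 N2 i j P1 P2 : ℕ}
    (d : Dat v s N1 N2 i j P1 P2) (hyp : Hyp G v P1 P2) (p r : ℕ) (hp : p.Prime)
    (hp2 : p ≠ 2) (hpP : p ∣ P1) (hr : r.Prime) (hr2 : r ≠ 2) (hrP : r ∣ P2) (x y : G)
    (hx : orderOf x = p) (hy : orderOf y = r) (hxy : y * x * y⁻¹ ∈ Subgroup.zpowers x)
    (hP1 : P1 ∣ Nat.card (Subgroup.centralizer ({x} : Set G))) : False := by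
  classical
  set C := Subgroup.centralizer ({x} : Set G) with hC
  have hCpos : Nat.card C ≠ 0 := Nat.card_pos.ne'
  obtain ⟨e, w, hw, hcw⟩ := Nat.exists_eq_two_pow_mul_odd hCpos
  have hwP : w ∣ P1 := hyp.c1 p hp hp2 hpP x hx w hw (by rw [← hC, hcw]; exact dvd_mul_left _ _)
  have hPw : P1 ∣ w := by
    have h1 : P1 ∣ 2 ^ e * w := by rw [← hcw]; exact hP1
    have h2 : Nat.Coprime P1 (2 ^ e) := Nat.Coprime.pow_right _ (Nat.coprime_two_right.2 d.odd1)
    exact h2.dvd_of_dvd_mul_left h1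
  have hwP1 : w = P1 := Nat.dvd_antisymm hwP hPw
  rw [hwP1] at hcw
  have hrP1 : ¬ r ∣ P1 := fun hcon =>
    hr.one_lt.ne' (Nat.eq_one_of_dvd_coprimes d.coprime hcon hrP)
  have hrC : ¬ r ∣ Nat.card C := by
    rw [hcw]
    intro hcon
    rcases (Nat.Prime.dvd_mul hr).1 hcon with h | h
    · exact hr2 ((Nat.prime_dvd_prime_iff_eq hr Nat.prime_two).1 (hr.dvd_of_dvd_pow h))
    · exact hrP1 h
  have hyr : y ^ r = 1 := by rw [← hy]; exact pow_orderOf_eq_one y
  -- `y` normalises `C`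
  have hn : ∀ c ∈ C, y * c * y⁻¹ ∈ C := by
    intro c hc
    have hcx : c * x = x * c := (Subgroup.mem_centralizer_singleton_iff.1 hc)
    -- `y x y⁻¹` generates `zpowers x`
    obtain ⟨m, hm⟩ := Subgroup.mem_zpowers_iff.1 hxy
    have hgen : x ∈ Subgroup.zpowers (y * x * y⁻¹) := by
      have h1 : Subgroup.zpowers (y * x * y⁻¹) ≤ Subgroup.zpowers x := by
        rw [Subgroup.zpowers_le]; exact hxy
      have h2 : Nat.card (Subgroup.zpowers (y * x * y⁻¹)) = Nat.card (Subgroup.zpowers x) := by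
        rw [Nat.card_zpowers, Nat.card_zpowers]
        have : y * x * y⁻¹ = MulAut.conj y x := rfl
        rw [this]
        exact MulEquiv.orderOf_eq _ _
      have h3 := Subgroup.eq_of_le_of_card_ge h1 h2.ge
      rw [h3]
      exact Subgroup.mem_zpowers x
    obtain ⟨l, hl⟩ := Subgroup.mem_zpowers_iff.1 hgen
    rw [hC, Subgroup.mem_centralizer_singleton_iff]
    have h4 : Commute (y * c * y⁻¹) (y * x * y⁻¹) := by
      show y * c * y⁻¹ * (y * x * y⁻¹) = y * x * y⁻¹ * (y * c * y⁻¹)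
      have e1 : y * c * y⁻¹ * (y * x * y⁻¹) = y * (c * x) * y⁻¹ := by group
      have e2 : y * x * y⁻¹ * (y * c * y⁻¹) = y * (x * c) * y⁻¹ := by group
      rw [e1, e2, hcx]
    have h5 := h4.zpow_right l
    rw [hl] at h5
    exact h5
  have hD : IsPGroup 2 ↥(C ⊓ Subgroup.centralizer ({y} : Set G)) := by
    rw [IsPGroup.iff_card (p := 2)]
    have hpos : Nat.card ↥(C ⊓ Subgroup.centralizer ({y} : Set G)) ≠ 0 := Nat.card_pos.ne'
    obtain ⟨f, u, hu, hcu⟩ := Nat.exists_eq_two_pow_mul_odd hpos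
    have h1 : u ∣ P1 := by
      apply hyp.c1 p hp hp2 hpP x hx u hu
      exact (Dvd.intro_left _ hcu.symm).trans (Subgroup.card_dvd_of_le inf_le_left)
    have h2 : u ∣ P2 := by
      apply hyp.c2 r hr hr2 hrP y hy u hu
      exact (Dvd.intro_left _ hcu.symm).trans (Subgroup.card_dvd_of_le inf_le_right)
    have h3 : u = 1 := Nat.eq_one_of_dvd_coprimes d.coprime h1 h2
    exact ⟨f, by rw [hcu, h3, mul_one]⟩
  have hmod := card_modEq_two_part C y r hr hyr hn e P1 d.odd1 hcw hrC hD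
  refine d.arith6 hr hr2 hrP ?_
  have h1 : (r : ℤ) ∣ (2 : ℤ) ^ e * ((P1 : ℤ) - 1) := by
    have h2 := (Nat.modEq_iff_dvd.1 hmod.symm)
    push_cast at h2
    have e1 : (2 : ℤ) ^ e * ((P1 : ℤ) - 1) = 2 ^ e * (P1 : ℤ) - 2 ^ e := by ring
    rw [e1]
    exact h2
  have hcop : IsCoprime (r : ℤ) ((2 : ℤ) ^ e) := by
    apply IsCoprime.pow_right
    have : Nat.Coprime r 2 := (Nat.coprime_primes hr Nat.prime_two).2 hr2
    exact_mod_cast Nat.isCoprime_iff_coprime.2 this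
  exact hcop.dvd_of_dvd_mul_left h1

end SRT
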