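import Pool.Agent.SRT.E3a

set_option autoImplicit false

namespace SRT

open SRC

/-- The case `P2 > 1` (in the semiregular case: `hfix`).
PROOF. As the first half of `SRC.not_solvable_of_dat` (Pool/Agent/SRC/F1.lean).
`Q ≠ ⊤` (an odd prime divides `|G|`: `1 < P1`, `Dat.one_lt`); `SRC.exists_elem` gives `p`, `R`;
`p ∣ P1` (`dvd_P1`), `5 ≤ p` (`Dat.seven_le`); `SRC.card_R` (with `hfix`), `SRC.exists_K`.
Let `r` be a prime divisor of `P2` (odd, `7 ≤ r`).  `SRC.exists_xy` gives `x`, `y`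
(`p ≠ r` by `Dat.coprime`; `r ∣ |G|`; `p`, `r` do not divide the power of two `|Q|`).  `SRC.card_K` for
`x`: `|K| |Q ⊓ C(x)| = |Q| |C(x)|`; `r` does not divide `|C(x)|` (`Hyp.c1`: it would divide `P1`), so
`r ∤ |K|`; `P1_dvd_card_K`: `P1 ∣ |K|`, hence `P1 ∣ |Q| |C(x)|` and `P1 ∣ |C(x)|`
(`|Q|` is a power of `2`).  `false_of_xy`. -/
theorem case_P2_gt_one {G : Type*} [Group G] [Finite G] (hs : Group.IsSolvable G) {v : ℕ} {s : ℤ}
    {N1 N2 i j P1 P2 : ℕ} (d : Dat v s N1 N2 i j P1 P2) (hyp : Hyp G v P1 P2) (hP2 : 1 < P2)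
    (Q : Subgroup G) (hQ : Core Q) (hC : Subgroup.centralizer (Q : Set G) ≤ Q)
    (hfix : ∀ p : ℕ, p.Prime → p ≠ 2 → p ∣ P1 → ∀ z : G, orderOf z = p →
      Nat.card ↥(Q ⊓ Subgroup.centralizer ({z} : Set G)) ∣ 4) : False := by
  classical
  have hQn := hQ.normal
  obtain ⟨a, ha⟩ := (IsPGroup.iff_card (p := 2)).1 hQ.two
  obtain ⟨e, hG⟩ := hyp.cG
  have hcop2 : ∀ m : ℕ, Nat.Coprime P1 (2 ^ m) := fun m => by
    apply Nat.Coprime.pow_right
    exact Nat.coprime_two_right.2 d.odd1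
  have hP1G : P1 ∣ Nat.card G := by
    rw [hG, d.card_eq]
    exact Dvd.dvd.mul_left (Dvd.dvd.mul_left (dvd_mul_right _ _) _) _
  have hne : Q ≠ ⊤ := by
    intro htop
    have h1 : Nat.card G = 2 ^ a := by
      rw [← ha, htop]
      exact (Subgroup.card_top).symm
    have h2 : P1 ∣ 2 ^ a := by
      rw [← h1]
      exact hP1G
    have h3 := (hcop2 a).eq_one_of_dvd h2
    have := d.one_lt
    omega
  obtain ⟨p, R, hp, hp2, hR⟩ := exists_elem hs Q hQ hne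
  have hpP := dvd_P1 d hyp Q R hQ p hp hp2 hR
  have hp7 := d.seven_le hp hp2 (Or.inl hpP)
  have hcard := card_R Q R hQ hC p hp (by omega) (hfix p hp hp2 hpP) hR
  have hpQ := not_dvd_card_two_group Q hQ.two p hp hp2
  obtain ⟨K, hKn, hK, hab, hidx⟩ := exists_K Q R hQn p hp hR hcard
  obtain ⟨r, hr, hrP⟩ := Nat.exists_prime_and_dvd (show P2 ≠ 1 by omega)
  have hr2 : r ≠ 2 := by
    rintro rfl
    exact (Nat.not_even_iff_odd.2 d.odd2) (even_iff_two_dvd.2 hrP)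
  have hrQ := not_dvd_card_two_group Q hQ.two r hr hr2
  have hrP1 : ¬ r ∣ P1 := fun hcon =>
    hr.one_lt.ne' (Nat.eq_one_of_dvd_coprimes d.coprime hcon hrP)
  have hpr : p ≠ r := by
    rintro rfl
    exact hrP1 hpP
  have hrG : r ∣ Nat.card G := by
    rw [hG, d.card_eq]
    exact Dvd.dvd.mul_left (Dvd.dvd.mul_left (Dvd.dvd.mul_left hrP _) _) _
  obtain ⟨x, y, hxR, hx, hy, hxy⟩ := exists_xy Q R p r hp hr hpQ hrQ hpr hR.normal hcard hrG
  have hk := card_K Q R K hQn p hp hpQ hR hcard hK x hxR hx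
  have hrK : ¬ r ∣ Nat.card K := by
    intro hcon
    have h1 : r ∣ Nat.card Q * Nat.card (Subgroup.centralizer ({x} : Set G)) := by
      rw [← hk]
      exact Dvd.dvd.mul_right hcon _
    rcases (Nat.Prime.dvd_mul hr).1 h1 with h2 | h2
    · exact hrQ h2
    · exact hrP1 (hyp.c1 p hp hp2 hpP x hx r (hr.odd_of_ne_two hr2) h2)
  have hPK := P1_dvd_card_K d hyp K hKn hab r hr hr2 hrP hrK
  have hPC : P1 ∣ Nat.card (Subgroup.centralizer ({x} : Set G)) := by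
    have h1 : P1 ∣ Nat.card Q * Nat.card (Subgroup.centralizer ({x} : Set G)) := by
      rw [← hk]
      exact Dvd.dvd.mul_right hPK _
    rw [ha] at h1
    exact (hcop2 a).dvd_of_dvd_mul_left h1
  exact false_of_xy d hyp p r hp hp2 hpP hr hr2 hrP x y hx hy hxy hPC

end SRT
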