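import Mathlib

set_option autoImplicit false

namespace SRT

/-- coefficient of `ω` in `ω ^ m`, where `ω² = ω - 2` -/
def rb : ℕ → ℤ
  | 0 => 0
  | 1 => 1
  | (m + 2) => rb (m + 1) - 2 * rb m

/-- `rb m` is odd for `m ≥ 1` -/
theorem rb_odd (m : ℕ) : Odd (rb (m + 1)) := by
  induction m with
  | zero => exact odd_one
  | succ m ih =>
    have h : rb (m + 1 + 1) = rb (m + 1) - 2 * rb m := rfl
    rw [h]
    exact ih.sub_even ⟨rb m, by ring⟩

theorem F1a_even (m : ℕ) (hm : m ≠ 0) (ε : ℤ) : 2 ∣ ε * (rb (m + 1) - rb m) := by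
  obtain ⟨k, rfl⟩ := Nat.exists_eq_succ_of_ne_zero hm
  have h : Even (rb (k + 1 + 1) - rb (k + 1)) := (rb_odd (k + 1)).sub_odd (rb_odd k)
  exact (even_iff_two_dvd.1 h).mul_left ε

/-- The primitive elements `a + b ω` of norm `2 ^ m` are `± ω^m` and `± conj(ω)^m`
(`ω^m = (rb (m+1) - rb m) + rb m ω`, its conjugate is `rb (m+1) - rb m ω`).
PROOF. Induction on `m`.  `m = 0`: `(2a+b)² + 7 b² = 4`, so `b = 0`, `a = ± 1`.
Step (norm `2^(m+1)`, so `a (a+b)` is even).
*Case `a` even*: `b` is odd.  Let `d = -a/2`, `c = b - d` (`ω (c + d ω) = -2 d + (c+d) ω = a + b ω`).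
Then `c² + c d + 2 d² = 2^m`, and `(c, d)` is primitive (`c + d = b` odd).  By induction either
`(c, d) = ε (rb (m+1) - rb m, rb m)` and then `(a, b) = ε (-2 rb m, rb (m+1))
= ε (rb (m+2) - rb (m+1), rb (m+1))`, first form; or `(c, d) = ε (rb (m+1), - rb m)` and then
`b = ε (rb (m+1) - rb m)`, which is even if `m ≥ 1` (`rb_odd`), contradiction; if `m = 0` then
`(a, b) = ε (0, 1) = ε (rb 2 - rb 1, rb 1)`.
*Case `a` odd*: `a + b` is even, `b` odd.  Let `c = -b`, `d = (a+b)/2`
(`(1-ω)(c + d ω) = (c + 2 d) - c ω`), norm `2^m`, primitive (`c` odd).  By induction either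
`(c, d) = ε (rb (m+1), - rb m)` and then `b = - ε rb (m+1)`, `a = c + 2 d = ε (rb (m+1) - 2 rb m)
= ε rb (m+2)`: second form; or `c = ε (rb (m+1) - rb m)`, even if `m ≥ 1`, contradiction; if `m = 0`:
`c = ε`, `d = 0`, `(a, b) = (ε, -ε)`, second form. -/
theorem norm_form (m : ℕ) (a b : ℤ) (h : a ^ 2 + a * b + 2 * b ^ 2 = 2 ^ m)
    (hprim : ¬ (2 ∣ a ∧ 2 ∣ b)) :
    ∃ ε : ℤ, (ε = 1 ∨ ε = -1) ∧
      ((a = ε * (rb (m + 1) - rb m) ∧ b = ε * rb m) ∨ (a = ε * rb (m + 1) ∧ b = -(ε * rb m))) := by
  induction m generalizing a b with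
  | zero =>
    rw [pow_zero] at h
    have hb : b = 0 := by
      have h1 : (2 * a + b) ^ 2 + 7 * b ^ 2 = 4 := by linear_combination 4 * h
      have h2 : b ^ 2 < 1 := by nlinarith [sq_nonneg (2 * a + b)]
      have h3 : b ^ 2 = 0 := by nlinarith [sq_nonneg b]
      exact pow_eq_zero_iff (two_ne_zero) |>.1 h3
    subst hb
    have ha : a ^ 2 = 1 := by linear_combination h
    have ha' : a = 1 ∨ a = -1 := by
      have h4 : (a - 1) * (a + 1) = 0 := by linear_combination ha
      rcases mul_eq_zero.1 h4 with h5 | h5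
      · exact Or.inl (by linear_combination h5)
      · exact Or.inr (by linear_combination h5)
    exact ⟨a, ha', Or.inl ⟨by simp [rb], by simp [rb]⟩⟩
  | succ m ih =>
    have hrb : rb (m + 1 + 1) = rb (m + 1) - 2 * rb m := rfl
    rcases Int.even_or_odd' a with ⟨a', ha' | ha'⟩
    · -- `a` even
      obtain ⟨ε, hε, h1⟩ := ih (b + a') (-a') (by
        have h2 : 2 * ((b + a') ^ 2 + (b + a') * -a' + 2 * (-a') ^ 2) = 2 * 2 ^ m := by
          rw [ha'] at h
          linear_combination h
        exact mul_left_cancel₀ two_ne_zero h2) (by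
        rintro ⟨h2, h3⟩
        apply hprim
        refine ⟨⟨a', ha'⟩, ?_⟩
        have := dvd_add h2 h3
        rwa [show b + a' + -a' = b by ring] at this)
      rcases h1 with ⟨h1, h2⟩ | ⟨h1, h2⟩
      · refine ⟨ε, hε, Or.inl ⟨?_, ?_⟩⟩
        · rw [hrb]
          linear_combination ha' - 2 * h2
        · linear_combination h1 + h2
      · by_cases hm : m = 0
        · subst hm
          have e0 : rb 0 = 0 := rfl
          have e1 : rb (0 + 1) = 1 := rfl
          have e2 : rb (0 + 1 + 1) = 1 := rfl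
          rw [e0] at h2
          rw [e1] at h1
          refine ⟨ε, hε, Or.inl ⟨?_, ?_⟩⟩
          · rw [e1, e2]
            linear_combination ha' - 2 * h2
          · rw [e1]
            linear_combination h1 + h2
        · exfalso
          apply hprim
          refine ⟨⟨a', ha'⟩, ?_⟩
          have h3 : b = ε * (rb (m + 1) - rb m) := by linear_combination h1 + h2
          rw [h3]
          exact F1a_even m hm ε
    · -- `a` odd
      have hbodd : ¬ 2 ∣ b := by
        rintro ⟨b', hb'⟩
        have h2 : (2 : ℤ) ∣ 1 := by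
          refine ⟨2 ^ m - 2 * a' ^ 2 - 2 * a' - 2 * a' * b' - b' - 4 * b' ^ 2, ?_⟩
          rw [ha', hb'] at h
          linear_combination h
        norm_num at h2
      have hab : ∃ d, a + b = 2 * d := by
        rcases Int.even_or_odd' b with ⟨b', hb' | hb'⟩
        · exact absurd ⟨b', hb'⟩ hbodd
        · exact ⟨a' + b' + 1, by rw [ha', hb']; ring⟩
      obtain ⟨d, hd⟩ := hab
      have ha : a = 2 * d - b := by linear_combination hd
      obtain ⟨ε, hε, h1⟩ := ih (-b) d (by
        have h2 : 2 * ((-b) ^ 2 + (-b) * d + 2 * d ^ 2) = 2 * 2 ^ m := by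
          rw [ha] at h
          linear_combination h
        exact mul_left_cancel₀ two_ne_zero h2) (by
        rintro ⟨h2, -⟩
        exact hbodd ((dvd_neg).1 h2))
      rcases h1 with ⟨h1, h2⟩ | ⟨h1, h2⟩
      · by_cases hm : m = 0
        · subst hm
          have e0 : rb 0 = 0 := rfl
          have e1 : rb (0 + 1) = 1 := rfl
          have e2 : rb (0 + 1 + 1) = 1 := rfl
          rw [e0] at h2
          rw [e0, e1] at h1
          refine ⟨ε, hε, Or.inr ⟨?_, ?_⟩⟩
          · rw [e2]
            linear_combination ha + 2 * h2 + h1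
          · rw [e1]
            linear_combination -h1
        · exfalso
          apply hbodd
          rw [← dvd_neg, h1]
          exact F1a_even m hm ε
      · refine ⟨ε, hε, Or.inr ⟨?_, ?_⟩⟩
        · rw [hrb]
          linear_combination ha + 2 * h2 + h1
        · linear_combination -h1

end SRT
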