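import Pool.Agent.SRT.F1a

set_option autoImplicit false

namespace SRT

/-- PROOF. Induction (both statements together): `rb 3 = -1`, `rb 4 = -3`;
`(7, 5) ↦ 5 - 14 = -9 ≡ 7`, `(5, 7) ↦ 7 - 10 = -3 ≡ 5` modulo `8`. -/
theorem rb_mod_eight (k : ℕ) : rb (2 * k + 3) % 8 = 7 ∧ rb (2 * k + 4) % 8 = 5 := by
  induction k with
  | zero => decide
  | succ k ih =>
    have h1 : rb (2 * (k + 1) + 3) = rb (2 * k + 4) - 2 * rb (2 * k + 3) := rfl
    have h2 : rb (2 * (k + 1) + 4) = rb (2 * (k + 1) + 3) - 2 * rb (2 * k + 4) := rfl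
    omega

theorem F1b_period (m : ℕ) : rb (m + 21) % 7 = rb m % 7 ∧ rb (m + 22) % 7 = rb (m + 1) % 7 := by
  induction m with
  | zero => exact ⟨by simp [rb], by simp [rb]⟩
  | succ m ih =>
    have h1 : rb (m + 1 + 22) = rb (m + 22) - 2 * rb (m + 21) := rfl
    have h2 : rb (m + 1 + 1) = rb (m + 1) - 2 * rb m := rfl
    have h3 : rb (m + 1 + 21) = rb (m + 22) := rfl
    rw [h1, h2, h3]
    omega

theorem F1b_mod (m : ℕ) : rb m % 7 = rb (m % 21) % 7 := by
  induction m using Nat.strong_induction_on with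
  | _ m ih =>
    by_cases h : m < 21
    · rw [Nat.mod_eq_of_lt h]
    · obtain ⟨n, rfl⟩ : ∃ n, m = n + 21 := ⟨m - 21, by omega⟩
      rw [(F1b_period n).1, ih n (by omega), Nat.add_mod_right]

/-- PROOF. `rb (m + 21) ≡ rb m (mod 7)`: e.g. `rb (m + l) = rb l * rb (m+1) - 2 * rb (l-1) * rb m`, with
`l = 21` (induction), or two-step induction on `m` from the values `rb 21, rb 22`
(`decide`/`norm_num [rb]`).  So `rb m % 7` depends only on `m % 21`; the values `rb 0, …, rb 20` are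
`0, 1, 1, -1, -3, -1, 5, 7, -3, -17, -11, 23, 45, -1, -91, -89, 93, 271, 85, -457, -627`, and
`≡ -1 (mod 7)` exactly for `m % 21 = 3, 5, 13`. -/
theorem rb_mod_seven (m : ℕ) (h : rb m % 7 = 6) : m % 21 = 3 ∨ m % 21 = 5 ∨ m % 21 = 13 := by
  rw [F1b_mod] at h
  have h1 : m % 21 < 21 := Nat.mod_lt _ (by norm_num)
  revert h
  generalize m % 21 = t at h1 ⊢
  intro h
  interval_cases t <;> simp [rb] at h ⊢

/-- PROOF. `m ≤ 2`: clear.  `m ≥ 3`: by `rb_mod_eight`, `rb m ≡ 7` or `5` modulo `8`, so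
`rb m = -1`, and `rb m % 7 = 6`: `rb_mod_seven`. -/
theorem rb_eq_pm_one (m : ℕ) (h : rb m = 1 ∨ rb m = -1) :
    m = 1 ∨ m = 2 ∨ (rb m = -1 ∧ (m % 21 = 3 ∨ m % 21 = 5 ∨ m % 21 = 13)) := by
  by_cases h0 : m ≤ 2
  · interval_cases m
    · simp [rb] at h
    · exact Or.inl rfl
    · exact Or.inr (Or.inl rfl)
  · right
    right
    have h1 : rb m % 8 = 7 ∨ rb m % 8 = 5 := by
      rcases Nat.even_or_odd' m with ⟨k, hk | hk⟩
      · obtain ⟨k', rfl⟩ : ∃ k', k = k' + 2 := ⟨k - 2, by omega⟩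
        right
        have e : m = 2 * k' + 4 := by omega
        rw [e]
        exact (rb_mod_eight k').2
      · obtain ⟨k', rfl⟩ : ∃ k', k = k' + 1 := ⟨k - 1, by omega⟩
        left
        have e : m = 2 * k' + 3 := by omega
        rw [e]
        exact (rb_mod_eight k').1
    have h2 : rb m = -1 := by omega
    exact ⟨h2, rb_mod_seven m (by rw [h2]; rfl)⟩

end SRT
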