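import Pool.Agent.SRT.F1a

set_option autoImplicit false

namespace SRT

/-- PROOF. Binomial theorem, or induction on `u`. -/
theorem one_add_pow {R : Type*} [CommRing R] (x : R) (u : ℕ) :
    ∃ c : R, (1 + x) ^ u = 1 + u * x + x ^ 2 * c := by
  induction u with
  | zero => exact ⟨0, by simp⟩
  | succ u ih =>
    obtain ⟨c, hc⟩ := ih
    refine ⟨u + c + x * c, ?_⟩
    rw [pow_succ, hc]
    push_cast
    ring

theorem F1c_expand {R : Type*} [CommRing R] (w : R) (e : ℕ) :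
    ∃ y : R, (1 + 7 * w) ^ (7 ^ e) = 1 + 7 * (7 ^ e : R) * (w + 7 * y) := by
  induction e with
  | zero => exact ⟨0, by ring⟩
  | succ e ih =>
    obtain ⟨y, hy⟩ := ih
    generalize ht : (7 ^ e : R) = t at hy
    refine ⟨y + 3 * t * (w + 7 * y) ^ 2 + 35 * t ^ 2 * (w + 7 * y) ^ 3 +
      245 * t ^ 3 * (w + 7 * y) ^ 4 + 1029 * t ^ 4 * (w + 7 * y) ^ 5 +
      2401 * t ^ 5 * (w + 7 * y) ^ 6 + 2401 * t ^ 6 * (w + 7 * y) ^ 7, ?_⟩
    have e1 : (7 : ℕ) ^ (e + 1) = 7 ^ e * 7 := pow_succ 7 e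
    have e2 : (7 : R) ^ (e + 1) = t * 7 := by rw [pow_succ, ht]
    rw [e1, pow_mul, hy, e2]
    generalize hs : w + 7 * y = s
    have hw : w = s - 7 * y := by rw [← hs]; ring
    rw [hw]
    ring

/-- PROOF. Induction on `e`: `z^(7^(e+1)) = (1 + 7^(e+1) (w + 7 y))^7`, expand the seventh power
(`ring`): `= 1 + 7^(e+2) (w + 7 y) + 21 · 7^(2e+2) (w+7y)² + ...`, all further terms are divisible by
`7^(e+3)`.  Then `one_add_pow` for the exponent `u`: `(1 + x)^u` with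
`x = 7^(e+1) (w + 7 y)`, `x² = 7^(2e+2) (..)`. -/
theorem pow_expand {R : Type*} [CommRing R] (w : R) (e u : ℕ) :
    ∃ y : R, (1 + 7 * w) ^ (7 ^ e * u) = 1 + 7 ^ (e + 1) * (u * w) + 7 ^ (e + 2) * y := by
  obtain ⟨y, hy⟩ := F1c_expand w e
  obtain ⟨c, hc⟩ := one_add_pow (7 * (7 ^ e : R) * (w + 7 * y)) u
  refine ⟨u * y + 7 ^ e * (w + 7 * y) ^ 2 * c, ?_⟩
  rw [pow_mul, hy, hc]
  ring

/-- the ring `ℤ[ω]`, `ω² = -2 + ω` -/
abbrev O7 : Type := QuadraticAlgebra ℤ (-2) 1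

/-- `ω` -/
def om : O7 := ⟨0, 1⟩

theorem F1c_om_pow (m : ℕ) : om ^ m = (⟨rb (m + 1) - rb m, rb m⟩ : O7) := by
  induction m with
  | zero => rfl
  | succ m ih =>
    have h : rb (m + 1 + 1) = rb (m + 1) - 2 * rb m := rfl
    rw [pow_succ, ih, h]
    apply QuadraticAlgebra.ext
    · simp only [om, QuadraticAlgebra.re_mul]
      ring
    · simp only [om, QuadraticAlgebra.im_mul]
      ring

/-- PROOF. Two-step induction, `om * om = om - 2` (`QuadraticAlgebra.ext`). -/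
theorem im_om_pow (m : ℕ) : (om ^ m).im = rb m := by
  rw [F1c_om_pow]

/-- PROOF. `om ^ 21 = 1 + 7 * w` for an explicit `w` (`w.re ≡ 4`, `w.im ≡ 6` modulo `7`;
`om ^ m = ⟨rb (m+1) - rb m, rb m⟩`); write `k = 7 ^ e * u` with `7 ∤ u`
(`Nat.exists_eq_pow_mul_and_not_dvd`); by `pow_expand`
`om ^ (m₀ + 21 k) = om ^ m₀ (1 + 7^(e+1) u w + 7^(e+2) y)`, so
`rb (m₀ + 21 k) = rb m₀ + 7^(e+1) u (om ^ m₀ w).im + 7^(e+2) (...)`.
`(om ^ m₀ * w).im ≡ 6, 5, 3 (mod 7)` for `m₀ = 3, 5, 13`.  If the two sides of the claim were equal,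
`7` would divide `u (om ^ m₀ w).im`. -/
theorem rb_ne (m₀ k : ℕ) (hm : m₀ = 3 ∨ m₀ = 5 ∨ m₀ = 13) (hk : 1 ≤ k) :
    rb (m₀ + 21 * k) ≠ rb m₀ := by
  intro heq
  have hk0 : k ≠ 0 := by omega
  obtain ⟨e, u, hu, hku⟩ := Nat.exists_eq_pow_mul_and_not_dvd hk0 7 (by norm_num)
  let w : O7 := ⟨179, 41⟩
  have h21 : om ^ 21 = 1 + 7 * w := by
    rw [F1c_om_pow]
    apply QuadraticAlgebra.ext
    · simp [rb, w, QuadraticAlgebra.re_one, QuadraticAlgebra.re_ofNat, QuadraticAlgebra.im_ofNat]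
    · simp [rb, w, QuadraticAlgebra.im_one, QuadraticAlgebra.re_ofNat, QuadraticAlgebra.im_ofNat]
  obtain ⟨y, hy⟩ := pow_expand w e u
  have h1 : om ^ (m₀ + 21 * k) = om ^ m₀ +
      ((7 ^ (e + 1) : ℕ) : O7) * ((u : O7) * (om ^ m₀ * w) + 7 * (om ^ m₀ * y)) := by
    rw [pow_add, pow_mul, h21, hku, hy]
    push_cast
    ring
  have h2 := congrArg QuadraticAlgebra.im h1
  rw [im_om_pow, heq, QuadraticAlgebra.im_add, im_om_pow, QuadraticAlgebra.im_mul] at h2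
  have h3 : (((7 ^ (e + 1) : ℕ) : O7)).re = (7 ^ (e + 1) : ℤ) := by
    rw [QuadraticAlgebra.re_natCast]
    push_cast
    rfl
  have h4 : (((7 ^ (e + 1) : ℕ) : O7)).im = 0 := by
    rw [QuadraticAlgebra.im_natCast]
  rw [h3, h4] at h2
  have h5 : ((u : O7) * (om ^ m₀ * w) + 7 * (om ^ m₀ * y)).im = 0 := by
    have h6 : (7 ^ (e + 1) : ℤ) * ((u : O7) * (om ^ m₀ * w) + 7 * (om ^ m₀ * y)).im = 0 := by
      linear_combination -h2
    rcases mul_eq_zero.1 h6 with h7 | h7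
    · exact absurd h7 (by positivity)
    · exact h7
  have h6 : (7 : ℤ) ∣ u * (om ^ m₀ * w).im := by
    refine ⟨-(om ^ m₀ * y).im, ?_⟩
    rw [QuadraticAlgebra.im_add] at h5
    have e1 : ((u : O7) * (om ^ m₀ * w)).im = u * (om ^ m₀ * w).im := by
      rw [QuadraticAlgebra.im_mul]
      simp
    have e2 : ((7 : O7) * (om ^ m₀ * y)).im = 7 * (om ^ m₀ * y).im := by
      rw [QuadraticAlgebra.im_mul, QuadraticAlgebra.re_ofNat, QuadraticAlgebra.im_ofNat]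
      ring
    rw [e1, e2] at h5
    linear_combination h5
  have h7 : Prime (7 : ℤ) := by norm_num
  rcases h7.dvd_or_dvd h6 with h8 | h8
  · exact hu (by exact_mod_cast h8)
  · rw [F1c_om_pow] at h8
    rcases hm with rfl | rfl | rfl
    · rw [QuadraticAlgebra.im_mul] at h8
      simp [rb, w] at h8
    · rw [QuadraticAlgebra.im_mul] at h8
      simp [rb, w] at h8
    · rw [QuadraticAlgebra.im_mul] at h8
      simp [rb, w] at h8

end SRT
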