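import Pool.Agent.SRT.F1b
import Pool.Agent.SRT.F1c
import Pool.Agent.SRC.N2

set_option autoImplicit false

namespace SRT

/-- Ramanujan-Nagell.
PROOF. `(a, b) = (s, 1)` in `norm_form`: `rb j = ± 1`, so by `rb_eq_pm_one` and `rb_ne`
(`m = m₀ + 21 k`, `rb 3 = rb 5 = rb 13 = -1`) `j ∈ {1, 2, 3, 5, 13}`, and
`s² + s + 2 ∈ {2, 4, 8, 32, 8192}`; bound `|s| ≤ 91` and check (e.g. factor
`s² + s - 8190 = (s - 90)(s + 91)`, `s² + s - 30 = (s-5)(s+6)`, `(s-2)(s+3)`, `(s-1)(s+2)`,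
`s (s+1)`). -/
theorem ramanujan_nagell (s : ℤ) (j : ℕ) (h : s ^ 2 + s + 2 = 2 ^ j) :
    (s = 0 ∨ s = -1) ∨ (s = 1 ∨ s = -2) ∨ ((s = 2 ∨ s = -3) ∧ j = 3) ∨
      ((s = 5 ∨ s = -6) ∧ j = 5) ∨ ((s = 90 ∨ s = -91) ∧ j = 13) := by
  have h1 : ∃ ε : ℤ, (ε = 1 ∨ ε = -1) ∧ ((s = ε * (rb (j + 1) - rb j) ∧ (1 : ℤ) = ε * rb j) ∨
      (s = ε * rb (j + 1) ∧ (1 : ℤ) = -(ε * rb j))) := by
    refine norm_form j s 1 (by rw [← h]; ring) ?_
    rintro ⟨-, h2⟩
    norm_num at h2
  have h2 : rb j = 1 ∨ rb j = -1 := by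
    obtain ⟨ε, hε, h3 | h3⟩ := h1
    · rcases hε with rfl | rfl
      · left; linarith [h3.2]
      · right; linarith [h3.2]
    · rcases hε with rfl | rfl
      · right; linarith [h3.2]
      · left; linarith [h3.2]
  have key : ∀ m₀ : ℕ, (m₀ = 3 ∨ m₀ = 5 ∨ m₀ = 13) → rb m₀ = -1 → rb j = -1 → j % 21 = m₀ →
      j = m₀ := by
    intro m₀ hm h4 h5 h6
    by_contra hne
    have hk : 1 ≤ j / 21 := by
      by_contra hcon
      have : j / 21 = 0 := by omega
      omega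
    have h7 := rb_ne m₀ (j / 21) hm hk
    apply h7
    have h8 : m₀ + 21 * (j / 21) = j := by omega
    rw [h8, h4, h5]
  have fac : ∀ p q : ℤ, s ^ 2 + s + 2 = 2 ^ j → (s - p) * (s - q) = 0 → s = p ∨ s = q := by
    intro p q _ h9
    rcases mul_eq_zero.1 h9 with h10 | h10
    · exact Or.inl (by linarith)
    · exact Or.inr (by linarith)
  rcases rb_eq_pm_one j h2 with h3 | h3 | ⟨h3, h4⟩
  · subst h3
    have := fac 0 (-1) h (by linear_combination h)
    exact Or.inl this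
  · subst h3
    have := fac 1 (-2) h (by linear_combination h)
    exact Or.inr (Or.inl this)
  · rcases h4 with h4 | h4 | h4
    · have h5 := key 3 (Or.inl rfl) rfl h3 h4
      subst h5
      have := fac 2 (-3) h (by linear_combination h)
      exact Or.inr (Or.inr (Or.inl ⟨this, rfl⟩))
    · have h5 := key 5 (Or.inr (Or.inl rfl)) rfl h3 h4
      subst h5
      have := fac 5 (-6) h (by linear_combination h)
      exact Or.inr (Or.inr (Or.inr (Or.inl ⟨this, rfl⟩)))
    · have h5 := key 13 (Or.inr (Or.inr rfl)) rfl h3 h4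
      subst h5
      have := fac 90 (-91) h (by linear_combination h)
      exact Or.inr (Or.inr (Or.inr (Or.inr ⟨this, rfl⟩)))

/-- PROOF. `N2 = 2 ^ j` (as `P2 = 1`), `ramanujan_nagell`, `5 ≤ |s|`; `N1 = s² - s + 2 = 2 ^ i P1` with
`P1` odd and `i ∈ {1, 2}`: `s = 5`: `22 = 2 · 11`; `s = -6`: `44 = 4 · 11`; `s = 90`:
`8012 = 4 · 2003`; `s = -91`: `8374 = 2 · 4187`. -/
theorem cases_of_P2_eq_one {v : ℕ} {s : ℤ} {N1 N2 i j P1 P2 : ℕ}
    (d : SRC.Dat v s N1 N2 i j P1 P2) (hP2 : P2 = 1) :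
    (s = 5 ∧ i = 1 ∧ j = 5 ∧ P1 = 11) ∨ (s = -6 ∧ i = 2 ∧ j = 5 ∧ P1 = 11) ∨
      (s = 90 ∧ i = 2 ∧ j = 13 ∧ P1 = 2003) ∨ (s = -91 ∧ i = 1 ∧ j = 13 ∧ P1 = 4187) := by
  have h1 : s ^ 2 + s + 2 = 2 ^ j := by
    rw [← d.e2, d.h2, hP2]
    push_cast
    ring
  have hs := d.hs
  have e1 := d.e1
  have hh := d.h1
  have hodd := d.odd1
  obtain ⟨k, hk⟩ := hodd
  rcases ramanujan_nagell s j h1 with h2 | h2 | h2 | h2 | h2
  · exfalso
    rcases h2 with rfl | rfl <;> norm_num at hs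
  · exfalso
    rcases h2 with rfl | rfl <;> norm_num at hs
  · exfalso
    rcases h2 with ⟨rfl | rfl, -⟩ <;> norm_num at hs
  · obtain ⟨rfl | rfl, hj⟩ := h2
    · left
      have e2 : N1 = 22 := by
        have : (N1 : ℤ) = 22 := by rw [e1]; norm_num
        exact_mod_cast this
      rcases d.hi with hi | hi
      · rw [hi] at hh
        refine ⟨rfl, hi, hj, by omega⟩
      · rw [hi] at hh
        omega
    · right
      left
      have e2 : N1 = 44 := by
        have : (N1 : ℤ) = 44 := by rw [e1]; norm_num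
        exact_mod_cast this
      rcases d.hi with hi | hi
      · rw [hi] at hh
        omega
      · rw [hi] at hh
        refine ⟨rfl, hi, hj, by omega⟩
  · obtain ⟨rfl | rfl, hj⟩ := h2
    · right
      right
      left
      have e2 : N1 = 8012 := by
        have : (N1 : ℤ) = 8012 := by rw [e1]; norm_num
        exact_mod_cast this
      rcases d.hi with hi | hi
      · rw [hi] at hh
        omega
      · rw [hi] at hh
        refine ⟨rfl, hi, hj, by omega⟩
    · right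
      right
      right
      have e2 : N1 = 8374 := by
        have : (N1 : ℤ) = 8374 := by rw [e1]; norm_num
        exact_mod_cast this
      rcases d.hi with hi | hi
      · rw [hi] at hh
        refine ⟨rfl, hi, hj, by omega⟩
      · rw [hi] at hh
        omega

end SRT
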