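import Pool.Agent.SRC.N2

set_option autoImplicit false

namespace SRT

private theorem f2a_P2 {v : ℕ} {s : ℤ} {N1 N2 i j P1 P2 : ℕ} (d : SRC.Dat v s N1 N2 i j P1 P2)
    (hP2 : P2 ≠ 1) : P2 = 7 ∨ 11 ≤ P2 := by
  have hpr : ∀ p : ℕ, p.Prime → p ∣ P2 → 7 ≤ p := by
    intro p hp hd
    exact d.seven_le hp (SRC.n2_not_two_dvd d.odd2 hd) (Or.inr hd)
  have h7 : 7 ≤ P2 := by
    obtain ⟨p, hp, hd⟩ := Nat.exists_prime_and_dvd hP2
    have h0 : 0 < P2 := Nat.pos_of_ne_zero (by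
      intro h
      have := d.odd2
      rw [h] at this
      exact absurd this (by decide))
    exact (hpr p hp hd).trans (Nat.le_of_dvd h0 hd)
  by_contra hcon
  push Not at hcon
  obtain ⟨h1, h2⟩ := hcon
  have hodd := d.odd2
  interval_cases P2
  · exact h1 rfl
  · exact absurd hodd (by decide)
  · exact absurd (hpr 3 (by norm_num) (by norm_num)) (by norm_num)
  · exact absurd hodd (by decide)

/-- If `P2 ≠ 1` the group `Q` is semiregular (`h = 2 ^ η = 1`).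
PROOF. Let `A = n²+n+2`, `B = n²-n+2`, `h = 2^η ≥ 2`; `B ≤ N2 ≤ A`, `5 ≤ n`.
`P2 ≥ 7`, and `P2 = 7` or `P2 ≥ 11` (`P2` is odd and its prime divisors are `≥ 7`, `Dat.seven_le`).
`h1` gives `(h-1) B < 2 · 2^a h ≤ 4 · 2^a (h-1)`, so `B < 2^(a+2) ≤ 2^(i+j+1)`, and
`P2 B < 2^(i+1) N2 ≤ 2^(i+1) A` (`P2 2^j = N2`).
`i = 1`: `7 B < 4 A`, impossible for `n ≥ 3`.
`i = 2`: then `4 ∣ N1`, `¬ 8 ∣ N1`, `8 ∣ N2` (`i < j`), so `s ≡ 2 (mod 8)` and `n ≥ 6`.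
If `P2 ≥ 11`: `11 B < 8 A`, i.e. `(3n-1)(n-6) < 0`, contradiction.  If `P2 = 7`:
`7 · 2^(a+1) ≤ 7 · 2^(j+2) = 4 N2 ≤ 4 A`, so `h2` gives
`7 h (n²+2)² ≤ (7n² + 4A) (n²+2+(h-1)(n+2))` and `7n²+4A = 11n²+4n+8`; but
`7 (n²+2)² - (11n²+4n+8)(n+2) = 7n⁴-11n³+2n²-16n+12 > 0` and for `h = 2`
`14 (n²+2)² - (11n²+4n+8)(n²+n+4) = 3n⁴-15n³-24n+24 > 0` for `n ≥ 6`: contradiction for all
`h ≥ 2`. -/
theorem h_eq_one {v : ℕ} {s : ℤ} {N1 N2 i j P1 P2 : ℕ} (d : SRC.Dat v s N1 N2 i j P1 P2) (n : ℕ)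
    (hs : s = n ∨ s = -n) (a η : ℕ) (ha : a ≤ i + j - 1) (hP2 : P2 ≠ 1) (hη : 1 ≤ η)
    (h1 : (((2 : ℤ) ^ η) - 1) * ((n : ℤ) ^ 2 - n + 2) ≤ 2 * (2 ^ a * (2 : ℤ) ^ η - 1))
    (h2 : 2 ^ η * (n ^ 2 + 2) ^ 2 ≤
      (n ^ 2 + 2 ^ (a + 1)) * (n ^ 2 + 2 + (2 ^ η - 1) * (n + 2))) : False := by
  set h : ℕ := 2 ^ η with hh
  have hh2 : 2 ≤ h := by
    calc 2 = 2 ^ 1 := rfl
      _ ≤ 2 ^ η := Nat.pow_le_pow_right (by norm_num) hη
  have hn5 : (5 : ℤ) ≤ n := by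
    have h3 := d.hs
    rcases hs with h4 | h4
    · rw [h4] at h3
      simpa using h3
    · rw [h4, abs_neg] at h3
      simpa using h3
  have hN2A : (N2 : ℤ) ≤ (n : ℤ) ^ 2 + n + 2 := by
    rw [d.e2]
    rcases hs with h4 | h4 <;> rw [h4] <;> nlinarith
  have hhZ : ((2 : ℤ) ^ η) = (h : ℤ) := by rw [hh]; push_cast; rfl
  rw [hhZ] at h1
  have hhZ2 : (2 : ℤ) ≤ h := by exact_mod_cast hh2
  -- `B < 2 ^ (a + 2)`
  have hB : (n : ℤ) ^ 2 - n + 2 < 2 ^ (a + 2) := by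
    have h3 : ((h : ℤ) - 1) * ((n : ℤ) ^ 2 - n + 2) < ((h : ℤ) - 1) * 2 ^ (a + 2) := by
      have h4 : (0 : ℤ) < 2 ^ a := by positivity
      have h5 : (2 : ℤ) ^ (a + 2) = 4 * 2 ^ a := by rw [pow_add]; ring
      rw [h5]
      nlinarith
    exact lt_of_mul_lt_mul_left h3 (by linarith)
  have hapow : (2 : ℤ) ^ (a + 2) ≤ 2 ^ (i + j + 1) := by
    have h3 : a + 2 ≤ i + j + 1 := by
      have := d.hij
      omega
    exact pow_le_pow_right₀ (by norm_num) h3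
  have hP2B : (P2 : ℤ) * ((n : ℤ) ^ 2 - n + 2) < 2 ^ (i + 1) * ((n : ℤ) ^ 2 + n + 2) := by
    have hpos : (0 : ℤ) < P2 := by
      have : 0 < P2 := Nat.pos_of_ne_zero (by
        intro h
        have := d.odd2
        rw [h] at this
        exact absurd this (by decide))
      exact_mod_cast this
    calc (P2 : ℤ) * ((n : ℤ) ^ 2 - n + 2) < P2 * 2 ^ (i + j + 1) :=
          mul_lt_mul_of_pos_left (lt_of_lt_of_le hB hapow) hpos
      _ = 2 ^ (i + 1) * N2 := by rw [d.h2]; push_cast; ring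
      _ ≤ _ := mul_le_mul_of_nonneg_left hN2A (by positivity)
  have hP := f2a_P2 d hP2
  have hP7 : (7 : ℤ) ≤ P2 := by
    have : 7 ≤ P2 := by omega
    exact_mod_cast this
  have hBpos : (0 : ℤ) < (n : ℤ) ^ 2 - n + 2 := by nlinarith
  rcases d.hi with hi | hi
  · rw [hi] at hP2B
    have h3 : (7 : ℤ) * ((n : ℤ) ^ 2 - n + 2) < 4 * ((n : ℤ) ^ 2 + n + 2) := by
      have h4 : (7 : ℤ) * ((n : ℤ) ^ 2 - n + 2) ≤ P2 * ((n : ℤ) ^ 2 - n + 2) :=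
        mul_le_mul_of_nonneg_right hP7 hBpos.le
      have h5 : (2 : ℤ) ^ (1 + 1) = 4 := by norm_num
      rw [h5] at hP2B
      linarith
    nlinarith
  · -- `i = 2`
    have hn6 : (6 : ℤ) ≤ n := by
      have h3 : (N1 : ℤ) = 4 * P1 := by rw [d.h1, hi]; push_cast; ring
      obtain ⟨t, ht⟩ := d.odd1
      obtain ⟨u, hu⟩ : ∃ u : ℕ, N2 = 8 * u := by
        refine ⟨2 ^ (j - 3) * P2, ?_⟩
        rw [d.h2]
        have hj : j = (j - 3) + 3 := by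
          have := d.hij
          omega
        rw [← mul_assoc]
        congr 1
        conv_lhs => rw [hj, pow_add]
        ring
      have h4 : 2 * s = (N2 : ℤ) - N1 := by rw [d.e1, d.e2]; ring
      rw [h3, hu, ht] at h4
      push_cast at h4
      have h5 : s = 4 * u - 2 * (2 * t + 1) := by linarith
      have h6 : (n : ℤ) ≠ 5 := by
        intro h7
        rcases hs with h8 | h8 <;> rw [h8, h7] at h5 <;> omega
      omega
    rcases hP with hP | hP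
    · -- `P2 = 7`
      have haj : a + 1 ≤ j + 2 := by
        have := d.hij
        omega
      have h3 : 7 * (2 : ℤ) ^ (a + 1) ≤ 4 * ((n : ℤ) ^ 2 + n + 2) := by
        calc 7 * (2 : ℤ) ^ (a + 1) ≤ 7 * (2 : ℤ) ^ (j + 2) :=
              mul_le_mul_of_nonneg_left (pow_le_pow_right₀ (by norm_num) haj) (by norm_num)
          _ = 4 * N2 := by rw [d.h2, hP]; push_cast; ring
          _ ≤ _ := mul_le_mul_of_nonneg_left hN2A (by norm_num)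
      have h4 : (h : ℤ) * ((n : ℤ) ^ 2 + 2) ^ 2 ≤
          ((n : ℤ) ^ 2 + 2 ^ (a + 1)) * ((n : ℤ) ^ 2 + 2 + ((h : ℤ) - 1) * ((n : ℤ) + 2)) := by
        have h5 : ((h * (n ^ 2 + 2) ^ 2 : ℕ) : ℤ) ≤
            (((n ^ 2 + 2 ^ (a + 1)) * (n ^ 2 + 2 + (h - 1) * (n + 2)) : ℕ) : ℤ) := by
          exact_mod_cast h2
        push_cast [Nat.cast_sub (show 1 ≤ h by omega)] at h5
        exact h5
      have h5 : 7 * ((h : ℤ) * ((n : ℤ) ^ 2 + 2) ^ 2) ≤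
          (11 * (n : ℤ) ^ 2 + 4 * n + 8) * ((n : ℤ) ^ 2 + 2 + ((h : ℤ) - 1) * ((n : ℤ) + 2)) := by
        have h6 : 0 ≤ (n : ℤ) ^ 2 + 2 + ((h : ℤ) - 1) * ((n : ℤ) + 2) := by
          have h7 : 0 ≤ ((h : ℤ) - 1) * ((n : ℤ) + 2) :=
            mul_nonneg (by linarith) (by linarith)
          positivity
        calc 7 * ((h : ℤ) * ((n : ℤ) ^ 2 + 2) ^ 2) ≤ 7 * (((n : ℤ) ^ 2 + 2 ^ (a + 1)) *
              ((n : ℤ) ^ 2 + 2 + ((h : ℤ) - 1) * ((n : ℤ) + 2))) :=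
              mul_le_mul_of_nonneg_left h4 (by norm_num)
          _ = (7 * (n : ℤ) ^ 2 + 7 * 2 ^ (a + 1)) *
              ((n : ℤ) ^ 2 + 2 + ((h : ℤ) - 1) * ((n : ℤ) + 2)) := by ring
          _ ≤ _ := mul_le_mul_of_nonneg_right (by linarith) h6
      obtain ⟨m, hm⟩ : ∃ m : ℤ, (n : ℤ) = 6 + m := ⟨n - 6, by ring⟩
      have hm0 : 0 ≤ m := by linarith
      obtain ⟨t, ht⟩ : ∃ t : ℤ, (h : ℤ) = 2 + t := ⟨h - 2, by ring⟩
      have ht0 : 0 ≤ t := by linarith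
      rw [hm, ht] at h5
      have e : 7 * ((2 + t) * ((6 + m) ^ 2 + 2) ^ 2) -
          (11 * (6 + m) ^ 2 + 4 * (6 + m) + 8) * ((6 + m) ^ 2 + 2 + ((2 + t) - 1) * ((6 + m) + 2)) =
          t * (7 * m ^ 4 + 157 * m ^ 3 + 1316 * m ^ 2 + 4868 * m + 6684) +
          (3 * m ^ 4 + 57 * m ^ 3 + 378 * m ^ 2 + 948 * m + 528) := by ring
      have hp1 : 0 ≤ t * (7 * m ^ 4 + 157 * m ^ 3 + 1316 * m ^ 2 + 4868 * m + 6684) := by positivity
      have hp2 : 0 ≤ 3 * m ^ 4 + 57 * m ^ 3 + 378 * m ^ 2 + 948 * m := by positivity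
      linarith
    · have hP11 : (11 : ℤ) ≤ P2 := by exact_mod_cast hP
      rw [hi] at hP2B
      have h3 : (11 : ℤ) * ((n : ℤ) ^ 2 - n + 2) < 8 * ((n : ℤ) ^ 2 + n + 2) := by
        have h4 : (11 : ℤ) * ((n : ℤ) ^ 2 - n + 2) ≤ P2 * ((n : ℤ) ^ 2 - n + 2) :=
          mul_le_mul_of_nonneg_right hP11 hBpos.le
        have h5 : (2 : ℤ) ^ (2 + 1) = 8 := by norm_num
        rw [h5] at hP2B
        linarith
      nlinarith

end SRT
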