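import Mathlib

set_option autoImplicit false

namespace SRT

/-- Numerical bounds for the small cases.  PROOF. For each value of `a` (`interval_cases a`) the
inequality is linear in `h = 2 ^ η`; `h ≤ 16` resp. `4`, `4`, `2`, `2`, so `η ≤ 4, 2, 2, 1, 1`.
(In detail, `n = 5`: `a = 5`: `106 h ≤ 1780`; smaller `a` gives less.  `n = 6`, `a = 5`:
`644 h ≤ 3000`.  `n = 90`, `a = 14`: `61882548 h ≤ 327352680`.  `n = 91`, `a = 13`: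
`66314244 h ≤ 202006350`.  The inequality for smaller `a` implies the one for the largest `a`, since the
right-hand side increases with `a`.) -/
theorem num5 (a η : ℕ) (ha : a ≤ 5)
    (h : 2 ^ η * (5 ^ 2 + 2) ^ 2 ≤ (5 ^ 2 + 2 ^ (a + 1)) * (5 ^ 2 + 2 + (2 ^ η - 1) * (5 + 2))) :
    2 ^ a * 2 ^ η ≤ 2 ^ 9 := by
  obtain ⟨k, hk⟩ : ∃ k, 2 ^ η = k + 1 := ⟨2 ^ η - 1, by have := Nat.one_le_two_pow (n := η); omega⟩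
  rw [hk] at h ⊢
  rw [Nat.add_sub_cancel] at h
  interval_cases a <;> norm_num at h ⊢ <;> omega

theorem num6 (a η : ℕ) (ha : a ≤ 5)
    (h : 2 ^ η * (6 ^ 2 + 2) ^ 2 ≤ (6 ^ 2 + 2 ^ (a + 1)) * (6 ^ 2 + 2 + (2 ^ η - 1) * (6 + 2))) :
    2 ^ a * 2 ^ η ≤ 2 ^ 7 := by
  obtain ⟨k, hk⟩ : ∃ k, 2 ^ η = k + 1 := ⟨2 ^ η - 1, by have := Nat.one_le_two_pow (n := η); omega⟩
  rw [hk] at h ⊢
  rw [Nat.add_sub_cancel] at h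
  interval_cases a <;> norm_num at h ⊢ <;> omega

theorem num90 (a η : ℕ) (ha : a ≤ 14)
    (h : 2 ^ η * (90 ^ 2 + 2) ^ 2 ≤
      (90 ^ 2 + 2 ^ (a + 1)) * (90 ^ 2 + 2 + (2 ^ η - 1) * (90 + 2))) :
    2 ^ a * 2 ^ η ≤ 2 ^ 16 := by
  obtain ⟨k, hk⟩ : ∃ k, 2 ^ η = k + 1 := ⟨2 ^ η - 1, by have := Nat.one_le_two_pow (n := η); omega⟩
  rcases Nat.lt_or_ge η 3 with hη | hη
  · have h2 : 2 ^ η ≤ 2 ^ 2 := Nat.pow_le_pow_right (by norm_num) (by omega)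
    have h3 : 2 ^ a ≤ 2 ^ 14 := Nat.pow_le_pow_right (by norm_num) ha
    calc 2 ^ a * 2 ^ η ≤ 2 ^ 14 * 2 ^ 2 := Nat.mul_le_mul h3 h2
      _ = 2 ^ 16 := by norm_num
  · exfalso
    have h2 : 2 ^ 3 ≤ 2 ^ η := Nat.pow_le_pow_right (by norm_num) hη
    rw [hk] at h h2
    rw [Nat.add_sub_cancel] at h
    interval_cases a <;> norm_num at h h2 <;> omega

theorem num91 (a η : ℕ) (ha : a ≤ 13)
    (h : 2 ^ η * (91 ^ 2 + 2) ^ 2 ≤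
      (91 ^ 2 + 2 ^ (a + 1)) * (91 ^ 2 + 2 + (2 ^ η - 1) * (91 + 2))) :
    2 ^ a * 2 ^ η ≤ 2 ^ 14 := by
  obtain ⟨k, hk⟩ : ∃ k, 2 ^ η = k + 1 := ⟨2 ^ η - 1, by have := Nat.one_le_two_pow (n := η); omega⟩
  rcases Nat.lt_or_ge η 2 with hη | hη
  · have h2 : 2 ^ η ≤ 2 ^ 1 := Nat.pow_le_pow_right (by norm_num) (by omega)
    have h3 : 2 ^ a ≤ 2 ^ 13 := Nat.pow_le_pow_right (by norm_num) ha
    calc 2 ^ a * 2 ^ η ≤ 2 ^ 13 * 2 ^ 1 := Nat.mul_le_mul h3 h2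
      _ = 2 ^ 14 := by norm_num
  · exfalso
    have h2 : 2 ^ 2 ≤ 2 ^ η := Nat.pow_le_pow_right (by norm_num) hη
    rw [hk] at h h2
    rw [Nat.add_sub_cancel] at h
    interval_cases a <;> norm_num at h h2 <;> omega

/-- `a = 2`: `36 h ≤ 102`, `h ≤ 2`; `a = 1`: `56 h ≤ 78`, `h = 1`; `a = 0`: `66 h ≤ 66`. -/
theorem num3 (a η : ℕ) (ha : a ≤ 2)
    (h : 2 ^ η * (3 ^ 2 + 2) ^ 2 ≤ (3 ^ 2 + 2 ^ (a + 1)) * (3 ^ 2 + 2 + (2 ^ η - 1) * (3 + 2))) :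
    2 ^ a * 2 ^ η ≤ 4 ∨ (a = 2 ∧ η = 1) := by
  obtain ⟨k, hk⟩ : ∃ k, 2 ^ η = k + 1 := ⟨2 ^ η - 1, by have := Nat.one_le_two_pow (n := η); omega⟩
  rcases Nat.lt_or_ge η 2 with hη | hη
  · interval_cases a <;> interval_cases η <;> omega
  · exfalso
    have h2 : 2 ^ 2 ≤ 2 ^ η := Nat.pow_le_pow_right (by norm_num) hη
    rw [hk] at h h2
    rw [Nat.add_sub_cancel] at h
    interval_cases a <;> omega

/-- `2` has order `10` modulo `11`, `39` modulo `79`, `52` modulo `53`, `3` modulo `7`.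
(`interval_cases t`; for `2003` the powers `2, 4, ..., 1024, 45, 90, 180, 360, 720, 1440`.) -/
theorem ord_facts (t : ℕ) (h1 : 1 ≤ t) :
    (t ≤ 9 → ¬ 11 ∣ 2 ^ t - 1) ∧ (t ≤ 16 → ¬ 2003 ∣ 2 ^ t - 1) ∧ (t ≤ 14 → ¬ 53 ∣ 2 ^ t - 1) ∧
      (t ≤ 14 → ¬ 79 ∣ 2 ^ t - 1) ∧ (t ≤ 3 → 7 ∣ 2 ^ t - 1 → t = 3) := by
  refine ⟨fun h => ?_, fun h => ?_, fun h => ?_, fun h => ?_, fun h => ?_⟩ <;>
    interval_cases t <;> norm_num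

end SRT
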