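import Pool.Agent.SRT.Defs

set_option autoImplicit false

namespace SRT

/-- the closed adjacency relation of a strongly regular graph with `λ = 0`, `μ = 2` -/
theorem geo_of_srg {V : Type*} [Fintype V] [DecidableEq V] (Γ : SimpleGraph V)
    [DecidableRel Γ.Adj] {v k : ℕ} (hΓ : Γ.IsSRGWith v k 0 2) :
    Geo (fun x y => x = y ∨ Γ.Adj x y) (k + 1) := by
  classical
  refine ⟨fun x => Or.inl rfl, ?_, ?_, ?_⟩
  · rintro x y (h | h)
    · exact Or.inl h.symm
    · exact Or.inr h.symm
  · intro x
    rw [Nat.card_eq_fintype_card, Fintype.card_subtype]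
    have h1 : (Finset.univ.filter fun y => x = y ∨ Γ.Adj x y) = insert x (Γ.neighborFinset x) := by
      ext y
      simp [eq_comm]
    rw [h1, Finset.card_insert_of_notMem (by simp), Γ.card_neighborFinset_eq_degree,
      hΓ.regular x]
  · intro x z hxz
    rw [Nat.card_eq_fintype_card, Fintype.card_subtype]
    by_cases hadj : Γ.Adj x z
    · have h0 : Fintype.card (Γ.commonNeighbors x z) = 0 := hΓ.of_adj x z hadj
      have h1 : (Finset.univ.filter fun y => (x = y ∨ Γ.Adj x y) ∧ (y = z ∨ Γ.Adj y z))
          = {x, z} := by
        ext y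
        simp only [Finset.mem_filter, Finset.mem_univ, true_and, Finset.mem_insert,
          Finset.mem_singleton]
        constructor
        · rintro ⟨h1 | h1, h2 | h2⟩
          · exact Or.inl h1.symm
          · exact Or.inl h1.symm
          · exact Or.inr h2
          · exfalso
            have : IsEmpty (Γ.commonNeighbors x z) := Fintype.card_eq_zero_iff.1 h0
            exact this.false ⟨y, h1, h2.symm⟩
        · rintro (rfl | rfl)
          · exact ⟨Or.inl rfl, Or.inr hadj⟩
          · exact ⟨Or.inr hadj, Or.inl rfl⟩
      rw [h1, Finset.card_pair hxz]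
    · have h0 : Fintype.card (Γ.commonNeighbors x z) = 2 := hΓ.of_not_adj hxz hadj
      rw [← h0, ← Set.toFinset_card]
      congr 1
      ext y
      simp only [Finset.mem_filter, Finset.mem_univ, true_and, Set.mem_toFinset,
        SimpleGraph.mem_commonNeighbors]
      constructor
      · rintro ⟨h1 | h1, h2 | h2⟩
        · exact absurd (h1.trans h2) hxz
        · subst h1; exact absurd h2 hadj
        · subst h2; exact absurd h1 hadj
        · exact ⟨h1, h2.symm⟩
      · rintro ⟨h1, h2⟩
        exact ⟨Or.inr h1, Or.inr h2.symm⟩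

end SRT
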