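import Pool.Agent.SRT.H2
import Pool.Agent.SRT.H3
import Pool.Agent.SRT.A1b

/-!
# MP_e446a9_co: no strongly regular graph with `λ = 0`, `μ = 2`, `k ≥ 10` has a solvable
vertex-transitive group of automorphisms
-/

set_option autoImplicit false

namespace Pool.Agent.Results.MP_e446a9_co.SolvableTransitive

/-- Let `Γ` be strongly regular with `λ = 0`, `μ = 2` and degree `k ≥ 10`, and let the group `G`
act on the vertices by automorphisms of `Γ`, transitively.  Then `G` is not solvable. -/
theorem result {V G : Type*} [Fintype V] [DecidableEq V] [Nonempty V] [Group G] [MulAction G V]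
    (Γ : SimpleGraph V) [DecidableRel Γ.Adj] {v k : ℕ} (hΓ : Γ.IsSRGWith v k 0 2) (hk : 10 ≤ k)
    (haut : ∀ (g : G) (x y : V), Γ.Adj (g • x) (g • y) ↔ Γ.Adj x y)
    (htrans : ∀ x y : V, ∃ g : G, g • x = y) :
    ¬ Group.IsSolvable G := by
  classical
  intro hs
  have hgeo := SRT.geo_of_srg Γ hΓ
  obtain ⟨n, hn⟩ := hgeo.exists_sq (by omega)
  have hn3 : 3 ≤ n := by
    by_contra hcon
    push Not at hcon
    have : n ^ 2 ≤ 2 ^ 2 := Nat.pow_le_pow_left (by omega) 2
    omega
  rw [hn] at hgeo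
  have hsr : Group.IsSolvable (MulAction.toPermHom G V).range :=
    Group.isSolvable_of_surjective (MulAction.toPermHom G V).rangeRestrict_surjective
  refine SRT.noSolv (Nat.card V) V _ n rfl hn3 hgeo (MulAction.toPermHom G V).range hsr ?_ ?_
  · rintro _ ⟨g, rfl⟩ x y (hxy | hxy)
    · exact Or.inl (by rw [hxy])
    · exact Or.inr ((haut g x y).2 hxy)
  · intro x y
    obtain ⟨g, hg⟩ := htrans x y
    exact ⟨MulAction.toPermHom G V g, ⟨g, rfl⟩, hg⟩

end Pool.Agent.Results.MP_e446a9_co.SolvableTransitive
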