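import Pool.Agent.SRT.B3
import Pool.Agent.SRT.B4

set_option autoImplicit false

namespace SRT

/-- An element of odd prime order `p` acts nontrivially on `Q` when `C(Q) ≤ Q`.
PROOF. `|Q| = 2^b`; `|Q ⊓ C(z)| = 2^c` with `c < b` (if `Q ⊓ C(z) = Q`, then `z ∈ C(Q) ≤ Q`, but `Q` is
a `2`-group); `t = b - c`; `2^c ≡ 2^b (mod p)` (`SRC.card_inf_centralizer_modEq`), so
`p ∣ 2^c (2^t - 1)` and `p` is odd. -/
theorem exists_t {G : Type*} [Group G] [Finite G] (Q : Subgroup G) (hQn : Q.Normal)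
    (hQ : IsPGroup 2 Q) (hC : Subgroup.centralizer (Q : Set G) ≤ Q) (p : ℕ) (hp : p.Prime)
    (hp2 : p ≠ 2) (z : G) (hz : orderOf z = p) :
    ∃ t : ℕ, 1 ≤ t ∧ 2 ^ t * Nat.card ↥(Q ⊓ Subgroup.centralizer ({z} : Set G)) = Nat.card Q ∧
      p ∣ 2 ^ t - 1 := by
  obtain ⟨b, hb⟩ := (IsPGroup.iff_card (p := 2)).1 hQ
  have hF : IsPGroup 2 ↥(Q ⊓ Subgroup.centralizer ({z} : Set G)) := hQ.to_le inf_le_left
  obtain ⟨c, hc⟩ := (IsPGroup.iff_card (p := 2)).1 hF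
  have hcb : c ≤ b := by
    have h1 : 2 ^ c ∣ 2 ^ b := by
      rw [← hb, ← hc]
      exact Subgroup.card_dvd_of_le inf_le_left
    exact (Nat.pow_dvd_pow_iff_le_right (by norm_num)).1 h1
  obtain ⟨t, rfl⟩ := Nat.exists_eq_add_of_le hcb
  have ht : 1 ≤ t := by
    by_contra hcon
    have ht0 : t = 0 := by omega
    subst ht0
    have h1 : Q ⊓ Subgroup.centralizer ({z} : Set G) = Q := by
      apply Subgroup.eq_of_le_of_card_ge inf_le_left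
      rw [hb, hc]
      simp
    have h2 : z ∈ Subgroup.centralizer (Q : Set G) := by
      rw [Subgroup.mem_centralizer_iff]
      intro q hq
      have h3 : q ∈ Q ⊓ Subgroup.centralizer ({z} : Set G) := by rw [h1]; exact hq
      exact Subgroup.mem_centralizer_singleton_iff.1 h3.2
    have h3 : z ∈ Q := hC h2
    have h4 : p ∣ Nat.card Q := by
      rw [← hz]
      have := orderOf_dvd_natCard (⟨z, h3⟩ : Q)
      rwa [Subgroup.orderOf_mk] at this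
    exact SRC.not_dvd_card_two_group Q hQ p hp hp2 h4
  refine ⟨t, ht, by rw [hb, hc, pow_add, mul_comm], ?_⟩
  have h1 := SRC.card_inf_centralizer_modEq Q z p hp
    (by rw [← hz]; exact pow_orderOf_eq_one z) (fun h hh => hQn.conj_mem h hh z)
  rw [hb, hc] at h1
  have h2 : p ∣ 2 ^ (c + t) - 2 ^ c :=
    (Nat.modEq_iff_dvd' (Nat.pow_le_pow_right (by norm_num) (by omega))).1 h1
  have h3 : 2 ^ (c + t) - 2 ^ c = 2 ^ c * (2 ^ t - 1) := by
    rw [pow_add, Nat.mul_sub, mul_one]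
  rw [h3] at h2
  rcases (Nat.Prime.dvd_mul hp).1 h2 with h4 | h4
  · exact absurd ((Nat.prime_dvd_prime_iff_eq hp Nat.prime_two).1 (hp.dvd_of_dvd_pow h4)) hp2
  · exact h4

variable {G V : Type*} [Group G] [Finite G] [MulAction G V] [Finite V] [Nonempty V]
  {B : V → V → Prop} {n : ℕ}

/-- The `2`-core and its basic data.
PROOF. `SRC.exists_core`; `SRC.centralizer_le` with `Sit.el` (`2 ≤ n`); `Sit.card_stab_eq`,
`Sit.exists_a` with `h = |Q ⊓ G_x|` for one `x`. -/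
theorem Sit.exists_core (S : Sit G V B n) (hn : 2 ≤ n) (hs : Group.IsSolvable G) :
    ∃ (Q : Subgroup G) (a η : ℕ), SRC.Core Q ∧ Subgroup.centralizer (Q : Set G) ≤ Q ∧
      (∀ x : V, Nat.card ↥(Q ⊓ MulAction.stabilizer G x) = 2 ^ η) ∧
      Nat.card Q = 2 ^ a * 2 ^ η ∧ 2 ^ a ∣ Nat.card V := by
  obtain ⟨Q, hQ⟩ := SRC.exists_core (G := G)
  have hC := SRC.centralizer_le hs (S.el hn) Q hQ
  obtain ⟨x₀⟩ := (inferInstance : Nonempty V)
  obtain ⟨a, η, h1, h2, h3⟩ := S.exists_a Q hQ.normal hQ.two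
    (Nat.card ↥(Q ⊓ MulAction.stabilizer G x₀)) (fun x => S.card_stab_eq Q hQ.normal x x₀)
  refine ⟨Q, a, η, hQ, hC, fun x => ?_, by rw [h1, h2], h3⟩
  rw [S.card_stab_eq Q hQ.normal x x₀, h2]

/-- PROOF. `Q ≠ ⊤` as `q ∣ |V| ∣ |G|` (`Sit.card_group`) for an odd prime `q`; `SRC.exists_elem`;
`x₀ ∈ R \ Q` (`Elem.ne`), `z = x₀ ^ |Q|` has order `p` (`SRC.lift_order`); `p ∣ |G| = 2^e |V|`, so
`p ∣ |V|`; `exists_t`. -/
theorem Sit.exists_pkg (S : Sit G V B n) (hs : Group.IsSolvable G) (q : ℕ) (hq : q.Prime)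
    (hq2 : q ≠ 2) (hqV : q ∣ Nat.card V) (Q : Subgroup G) (hQ : SRC.Core Q)
    (hC : Subgroup.centralizer (Q : Set G) ≤ Q) :
    ∃ (R : Subgroup G) (p : ℕ) (z : G) (t : ℕ), p.Prime ∧ p ≠ 2 ∧ p ∣ Nat.card V ∧
      SRC.Elem Q R p ∧ z ∈ R ∧ orderOf z = p ∧ 1 ≤ t ∧
      2 ^ t * Nat.card ↥(Q ⊓ Subgroup.centralizer ({z} : Set G)) = Nat.card Q ∧ p ∣ 2 ^ t - 1 := by
  obtain ⟨x₀⟩ := (inferInstance : Nonempty V)
  obtain ⟨e, -, hG⟩ := S.card_group x₀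
  have hne : Q ≠ ⊤ := by
    intro htop
    have h1 : Nat.card Q = Nat.card G := by rw [htop]; exact Subgroup.card_top
    apply SRC.not_dvd_card_two_group Q hQ.two q hq hq2
    rw [h1, hG]
    exact Dvd.dvd.mul_left hqV _
  obtain ⟨p, R, hp, hp2, hR⟩ := SRC.exists_elem hs Q hQ hne
  obtain ⟨x₁, hx₁R, hx₁⟩ : ∃ x₁ ∈ R, x₁ ∉ Q := by
    by_contra hcon
    push Not at hcon
    exact hR.ne hcon
  obtain ⟨hz, -⟩ := SRC.lift_order Q hQ.two p hp hp2 x₁ hx₁ (hR.pow_mem x₁ hx₁R)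
  have hzR : x₁ ^ Nat.card Q ∈ R := pow_mem hx₁R _
  have hpG : p ∣ Nat.card G := by
    rw [← hz]
    exact orderOf_dvd_natCard _
  have hpV : p ∣ Nat.card V := by
    rw [hG] at hpG
    rcases (Nat.Prime.dvd_mul hp).1 hpG with h4 | h4
    · exact absurd ((Nat.prime_dvd_prime_iff_eq hp Nat.prime_two).1 (hp.dvd_of_dvd_pow h4)) hp2
    · exact h4
  obtain ⟨t, h1, h2, h3⟩ := exists_t Q hQ.normal hQ.two hC p hp hp2 _ hz
  exact ⟨R, p, _, t, hp, hp2, hpV, hR, hzR, hz, h1, h2, h3⟩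

end SRT
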