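import Pool.Agent.SRT.B4

set_option autoImplicit false

namespace SRT

variable {G V : Type*} [Group G] [Finite G] [MulAction G V] [Finite V] [Nonempty V]
  {B : V → V → Prop} {n : ℕ}

/-- PROOF. `R ⊓ G_x = Q ⊓ G_x`: an element `g` of `R ⊓ G_x` has `2`-power order (`S.stab`), and
`g ^ p ∈ Q`, so `g ∈ Q` (`SRC.mem_of_pow_mem_coprime`, `p` odd).  So the orbit `R x` has
`|R| / 2^η = p 2^a = |V|` elements: it is everything. -/
theorem Sit.R_trans (S : Sit G V B n) (Q R : Subgroup G) (p a η : ℕ) (hp2 : Odd p)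
    (hQR : Q ≤ R) (hpow : ∀ x ∈ R, x ^ p ∈ Q)
    (hh : ∀ x : V, Nat.card ↥(Q ⊓ MulAction.stabilizer G x) = 2 ^ η)
    (hQ : Nat.card Q = 2 ^ a * 2 ^ η) (hcard : Nat.card R = p * Nat.card Q)
    (hV : Nat.card V = 2 ^ a * p) (x y : V) : ∃ g ∈ R, g • x = y := by
  have hmem : ∀ g ∈ R, g • x = x → g ∈ Q := by
    intro g hgR hgx
    obtain ⟨k, hk⟩ := S.stab x ⟨g, hgx⟩
    have h1 : g ^ 2 ^ k = 1 := by
      have := congrArg Subtype.val hk
      simpa using this
    refine SRC.mem_of_pow_mem_coprime Q g (2 ^ k) p ?_ ?_ (hpow g hgR)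
    · exact Nat.Coprime.pow_left _ (Nat.coprime_two_left.2 hp2)
    · rw [h1]; exact Q.one_mem
  have h1 : Nat.card (MulAction.stabilizer R x) = 2 ^ η := by
    rw [← hh x]
    apply Nat.card_congr
    exact ⟨fun q => ⟨q.1.1, ⟨hmem _ q.1.2 q.2, q.2⟩⟩, fun q => ⟨⟨q.1, hQR q.2.1⟩, q.2.2⟩,
      fun q => rfl, fun q => rfl⟩
  have h2 := Subgroup.card_mul_index (MulAction.stabilizer R x)
  rw [MulAction.index_stabilizer, h1, hcard, hQ] at h2
  have h3 : (MulAction.orbit R x).ncard = Nat.card V := by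
    rw [hV]
    apply Nat.eq_of_mul_eq_mul_left (show 0 < 2 ^ η by positivity)
    rw [h2]
    ring
  have h4 : MulAction.orbit R x = Set.univ := by
    apply Set.eq_of_subset_of_ncard_le (Set.subset_univ _)
    rw [h3, Set.ncard_univ]
  have h5 : y ∈ MulAction.orbit R x := by rw [h4]; exact Set.mem_univ y
  obtain ⟨g, hg⟩ := h5
  exact ⟨g.1, g.2, hg⟩

end SRT
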