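import Pool.Agent.SRT.B4
import Pool.Agent.SRT.A3

set_option autoImplicit false

namespace SRT

variable {G V : Type*} [Group G] [Finite G] [MulAction G V] [Finite V] [Nonempty V]
  {B : V → V → Prop} {n : ℕ}

/-- the number of `g ∈ R` with `g y = z` -/
theorem g2b_fiber {G V : Type*} [Group G] [Finite G] [MulAction G V] [Finite V] (R : Subgroup G)
    (htr : ∀ x y : V, ∃ g ∈ R, g • x = y) (y z : V) :
    Nat.card V * Nat.card {g : R // (g : G) • y = z} = Nat.card R := by
  obtain ⟨u, huR, hu⟩ := htr y z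
  have h1 : Nat.card {g : R // (g : G) • y = z} = Nat.card (MulAction.stabilizer R y) := by
    apply Nat.card_congr
    refine ⟨fun g => ⟨⟨u, huR⟩⁻¹ * g.1, ?_⟩, fun g => ⟨⟨u, huR⟩ * g.1, ?_⟩, fun g => ?_,
      fun g => ?_⟩
    · show (u⁻¹ * (g.1 : G)) • y = y
      rw [mul_smul, g.2, ← hu, inv_smul_smul]
    · show (u * (g.1 : G)) • y = z
      have h2 : ((g.1 : R) : G) • y = y := g.2
      rw [mul_smul, h2, hu]
    · apply Subtype.ext
      simp
    · apply Subtype.ext
      simp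
  have h2 := Subgroup.card_mul_index (MulAction.stabilizer R y)
  have h3 : MulAction.orbit R y = Set.univ := by
    ext w
    simp only [Set.mem_univ, iff_true]
    obtain ⟨g, hg, hgy⟩ := htr y w
    exact ⟨⟨g, hg⟩, hgy⟩
  rw [MulAction.index_stabilizer, h3, Set.ncard_univ] at h2
  rw [h1, mul_comm]
  exact h2

/-- PROOF. Double count of `{(g, y) : g ∈ R, B y (g y)}`.  For fixed `y`: `∑_{z : B y z}
#{g ∈ R : g y = z} = (n²+2) |R ⊓ G_y|` (`R` is transitive), and `|V| |R ⊓ G_y| = |R|` for every `y`. -/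
theorem Sit.sum_NN (S : Sit G V B n) (R : Subgroup G) (htr : ∀ x y : V, ∃ g ∈ R, g • x = y)
    [Fintype R] : ∑ g : R, NN B (g : G) = Nat.card R * (n ^ 2 + 2) := by
  classical
  let _ : Fintype V := Fintype.ofFinite V
  have e : (Σ g : R, {y : V // B y ((g : G) • y)}) ≃
      (Σ y : V, Σ z : {z : V // B y z}, {g : R // (g : G) • y = z}) :=
    { toFun := fun p => ⟨p.2.1, ⟨(p.1 : G) • p.2.1, p.2.2⟩, ⟨p.1, rfl⟩⟩
      invFun := fun p => ⟨p.2.2.1, ⟨p.1, by rw [p.2.2.2]; exact p.2.1.2⟩⟩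
      left_inv := fun p => rfl
      right_inv := by
        rintro ⟨y, ⟨z, hz⟩, ⟨g, hg⟩⟩
        dsimp only at hg
        subst hg
        rfl }
  have h1 := Nat.card_congr e
  rw [Nat.card_sigma, Nat.card_sigma] at h1
  have h2 : ∑ g : R, NN B (g : G) = ∑ g : R, Nat.card {y : V // B y ((g : G) • y)} := rfl
  rw [h2, h1]
  have hVpos : 0 < Nat.card V := Nat.card_pos
  apply Nat.eq_of_mul_eq_mul_left hVpos
  rw [Finset.mul_sum]
  have h3 : ∀ y ∈ (Finset.univ : Finset V),
      Nat.card V * Nat.card (Σ z : {z : V // B y z}, {g : R // (g : G) • y = z})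
        = (n ^ 2 + 2) * Nat.card R := by
    intro y _
    rw [Nat.card_sigma, Finset.mul_sum]
    have h4 : ∀ z ∈ (Finset.univ : Finset {z : V // B y z}),
        Nat.card V * Nat.card {g : R // (g : G) • y = (z : V)} = Nat.card R :=
      fun z _ => g2b_fiber R htr y (z : V)
    rw [Finset.sum_congr rfl h4, Finset.sum_const,
      Finset.card_univ, smul_eq_mul, ← Nat.card_eq_fintype_card, S.geo.card y]
  rw [Finset.sum_congr rfl h3, Finset.sum_const, Finset.card_univ, smul_eq_mul,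
    ← Nat.card_eq_fintype_card]
  ring

/-- PROOF. Every `g ∈ R \ Q` has order divisible by `p` (`SRC.dvd_orderOf_of_notMem`), so
`p ∣ NN B g` (`Sit.prime_dvd_NN`), and `NN B g ≡ 2 (mod n)` (`NN_modEq`); so `NN B g ≥ N` by `hN`.
There are `(p - 1) |Q|` such `g`; `Sit.sum_NN` gives
`(p - 1) |Q| N ≤ p |Q| (n²+2)`. -/
theorem Sit.R_ineq (S : Sit G V B n) (hn : 1 ≤ n) (Q R : Subgroup G) (p N : ℕ) (hp : p.Prime)
    (hp2 : p ≠ 2) (hQR : Q ≤ R) (hpow : ∀ x ∈ R, x ^ p ∈ Q)
    (hcard : Nat.card R = p * Nat.card Q) (htr : ∀ x y : V, ∃ g ∈ R, g • x = y)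
    (hN : ∀ m : ℕ, p ∣ m → (m : ℤ) ≡ 2 [ZMOD n] → N ≤ m) :
    (p - 1) * N ≤ p * (n ^ 2 + 2) := by
  classical
  let _ : Fintype R := Fintype.ofFinite R
  have h1 := S.sum_NN R htr
  have hge : ∀ g ∈ (Finset.univ.filter fun g : R => (g : G) ∉ Q), N ≤ NN B (g : G) := by
    intro g hg
    rw [Finset.mem_filter] at hg
    apply hN
    · exact S.prime_dvd_NN p hp hp2 _
        (SRC.dvd_orderOf_of_notMem Q p hp _ hg.2 (hpow _ g.2))
    · exact NN_modEq S.geo S.aut hn _
  have h2 : (Finset.univ.filter fun g : R => (g : G) ∉ Q).card * N ≤ ∑ g : R, NN B (g : G) := by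
    calc (Finset.univ.filter fun g : R => (g : G) ∉ Q).card * N
        = ∑ g ∈ (Finset.univ.filter fun g : R => (g : G) ∉ Q), N := by
          rw [Finset.sum_const, smul_eq_mul]
      _ ≤ ∑ g ∈ (Finset.univ.filter fun g : R => (g : G) ∉ Q), NN B (g : G) :=
          Finset.sum_le_sum hge
      _ ≤ ∑ g : R, NN B (g : G) :=
          Finset.sum_le_sum_of_subset (Finset.filter_subset _ _)
  have h3 : (Finset.univ.filter fun g : R => (g : G) ∈ Q).card = Nat.card Q := by
    rw [← Fintype.card_subtype, ← Nat.card_eq_fintype_card]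
    apply Nat.card_congr
    exact ⟨fun g => ⟨g.1.1, g.2⟩, fun q => ⟨⟨q.1, hQR q.2⟩, q.2⟩, fun g => rfl, fun q => rfl⟩
  have h4 : (Finset.univ.filter fun g : R => (g : G) ∈ Q).card
      + (Finset.univ.filter fun g : R => (g : G) ∉ Q).card = Nat.card R := by
    rw [Finset.card_filter_add_card_filter_not, Finset.card_univ, Nat.card_eq_fintype_card]
  have h5 : (Finset.univ.filter fun g : R => (g : G) ∉ Q).card = (p - 1) * Nat.card Q := by
    have h6 : (p - 1) * Nat.card Q = p * Nat.card Q - Nat.card Q := by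
      rw [Nat.sub_mul, one_mul]
    rw [h6, ← hcard]
    omega
  rw [h5, h1, hcard] at h2
  have hQpos : 0 < Nat.card Q := Nat.card_pos
  apply Nat.le_of_mul_le_mul_left _ hQpos
  calc Nat.card Q * ((p - 1) * N) = (p - 1) * Nat.card Q * N := by ring
    _ ≤ p * Nat.card Q * (n ^ 2 + 2) := h2
    _ = Nat.card Q * (p * (n ^ 2 + 2)) := by ring

end SRT
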