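import Pool.Agent.SRT.Defs

set_option autoImplicit false

namespace SRT

/-- PROOF. `z` acts by conjugation on the `7` elements `≠ 1` of `Q`, without fixed element
(`hC`), and has order `7`, so it permutes them transitively: the map
`Fin 7 → Q`, `k ↦ z^k g z^(-k)` is injective (if `z^k` commutes with `g`, `0 < k < 7`, then `z`, a power of
`z^k`, does), with values `≠ 1`, so it is onto `Q \ {1}`. -/
theorem conj_of_seven {G : Type*} [Group G] [Finite G] (Q : Subgroup G) (hQn : Q.Normal)
    (hQ8 : Nat.card Q = 8) (z : G) (hz : orderOf z = 7)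
    (hC : Nat.card ↥(Q ⊓ Subgroup.centralizer ({z} : Set G)) = 1) (g g' : G) (hg : g ∈ Q)
    (hg1 : g ≠ 1) (hg' : g' ∈ Q) (hg1' : g' ≠ 1) : ∃ k : ℕ, z ^ k * g * (z ^ k)⁻¹ = g' := by
  classical
  have hbot : Q ⊓ Subgroup.centralizer ({z} : Set G) = ⊥ := Subgroup.card_eq_one.1 hC
  have hcomm : ∀ m : ℕ, 0 < m → m < 7 → ¬ Commute (z ^ m) g := by
    intro m hm hm7 h1
    have hcop : ∃ t : ℕ, (m * t) % 7 = 1 := by
      interval_cases m
      · exact ⟨1, rfl⟩
      · exact ⟨4, rfl⟩
      · exact ⟨5, rfl⟩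
      · exact ⟨2, rfl⟩
      · exact ⟨3, rfl⟩
      · exact ⟨6, rfl⟩
    obtain ⟨t, ht⟩ := hcop
    have h2 : Commute ((z ^ m) ^ t) g := h1.pow_left t
    rw [← pow_mul, ← pow_mod_orderOf, hz, ht, pow_one] at h2
    have h3 : g ∈ Q ⊓ Subgroup.centralizer ({z} : Set G) := by
      refine Subgroup.mem_inf.2 ⟨hg, ?_⟩
      rw [Subgroup.mem_centralizer_iff]
      rintro y rfl
      exact h2.eq
    rw [hbot, Subgroup.mem_bot] at h3
    exact hg1 h3
  have hfinQ : (Q : Set G).Finite := Set.toFinite _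
  let T : Finset G := hfinQ.toFinset.erase 1
  have hTcard : T.card = 7 := by
    have h1 : hfinQ.toFinset.card = 8 := by
      rw [← Set.ncard_eq_toFinset_card _ hfinQ, ← hQ8]
      rfl
    rw [Finset.card_erase_of_mem (by simp), h1]
  let F : Finset G := (Finset.range 7).image (fun k => z ^ k * g * (z ^ k)⁻¹)
  have hFcard : F.card = 7 := by
    rw [Finset.card_image_of_injOn, Finset.card_range]
    have key : ∀ j k : ℕ, j < k → k < 7 → z ^ j * g * (z ^ j)⁻¹ ≠ z ^ k * g * (z ^ k)⁻¹ := by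
      intro j k hjk hk h
      apply hcomm (k - j) (by omega) (by omega)
      obtain ⟨m, rfl⟩ : ∃ m, k = j + m := ⟨k - j, by omega⟩
      rw [Nat.add_sub_cancel_left]
      rw [pow_add] at h
      have h1 : g = z ^ m * g * (z ^ m)⁻¹ := by
        have h2 : z ^ j * g * (z ^ j)⁻¹ = z ^ j * (z ^ m * g * (z ^ m)⁻¹) * (z ^ j)⁻¹ := by
          rw [h]; group
        exact mul_left_cancel (mul_right_cancel h2)
      rw [Commute, SemiconjBy]
      nth_rewrite 2 [h1]
      group
    intro j hj k hk h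
    simp only [Finset.coe_range, Set.mem_Iio] at hj hk
    rcases lt_trichotomy j k with h1 | h1 | h1
    · exact absurd h (key j k h1 hk)
    · exact h1
    · exact absurd h.symm (key k j h1 hj)
  have hsub : F ⊆ T := by
    intro y hy
    simp only [F, Finset.mem_image, Finset.mem_range] at hy
    obtain ⟨k, hk, rfl⟩ := hy
    simp only [T, Finset.mem_erase, Set.Finite.mem_toFinset, SetLike.mem_coe]
    refine ⟨fun h => hg1 ?_, hQn.conj_mem g hg _⟩
    have h1 : z ^ k * g = z ^ k := by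
      rwa [mul_inv_eq_one] at h
    exact mul_eq_left.1 h1
  have hEq : F = T := Finset.eq_of_subset_of_card_le hsub (by rw [hTcard, hFcard])
  have hmem : g' ∈ F := by
    rw [hEq]
    simp only [T, Finset.mem_erase, Set.Finite.mem_toFinset, SetLike.mem_coe]
    exact ⟨hg1', hg'⟩
  simp only [F, Finset.mem_image, Finset.mem_range] at hmem
  obtain ⟨k, hk, h⟩ := hmem
  exact ⟨k, h⟩

end SRT
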