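import Pool.Agent.SRT.G3a
import Pool.Agent.SRT.C3

set_option autoImplicit false

namespace SRT

/-- PROOF. Let `h = 2`: `Q ⊓ G_x = {1, t_x}` for every `x`, `t_x² = 1`.
All elements `≠ 1` of `Q` are conjugate (`conj_of_seven`), so they have the same number `α` of fixed
points; `∑_{g ∈ Q} |Fix g| = 56 · 2` (`Sit.sum_fixed`, `|V| = 56`), so `7 α = 56`, `α = 8`.
Fix `x` and let `t = t_x`, `f` as in `card_fix_involution`: `16 = f² + 9 + 3`, `f = 2`.
So the set `Y = {y : B x y, y ≠ x, t y ≠ y}` has `10 - 2 = 8` elements.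
For `y ∈ Y`, `t_y ≠ t` (`t_y` fixes `y`), so `t_y ∉ G_x`, `x' = t_y x ≠ x`, and `x' ∈ Q x`;
`B x y` gives `B (t_y x) (t_y y)`, i.e. `B x' y`.  So `y ∈ {u : B x u ∧ B u x'}`, a set with two
elements.  The orbit `Q x` has `8 / 2 = 4` elements, so there are `3` points `x'`, and
`8 = |Y| ≤ 3 · 2`: contradiction. -/
theorem Sit.three_special {G V : Type*} [Group G] [Finite G] [MulAction G V] [Finite V] [Nonempty V]
    {B : V → V → Prop} (S : Sit G V B 3) (Q : Subgroup G) (hQn : Q.Normal)
    (hQ8 : Nat.card Q = 8)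
    (hh : ∀ x : V, Nat.card ↥(Q ⊓ MulAction.stabilizer G x) = 2) (z : G) (hz : orderOf z = 7)
    (hC : Nat.card ↥(Q ⊓ Subgroup.centralizer ({z} : Set G)) = 1) : False := by
  classical
  have := Fintype.ofFinite V
  have := Fintype.ofFinite Q
  have hV : Nat.card V = 56 := by
    have := S.geo.two_mul_card'
    omega
  obtain ⟨x⟩ := (inferInstance : Nonempty V)
  -- the involution in the stabiliser of a point
  have hst : ∀ y : V, ∃ t ∈ Q, t ≠ 1 ∧ t • y = y ∧ ∀ u ∈ Q, u • y = y → u = 1 ∨ u = t := by
    intro y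
    have h2 := hh y
    rw [Nat.card_eq_two_iff' (1 : ↥(Q ⊓ MulAction.stabilizer G y))] at h2
    obtain ⟨t, ht1, ht2⟩ := h2
    have htm := Subgroup.mem_inf.1 t.2
    refine ⟨t, htm.1, fun h => ht1 (Subtype.ext h), htm.2, fun u hu huy => ?_⟩
    by_cases h1 : u = 1
    · exact Or.inl h1
    · right
      have h3 := ht2 ⟨u, Subgroup.mem_inf.2 ⟨hu, huy⟩⟩ (fun h => h1 (congrArg Subtype.val h))
      exact congrArg Subtype.val h3
  -- all fixed point sets of elements `≠ 1` of `Q` have the same size
  obtain ⟨t, htQ, ht1, htx, htu⟩ := hst x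
  have hconj : ∀ g ∈ Q, g ≠ 1 → Nat.card {y : V // g • y = y} = Nat.card {y : V // t • y = y} := by
    intro g hg hg1
    obtain ⟨k, hk⟩ := conj_of_seven Q hQn hQ8 z hz hC t g htQ ht1 hg hg1
    subst hk
    have ea : ∀ y : V, t • y = y → (z ^ k * t * (z ^ k)⁻¹) • (z ^ k • y) = z ^ k • y := by
      intro y hy
      rw [smul_smul, inv_mul_cancel_right, mul_smul, hy]
    have eb : ∀ y : V, (z ^ k * t * (z ^ k)⁻¹) • y = y → t • ((z ^ k)⁻¹ • y) = (z ^ k)⁻¹ • y := by
      intro y hy
      rw [mul_smul, mul_smul] at hy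
      exact (inv_smul_eq_iff.2 hy.symm).symm
    exact (Nat.card_congr
      { toFun := fun y : {y : V // t • y = y} =>
          (⟨z ^ k • (y : V), ea y y.2⟩ : {y : V // (z ^ k * t * (z ^ k)⁻¹) • y = y})
        invFun := fun y => ⟨(z ^ k)⁻¹ • (y : V), eb y y.2⟩
        left_inv := fun y => Subtype.ext (inv_smul_smul (z ^ k) (y : V))
        right_inv := fun y => Subtype.ext (smul_inv_smul (z ^ k) (y : V)) }).symm
  have hsum := S.sum_fixed Q 2 hh
  rw [hV, ← Finset.add_sum_erase _ _ (Finset.mem_univ (1 : Q))] at hsum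
  have h1 : Nat.card {y : V // ((1 : Q) : G) • y = y} = 56 := by
    rw [← hV]
    exact Nat.card_congr (Equiv.subtypeUnivEquiv fun y => by
      rw [Subgroup.coe_one, one_smul])
  have h1' : ∑ g ∈ Finset.univ.erase (1 : Q), Nat.card {y : V // (g : G) • y = y} =
      ∑ g ∈ Finset.univ.erase (1 : Q), Nat.card {y : V // t • y = y} :=
    Finset.sum_congr rfl fun g hg => hconj g g.2 fun h => (Finset.ne_of_mem_erase hg)
      (Subtype.ext h)
  rw [h1, h1', Finset.sum_const, Finset.card_erase_of_mem (Finset.mem_univ _),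
    Finset.card_univ, ← Nat.card_eq_fintype_card, hQ8, smul_eq_mul] at hsum
  have hα : Nat.card {y : V // t • y = y} = 8 := by omega
  have htt : t * t = 1 := by
    rcases htu (t * t) (Q.mul_mem htQ htQ) (by rw [mul_smul, htx, htx]) with h | h
    · exact h
    · exact absurd (mul_eq_left.1 h) ht1
  have hinv := card_fix_involution S.geo (fun y => t • y)
    (fun y => by rw [smul_smul, htt, one_smul]) (fun a b h => S.aut t a b h) x htx
  rw [hα] at hinv
  have hf : Nat.card {y : V // y ≠ x ∧ B x y ∧ t • y = y} = 2 := by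
    have : Nat.card {y : V // y ≠ x ∧ B x y ∧ t • y = y} ^ 2 = 2 ^ 2 := by omega
    exact Nat.pow_left_injective (n := 2) (by norm_num) this
  have hN := S.geo.card x
  -- the finset versions
  have hcard : ∀ (p : V → Prop) [DecidablePred p], Nat.card {y : V // p y} = (Finset.univ.filter p).card := by
    intro p _
    rw [Nat.card_eq_fintype_card, Fintype.card_subtype]
  rw [hcard] at hf hN
  have hY : (Finset.univ.filter fun y : V => y ≠ x ∧ B x y ∧ t • y ≠ y).card = 8 := by
    have h2 : (Finset.univ.filter fun y : V => B x y) =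
        insert x ((Finset.univ.filter fun y : V => y ≠ x ∧ B x y ∧ t • y = y) ∪
          (Finset.univ.filter fun y : V => y ≠ x ∧ B x y ∧ t • y ≠ y)) := by
      ext y
      simp only [Finset.mem_filter, Finset.mem_univ, true_and, Finset.mem_insert, Finset.mem_union]
      constructor
      · intro h
        by_cases h3 : y = x
        · exact Or.inl h3
        · by_cases h4 : t • y = y
          · exact Or.inr (Or.inl ⟨h3, h, h4⟩)
          · exact Or.inr (Or.inr ⟨h3, h, h4⟩)
      · rintro (rfl | h | h)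
        · exact S.geo.refl y
        · exact h.2.1
        · exact h.2.1
    rw [h2, Finset.card_insert_of_notMem (by simp), Finset.card_union_of_disjoint, hf] at hN
    · omega
    · rw [Finset.disjoint_left]
      intro y hy hy'
      simp only [Finset.mem_filter, Finset.mem_univ, true_and] at hy hy'
      exact hy'.2.2 hy.2.2
  -- the orbit of `x`
  let O : Finset V := Finset.univ.filter fun y => y ≠ x ∧ ∃ g ∈ Q, g • x = y
  have hO : O.card ≤ 3 := by
    have h2 : Nat.card (MulAction.orbit Q x) * Nat.card (MulAction.stabilizer Q x) = Nat.card Q := by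
      have := MulAction.card_orbit_mul_card_stabilizer_eq_card_group Q x
      simpa [Nat.card_eq_fintype_card] using this
    have h3 : Nat.card (MulAction.stabilizer Q x) = 2 := by
      rw [← hh x]
      refine Nat.card_congr ⟨fun g => ⟨(g : Q), Subgroup.mem_inf.2 ⟨(g : Q).2, g.2⟩⟩,
        fun g => ⟨⟨g, (Subgroup.mem_inf.1 g.2).1⟩, (Subgroup.mem_inf.1 g.2).2⟩, fun g => rfl,
        fun g => rfl⟩
    rw [h3, hQ8] at h2
    have h4 : (insert x O).card ≤ Nat.card (MulAction.orbit Q x) := by
      rw [Nat.card_coe_set_eq, ← Set.ncard_coe_finset]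
      refine Set.ncard_le_ncard ?_ (Set.toFinite _)
      intro y hy
      rw [Finset.mem_coe, Finset.mem_insert] at hy
      rcases hy with rfl | hy
      · exact MulAction.mem_orbit_self _
      · simp only [O, Finset.mem_filter, Finset.mem_univ, true_and] at hy
        obtain ⟨-, g, hg, hgx⟩ := hy
        exact ⟨⟨g, hg⟩, hgx⟩
    rw [Finset.card_insert_of_notMem (by simp [O])] at h4
    omega
  have hsub : (Finset.univ.filter fun y : V => y ≠ x ∧ B x y ∧ t • y ≠ y) ⊆
      O.biUnion fun x' => Finset.univ.filter fun u : V => B x u ∧ B u x' := by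
    intro y hy
    simp only [Finset.mem_filter, Finset.mem_univ, true_and] at hy
    obtain ⟨hy1, hy2, hy3⟩ := hy
    obtain ⟨u, huQ, hu1, huy, -⟩ := hst y
    rw [Finset.mem_biUnion]
    refine ⟨u • x, ?_, ?_⟩
    · simp only [O, Finset.mem_filter, Finset.mem_univ, true_and]
      refine ⟨fun h => ?_, u, huQ, rfl⟩
      rcases htu u huQ h with h2 | h2
      · exact hu1 h2
      · rw [h2] at huy
        exact hy3 huy
    · simp only [Finset.mem_filter, Finset.mem_univ, true_and]
      refine ⟨hy2, S.geo.symm _ _ ?_⟩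
      have := S.aut u x y hy2
      rwa [huy] at this
  have hle := (Finset.card_le_card hsub).trans
    (Finset.card_biUnion_le_card_mul O _ 2 fun x' hx' => by
      simp only [O, Finset.mem_filter, Finset.mem_univ, true_and] at hx'
      rw [← hcard, S.geo.two x x' (Ne.symm hx'.1)])
  rw [hY] at hle
  omega

end SRT
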