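import Pool.Agent.SRT.A1c
import Pool.Agent.SRT.B2
import Pool.Agent.SRT.B3
import Pool.Agent.SRT.B4
import Pool.Agent.SRT.C3
import Pool.Agent.SRT.C4c
import Pool.Agent.SRT.E3b
import Pool.Agent.SRT.F1d
import Pool.Agent.SRT.F2a
import Pool.Agent.SRT.F2b
import Pool.Agent.SRT.G1
import Pool.Agent.SRT.G2a
import Pool.Agent.SRT.G2b
import Pool.Agent.SRT.G3b
import Pool.Agent.SRC.N1

set_option autoImplicit false

namespace SRT

open SRC

variable {G V : Type*} [Group G] [Finite G] [MulAction G V] [Finite V] [Nonempty V]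
  {B : V → V → Prop} {n : ℕ}

theorem odd_of_dvd_odd {P m : ℕ} (hP : Odd P) (h : m ∣ P) : Odd m := by
  rcases Nat.even_or_odd m with h1 | h1
  · exfalso
    have h2 : 2 ∣ P := (even_iff_two_dvd.1 h1).trans h
    exact (Nat.not_even_iff_odd.2 hP) (even_iff_two_dvd.2 h2)
  · exact h1

theorem odd_dvd_of_dvd_two_pow_mul {m k P : ℕ} (hm : Odd m) (h : m ∣ 2 ^ k * P) : m ∣ P := by
  have : Nat.Coprime m (2 ^ k) := Nat.Coprime.pow_right _ (Nat.coprime_two_right.2 hm)
  exact this.dvd_of_dvd_mul_left h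

/-- elements of order `p ∣ P1`: `NN = N1` -/
theorem Sit.NN_N1 (S : Sit G V B n) {v : ℕ} {s : ℤ} {N1 N2 i j P1 P2 : ℕ} (hs : s = n ∨ s = -n)
    (d : Dat v s N1 N2 i j P1 P2) (p : ℕ) (hp : p.Prime) (hp2 : p ≠ 2) (hpP : p ∣ P1) (x : G)
    (hx : orderOf x = p) : NN B x = N1 := by
  have hd : (p : ℤ) ∣ (N1 : ℤ) := by
    have : p ∣ N1 := by rw [d.h1]; exact Dvd.dvd.mul_left hpP _
    exact_mod_cast this
  have e := d.e1
  rcases hs with rfl | rfl
  · have h1 := S.NN_eq p hp hp2 (-1) (Or.inr rfl) (by rw [e] at hd; convert hd using 1; ring) x hx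
    have : (NN B x : ℤ) = N1 := by rw [h1, e]; ring
    exact_mod_cast this
  · have h1 := S.NN_eq p hp hp2 1 (Or.inl rfl) (by rw [e] at hd; convert hd using 1; ring) x hx
    have : (NN B x : ℤ) = N1 := by rw [h1, e]; ring
    exact_mod_cast this

/-- elements of order `p ∣ P2`: `NN = N2` -/
theorem Sit.NN_N2 (S : Sit G V B n) {v : ℕ} {s : ℤ} {N1 N2 i j P1 P2 : ℕ} (hs : s = n ∨ s = -n)
    (d : Dat v s N1 N2 i j P1 P2) (p : ℕ) (hp : p.Prime) (hp2 : p ≠ 2) (hpP : p ∣ P2) (x : G)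
    (hx : orderOf x = p) : NN B x = N2 := by
  have hd : (p : ℤ) ∣ (N2 : ℤ) := by
    have : p ∣ N2 := by rw [d.h2]; exact Dvd.dvd.mul_left hpP _
    exact_mod_cast this
  have e := d.e2
  rcases hs with rfl | rfl
  · have h1 := S.NN_eq p hp hp2 1 (Or.inl rfl) (by rw [e] at hd; convert hd using 1; ring) x hx
    have : (NN B x : ℤ) = N2 := by rw [h1, e]; ring
    exact_mod_cast this
  · have h1 := S.NN_eq p hp hp2 (-1) (Or.inr rfl) (by rw [e] at hd; convert hd using 1; ring) x hx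
    have : (NN B x : ℤ) = N2 := by rw [h1, e]; ring
    exact_mod_cast this

theorem Sit.hyp (S : Sit G V B n) {s : ℤ} {N1 N2 i j P1 P2 : ℕ} (hs : s = n ∨ s = -n)
    (d : Dat (Nat.card V) s N1 N2 i j P1 P2) : Hyp G (Nat.card V) P1 P2 := by
  obtain ⟨x₀⟩ := (inferInstance : Nonempty V)
  refine ⟨?_, ?_, ?_⟩
  · obtain ⟨e, -, he⟩ := S.card_group x₀
    exact ⟨e, he⟩
  · intro p hp hp2 hpP x hx m hm hmd
    have h1 := S.dvd_NN x m hm hmd
    rw [S.NN_N1 hs d p hp hp2 hpP x hx, d.h1] at h1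
    exact odd_dvd_of_dvd_two_pow_mul hm h1
  · intro p hp hp2 hpP x hx m hm hmd
    have h1 := S.dvd_NN x m hm hmd
    rw [S.NN_N2 hs d p hp hp2 hpP x hx, d.h2] at h1
    exact odd_dvd_of_dvd_two_pow_mul hm h1

/-- the inequality in the form with `h = 2 ^ η` -/
theorem Sit.ineq2' (S : Sit G V B n) (Q : Subgroup G) (hQ2 : IsPGroup 2 Q) (a η : ℕ)
    (hh : ∀ x : V, Nat.card ↥(Q ⊓ MulAction.stabilizer G x) = 2 ^ η)
    (hQ : Nat.card Q = 2 ^ a * 2 ^ η) :
    2 ^ η * (n ^ 2 + 2) ^ 2 ≤ (n ^ 2 + 2 ^ (a + 1)) * (n ^ 2 + 2 + (2 ^ η - 1) * (n + 2)) :=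
  S.ineq2 Q hQ2 a (2 ^ η) hh hQ

/-- `2 ^ a ∣ 2 ^ b * P`, `P` odd -/
theorem le_of_two_pow_dvd {a b P : ℕ} (hP : Odd P) (h : 2 ^ a ∣ 2 ^ b * P) : a ≤ b := by
  have h1 : Nat.Coprime (2 ^ a) P := Nat.Coprime.pow_left _ (Nat.coprime_two_left.2 hP)
  exact (Nat.pow_dvd_pow_iff_le_right (by norm_num)).1 (h1.dvd_of_dvd_mul_right h)

theorem t_le {t c N b : ℕ} (hc : 0 < c) (h : 2 ^ t * c = N) (hN : N ≤ 2 ^ b) : t ≤ b := by
  have h1 : 2 ^ t ≤ 2 ^ b := by
    calc 2 ^ t ≤ 2 ^ t * c := Nat.le_mul_of_pos_right _ hc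
      _ ≤ 2 ^ b := by rw [h]; exact hN
  exact (Nat.pow_le_pow_iff_right (by norm_num)).1 h1

theorem card_R_eq {Q R : Subgroup G} {p : ℕ} (hp : p.Prime) (hp2 : p ≠ 2) (hQn : Q.Normal)
    (hR : Elem Q R p) (e f P : ℕ) (hP : ¬ p ∣ P) (hG : Nat.card G = 2 ^ e * (2 ^ f * (p * P))) :
    Nat.card R = p * Nat.card Q := by
  obtain ⟨k, hk, hcard⟩ := relIndex_eq_pow Q R p hp hQn hR
  have hk1 : k = 1 := by
    by_contra hne
    have hk2 : 2 ≤ k := by omega
    have h1 : p ^ 2 ∣ Nat.card G := by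
      calc p ^ 2 ∣ p ^ k := pow_dvd_pow p hk2
        _ ∣ Nat.card R := by rw [hcard]; exact dvd_mul_right _ _
        _ ∣ Nat.card G := Subgroup.card_subgroup_dvd_card R
    have h2 : Nat.card G = p * (2 ^ (e + f) * P) := by rw [hG, pow_add]; ring
    rw [h2, pow_two] at h1
    have h3 : p ∣ 2 ^ (e + f) * P := Nat.dvd_of_mul_dvd_mul_left hp.pos h1
    rcases (Nat.Prime.dvd_mul hp).1 h3 with h4 | h4
    · exact hp2 ((Nat.prime_dvd_prime_iff_eq hp Nat.prime_two).1 (hp.dvd_of_dvd_pow h4))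
    · exact hP h4
  rw [hcard, hk1, pow_one]

/-- `n = 3` -/
theorem Sit.case_three (S : Sit G V B 3) (hs : Group.IsSolvable G) : False := by
  have hV : Nat.card V = 56 := by
    have := S.geo.two_mul_card'
    norm_num at this
    omega
  obtain ⟨x₀⟩ := (inferInstance : Nonempty V)
  obtain ⟨Q, a, η, hQ, hC, hh, hcQ, haV⟩ := S.exists_core (by norm_num) hs
  have hQn := hQ.normal
  obtain ⟨R, p, z, t, hp, hp2, hpV, hR, hzR, hz, ht1, htc, htp⟩ :=
    S.exists_pkg hs 7 (by norm_num) (by norm_num) (by rw [hV]; norm_num) Q hQ hC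
  have hp7 : p = 7 := by
    rw [hV, show (56 : ℕ) = 2 ^ 3 * 7 by norm_num] at hpV
    rcases (Nat.Prime.dvd_mul hp).1 hpV with h | h
    · exact absurd ((Nat.prime_dvd_prime_iff_eq hp Nat.prime_two).1 (hp.dvd_of_dvd_pow h)) hp2
    · exact (Nat.prime_dvd_prime_iff_eq hp (by norm_num)).1 h
  subst hp7
  have ha : a ≤ 3 := by
    apply le_of_two_pow_dvd (P := 7) (by decide)
    rw [hV] at haV
    norm_num
    exact haV
  obtain ⟨e, -, hG⟩ := S.card_group x₀
  have hRc : Nat.card R = 7 * Nat.card Q :=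
    card_R_eq hp hp2 hQn hR e 3 1 (by norm_num) (by rw [hG, hV]; norm_num)
  rcases Nat.lt_or_ge a 3 with ha2 | ha3
  · have hn := num3 a η (by omega) (S.ineq2' Q hQ.two a η hh hcQ)
    have hcpos : 0 < Nat.card ↥(Q ⊓ Subgroup.centralizer ({z} : Set G)) := Nat.card_pos
    rcases hn with hn | ⟨rfl, rfl⟩
    · have ht2 : t ≤ 2 := t_le hcpos htc (by rw [hcQ]; exact hn)
      have := (ord_facts t ht1).2.2.2.2 (by omega) htp
      omega
    · have hQ8 : Nat.card Q = 8 := by rw [hcQ]; norm_num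
      have ht3 : t ≤ 3 := t_le hcpos htc (by rw [hQ8]; norm_num)
      have h3 := (ord_facts t ht1).2.2.2.2 ht3 htp
      subst h3
      refine S.three_special Q hQn hQ8 (fun x => by rw [hh x]; norm_num) z hz ?_
      rw [hQ8] at htc
      omega
  · have ha' : a = 3 := by omega
    subst ha'
    have htr := S.R_trans Q R 7 3 η (by decide) hR.le hR.pow_mem hh hcQ hRc
      (by rw [hV]; norm_num)
    have := S.R_ineq (by norm_num) Q R 7 14 hp hp2 hR.le hR.pow_mem hRc htr ?_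
    · norm_num at this
    · intro m hm hm2
      obtain ⟨c, rfl⟩ := hm
      have h2 := hm2.dvd
      rcases Nat.lt_or_ge c 2 with h | h
      · exfalso
        interval_cases c
        · norm_num at h2
        · norm_num at h2
      · omega

/-- `p ∣ |V|` with `|V| = 2 ^ m * P`: `p ∣ P` -/
theorem dvd_odd_part {p m P : ℕ} (hp : p.Prime) (hp2 : p ≠ 2) (h : p ∣ 2 ^ m * P) : p ∣ P := by
  rcases (Nat.Prime.dvd_mul hp).1 h with h | h
  · exact absurd ((Nat.prime_dvd_prime_iff_eq hp Nat.prime_two).1 (hp.dvd_of_dvd_pow h)) hp2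
  · exact h

/-- `n = 5` -/
theorem Sit.case_five (S : Sit G V B 5) (hs : Group.IsSolvable G) : False := by
  have hV : Nat.card V = 352 := by
    have := S.geo.two_mul_card'
    norm_num at this
    omega
  obtain ⟨Q, a, η, hQ, hC, hh, hcQ, haV⟩ := S.exists_core (by norm_num) hs
  obtain ⟨R, p, z, t, hp, hp2, hpV, hR, hzR, hz, ht1, htc, htp⟩ :=
    S.exists_pkg hs 11 (by norm_num) (by norm_num) (by rw [hV]; norm_num) Q hQ hC
  have hp11 : p = 11 := by
    rw [hV, show (352 : ℕ) = 2 ^ 5 * 11 by norm_num] at hpV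
    exact (Nat.prime_dvd_prime_iff_eq hp (by norm_num)).1 (dvd_odd_part hp hp2 hpV)
  subst hp11
  have ha : a ≤ 5 := by
    apply le_of_two_pow_dvd (P := 11) (by decide)
    rw [hV] at haV
    norm_num
    exact haV
  have hcpos : 0 < Nat.card ↥(Q ⊓ Subgroup.centralizer ({z} : Set G)) := Nat.card_pos
  have hn := num5 a η ha (S.ineq2' Q hQ.two a η hh hcQ)
  have ht9 : t ≤ 9 := t_le hcpos htc (by rw [hcQ]; exact hn)
  exact (ord_facts t ht1).1 ht9 htp

/-- `n = 90` -/
theorem Sit.case_ninety (S : Sit G V B 90) (hs : Group.IsSolvable G) : False := by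
  have hV : Nat.card V = 2 ^ 14 * 2003 := by
    have := S.geo.two_mul_card'
    norm_num at this ⊢
    omega
  have hp2003 : Nat.Prime 2003 := by norm_num
  obtain ⟨Q, a, η, hQ, hC, hh, hcQ, haV⟩ := S.exists_core (by norm_num) hs
  obtain ⟨R, p, z, t, hp, hp2, hpV, hR, hzR, hz, ht1, htc, htp⟩ :=
    S.exists_pkg hs 2003 hp2003 (by norm_num) (by rw [hV]; exact dvd_mul_left _ _) Q hQ hC
  have hp' : p = 2003 := by
    rw [hV] at hpV
    exact (Nat.prime_dvd_prime_iff_eq hp hp2003).1 (dvd_odd_part hp hp2 hpV)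
  subst hp'
  have ha : a ≤ 14 := by
    apply le_of_two_pow_dvd (P := 2003) (by decide)
    rw [hV] at haV
    exact haV
  have hcpos : 0 < Nat.card ↥(Q ⊓ Subgroup.centralizer ({z} : Set G)) := Nat.card_pos
  have hn := num90 a η ha (S.ineq2' Q hQ.two a η hh hcQ)
  have ht9 : t ≤ 16 := t_le hcpos htc (by rw [hcQ]; exact hn)
  exact (ord_facts t ht1).2.1 ht9 htp

/-- `n = 91` -/
theorem Sit.case_ninetyone (S : Sit G V B 91) (hs : Group.IsSolvable G) : False := by
  have hV : Nat.card V = 2 ^ 13 * (53 * 79) := by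
    have := S.geo.two_mul_card'
    norm_num at this ⊢
    omega
  have hp53 : Nat.Prime 53 := by norm_num
  have hp79 : Nat.Prime 79 := by norm_num
  obtain ⟨Q, a, η, hQ, hC, hh, hcQ, haV⟩ := S.exists_core (by norm_num) hs
  obtain ⟨R, p, z, t, hp, hp2, hpV, hR, hzR, hz, ht1, htc, htp⟩ :=
    S.exists_pkg hs 53 hp53 (by norm_num) (by rw [hV]; norm_num) Q hQ hC
  have hp' : p = 53 ∨ p = 79 := by
    rw [hV] at hpV
    rcases (Nat.Prime.dvd_mul hp).1 (dvd_odd_part hp hp2 hpV) with h | h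
    · exact Or.inl ((Nat.prime_dvd_prime_iff_eq hp hp53).1 h)
    · exact Or.inr ((Nat.prime_dvd_prime_iff_eq hp hp79).1 h)
  have ha : a ≤ 13 := by
    apply le_of_two_pow_dvd (P := 53 * 79) (by decide)
    rw [hV] at haV
    exact haV
  have hcpos : 0 < Nat.card ↥(Q ⊓ Subgroup.centralizer ({z} : Set G)) := Nat.card_pos
  have hn := num91 a η ha (S.ineq2' Q hQ.two a η hh hcQ)
  have ht9 : t ≤ 14 := t_le hcpos htc (by rw [hcQ]; exact hn)
  rcases hp' with rfl | rfl
  · exact (ord_facts t ht1).2.2.1 ht9 htp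
  · exact (ord_facts t ht1).2.2.2.1 ht9 htp

/-- `n = 6` -/
theorem Sit.case_six (S : Sit G V B 6) (hs : Group.IsSolvable G) : False := by
  have hV : Nat.card V = 704 := by
    have := S.geo.two_mul_card'
    norm_num at this
    omega
  obtain ⟨x₀⟩ := (inferInstance : Nonempty V)
  obtain ⟨Q, a, η, hQ, hC, hh, hcQ, haV⟩ := S.exists_core (by norm_num) hs
  have hQn := hQ.normal
  obtain ⟨R, p, z, t, hp, hp2, hpV, hR, hzR, hz, ht1, htc, htp⟩ :=
    S.exists_pkg hs 11 (by norm_num) (by norm_num) (by rw [hV]; norm_num) Q hQ hC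
  have hp11 : p = 11 := by
    rw [hV, show (704 : ℕ) = 2 ^ 6 * 11 by norm_num] at hpV
    exact (Nat.prime_dvd_prime_iff_eq hp (by norm_num)).1 (dvd_odd_part hp hp2 hpV)
  subst hp11
  have ha : a ≤ 6 := by
    apply le_of_two_pow_dvd (P := 11) (by decide)
    rw [hV] at haV
    norm_num
    exact haV
  obtain ⟨e, -, hG⟩ := S.card_group x₀
  have hRc : Nat.card R = 11 * Nat.card Q :=
    card_R_eq hp hp2 hQn hR e 6 1 (by norm_num) (by rw [hG, hV]; norm_num)
  rcases Nat.lt_or_ge a 6 with ha2 | ha3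
  · have hn := num6 a η (by omega) (S.ineq2' Q hQ.two a η hh hcQ)
    have hcpos : 0 < Nat.card ↥(Q ⊓ Subgroup.centralizer ({z} : Set G)) := Nat.card_pos
    have ht2 : t ≤ 7 := t_le hcpos htc (by rw [hcQ]; exact hn)
    exact (ord_facts t ht1).1 (by omega) htp
  · have ha' : a = 6 := by omega
    subst ha'
    have htr := S.R_trans Q R 11 6 η (by decide) hR.le hR.pow_mem hh hcQ hRc
      (by rw [hV]; norm_num)
    have := S.R_ineq (by norm_num) Q R 11 44 hp hp2 hR.le hR.pow_mem hRc htr ?_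
    · norm_num at this
    · intro m hm hm2
      obtain ⟨c, rfl⟩ := hm
      have h2 := hm2.dvd
      rcases Nat.lt_or_ge c 4 with h | h
      · exfalso
        interval_cases c
        · norm_num at h2
        · norm_num at h2
        · norm_num at h2
        · norm_num at h2
      · omega

/-- the core theorem -/
theorem Sit.false (S : Sit G V B n) (hn : 3 ≤ n) (hs : Group.IsSolvable G) : False := by
  obtain ⟨x₀⟩ := (inferInstance : Nonempty V)
  rcases Nat.lt_or_ge n 5 with h5 | h5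
  · have : n = 3 ∨ n = 4 := by omega
    rcases this with rfl | rfl
    · exact S.case_three hs
    · exact S.geo.four_not_dvd (by norm_num) (dvd_refl 4)
  obtain ⟨s, N1, N2, i, j, P1, P2, hsn, d⟩ := exists_dat (Nat.card V) n h5
    (S.geo.four_not_dvd (by omega)) S.geo.two_mul_card'
  have hyp := S.hyp hsn d
  by_cases hP2 : P2 = 1
  · rcases cases_of_P2_eq_one d hP2 with ⟨h, -⟩ | ⟨h, -⟩ | ⟨h, -⟩ | ⟨h, -⟩
    · have : n = 5 := by omega
      subst this
      exact S.case_five hs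
    · have : n = 6 := by omega
      subst this
      exact S.case_six hs
    · have : n = 90 := by omega
      subst this
      exact S.case_ninety hs
    · have : n = 91 := by omega
      subst this
      exact S.case_ninetyone hs
  · obtain ⟨Q, a, η, hQ, hC, hh, hcQ, haV⟩ := S.exists_core (by omega) hs
    have ha : a ≤ i + j - 1 := by
      apply le_of_two_pow_dvd (P := P1 * P2) (d.odd1.mul d.odd2)
      rw [← d.card_eq]
      exact haV
    have hη : η = 0 := by
      by_contra hne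
      refine h_eq_one d n hsn a η ha hP2 (by omega) ?_ (S.ineq2' Q hQ.two a η hh hcQ)
      have := S.ineq1 (by omega) Q a (2 ^ η) hh hcQ
      push_cast at this
      exact this
    subst hη
    have hP2' : 1 < P2 := by
      rcases Nat.eq_zero_or_pos P2 with h | h
      · exfalso
        rw [h] at d
        exact (by decide : ¬ Odd 0) d.odd2
      · omega
    refine case_P2_gt_one hs d hyp hP2' Q hQ hC ?_
    intro p hp hp2 hpP z hz
    have h1 := S.card_fix_le Q hQ.two 1 (fun x => by rw [hh x]; norm_num) z i P1 d.odd1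
      (by rw [S.NN_N1 hsn d p hp hp2 hpP z hz, d.h1])
    have h2 : IsPGroup 2 ↥(Q ⊓ Subgroup.centralizer ({z} : Set G)) :=
      hQ.two.to_le inf_le_left
    obtain ⟨c, hc⟩ := (IsPGroup.iff_card (p := 2)).1 h2
    rw [hc] at h1 ⊢
    have h3 : 2 ^ c ≤ 2 ^ i := by omega
    have h4 : c ≤ i := (Nat.pow_le_pow_iff_right (by norm_num)).1 h3
    have h5 : i ≤ 2 := by rcases d.hi with h | h <;> omega
    exact pow_dvd_pow 2 (show c ≤ 2 by omega)

end SRT
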