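import Pool.Agent.SRT.H1
import Pool.Agent.SRT.D3b
import Pool.Agent.SRT.D4a
import Pool.Agent.SRT.D4b

set_option autoImplicit false

namespace SRT

universe u

theorem noSolv (N : ℕ) : NoSolv.{u} N := by
  induction N using Nat.strong_induction_on with
  | _ N IH =>
    intro V _ _ B n hN hn hgeo G hs haut htr
    have hV0 : 0 < Nat.card V := Nat.card_pos
    -- a Hall subgroup
    obtain ⟨H, hH1, hH2⟩ := exists_hall (G := G) hs (Nat.card V) hV0
    have htrG : ∀ x y : V, ∃ g : G, g • x = y := by
      intro x y
      obtain ⟨g, hg, hgx⟩ := htr x y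
      exact ⟨⟨g, hg⟩, hgx⟩
    have hHtr := hall_trans htrG H hH1 hH2
    -- as a subgroup of `Perm V`
    let K : Subgroup (Equiv.Perm V) := H.map G.subtype
    have hKs : Group.IsSolvable K := by
      have e : H ≃* K := H.equivMapOfInjective G.subtype G.subtype_injective
      exact Group.isSolvable_of_surjective (f := (e : H →* K)) e.surjective
    have hKG : K ≤ G := by
      rintro g ⟨h, -, rfl⟩
      exact h.2
    have hKaut : ∀ g ∈ K, ∀ x y, B x y → B (g x) (g y) := fun g hg => haut g (hKG hg)
    have hKtr : ∀ x y : V, ∃ g ∈ K, g x = y := by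
      intro x y
      obtain ⟨g, hg, hgx⟩ := hHtr x y
      exact ⟨g.1, ⟨g, hg, rfl⟩, hgx⟩
    have hKcard : Nat.card K = Nat.card H :=
      Nat.card_congr (H.equivMapOfInjective G.subtype G.subtype_injective).symm.toEquiv
    have hKpi : ∀ p : ℕ, p.Prime → p ∣ Nat.card K → p ∣ Nat.card V := by
      intro p hp hpK
      rw [hKcard] at hpK
      exact hH1 p hp hpK
    have S : Sit K V B n :=
      { aut := fun g x y hxy => hKaut g.1 g.2 x y hxy
        faithful := by
          intro g hg
          ext x
          exact hg x
        trans := by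
          intro x y
          obtain ⟨g, hg, hgx⟩ := hKtr x y
          exact ⟨⟨g, hg⟩, hgx⟩
        geo := hgeo
        stab := stab_two_group V B n hn hgeo (fun M hM => IH M (by omega)) K hKs hKaut hKtr hKpi }
    exact S.false hn hKs

end SRT
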