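import Pool.Agent.SRT.A1a

set_option autoImplicit false

namespace SRT

variable {V : Type*} [Fintype V] {B : V → V → Prop} {n : ℕ}

theorem w1_ite (p : V → Prop) [DecidablePred p] :
    ∑ y : V, (if p y then 1 else 0) = Nat.card {y : V // p y} := by
  rw [Finset.sum_boole, Nat.card_eq_fintype_card, Fintype.card_subtype]
  simp

/-- PROOF. Induction on `L`: `∑_x wk (L+1) x z = ∑_y #{x : B x y} wk L y z = (n^2+2) ∑_y wk L y z`
(`Finset.sum_comm`; `#{x : B x y} = #{x : B y x} = n^2+2` by symmetry, `sum_ite`). -/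
theorem wk_sum (h : Geo B (n ^ 2 + 2)) (L : ℕ) (z : V) :
    ∑ x : V, wk B L x z = (n ^ 2 + 2) ^ L := by
  classical
  induction L with
  | zero => simp [wk]
  | succ L ih =>
    have h1 : ∑ x : V, wk B (L + 1) x z = ∑ y : V, ∑ x : V, if B x y then wk B L y z else 0 := by
      rw [Finset.sum_comm]
      refine Finset.sum_congr rfl (fun x _ => ?_)
      rw [wk]
    rw [h1]
    have h2 : ∀ y ∈ (Finset.univ : Finset V), (∑ x : V, if B x y then wk B L y z else 0)
        = (n ^ 2 + 2) * wk B L y z := by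
      intro y _
      have h3 : ∀ x ∈ (Finset.univ : Finset V), (if B x y then wk B L y z else 0)
          = (if B x y then 1 else 0) * wk B L y z := by
        intro x _
        split_ifs <;> simp
      rw [Finset.sum_congr rfl h3, ← Finset.sum_mul, w1_ite (fun x => B x y)]
      congr 1
      rw [← h.card y]
      apply Nat.card_congr
      exact Equiv.subtypeEquivRight (fun x => ⟨fun hx => h.symm _ _ hx, fun hx => h.symm _ _ hx⟩)
    rw [Finset.sum_congr rfl h2, ← Finset.mul_sum, ih]
    ring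

/-- PROOF. `wk (L+2) x z = ∑_w #{y : B x y ∧ B y w} wk L w z` (`Finset.sum_comm`), and the count is
`2` for `w ≠ x`, `n^2+2` for `w = x`; so it is `n^2 * wk L x z + 2 * ∑_w wk L w z` (`wk_sum`). -/
theorem wk_add_two (h : Geo B (n ^ 2 + 2)) (L : ℕ) (x z : V) :
    wk B (L + 2) x z = n ^ 2 * wk B L x z + 2 * (n ^ 2 + 2) ^ L := by
  classical
  have h1 : wk B (L + 2) x z
      = ∑ y : V, ∑ w : V, if B x y ∧ B y w then wk B L w z else 0 := by
    rw [wk]
    refine Finset.sum_congr rfl (fun y _ => ?_)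
    by_cases hy : B x y
    · rw [if_pos hy, wk]
      refine Finset.sum_congr rfl (fun w _ => ?_)
      by_cases hw : B y w
      · simp [hy, hw]
      · simp [hw]
    · rw [if_neg hy]
      symm
      apply Finset.sum_eq_zero
      intro w _
      simp [hy]
  rw [h1, Finset.sum_comm]
  have h2 : ∀ w ∈ (Finset.univ : Finset V), (∑ y : V, if B x y ∧ B y w then wk B L w z else 0)
      = (if x = w then n ^ 2 * wk B L x z else 0) + 2 * wk B L w z := by
    intro w _
    have h3 : ∀ y ∈ (Finset.univ : Finset V), (if B x y ∧ B y w then wk B L w z else 0)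
        = (if B x y ∧ B y w then 1 else 0) * wk B L w z := by
      intro y _
      split_ifs <;> simp
    rw [Finset.sum_congr rfl h3, ← Finset.sum_mul, w1_ite (fun y => B x y ∧ B y w)]
    by_cases hxw : x = w
    · subst hxw
      have h4 : Nat.card {y : V // B x y ∧ B y x} = n ^ 2 + 2 := by
        rw [← h.card x]
        apply Nat.card_congr
        exact Equiv.subtypeEquivRight (fun y => ⟨fun hy => hy.1, fun hy => ⟨hy, h.symm _ _ hy⟩⟩)
      rw [h4, if_pos rfl]
      ring
    · rw [h.two x w hxw, if_neg hxw, zero_add]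
  rw [Finset.sum_congr rfl h2, Finset.sum_add_distrib, ← Finset.mul_sum, wk_sum h]
  simp

/-- PROOF. Induction on `m`.  `m = 0`: `wk B 1 x z = if B x z then 1 else 0`, so
`∑_x wk B 1 x (g x) = NN B g`.  Step: by `wk_add_two`,
`S_{m+1} = n^2 S_m + 2 |V| (n^2+2)^(2m+1)` and `2 |V| + n^2 = (n^2+2)^2` (`Geo.two_mul_card'`). -/
theorem sum_wk {G : Type*} [Group G] [MulAction G V] [Nonempty V] (h : Geo B (n ^ 2 + 2)) (m : ℕ)
    (g : G) :
    ∑ x : V, wk B (2 * m + 1) x (g • x) + n ^ (2 * m) * (n ^ 2 + 2) =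
      n ^ (2 * m) * NN B g + (n ^ 2 + 2) ^ (2 * m + 1) := by
  classical
  induction m with
  | zero =>
    have h1 : ∀ x z : V, wk B 1 x z = if B x z then 1 else 0 := by
      intro x z
      rw [wk]
      by_cases hxz : B x z
      · rw [if_pos hxz, Finset.sum_eq_single z]
        · simp [wk, hxz]
        · intro y _ hy
          simp [wk, hy]
        · simp
      · rw [if_neg hxz]
        apply Finset.sum_eq_zero
        intro y _
        by_cases hy : y = z
        · subst hy
          simp [hxz]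
        · simp [wk, hy]
    have h2 : ∑ x : V, wk B 1 x (g • x) = NN B g := by
      rw [NN, ← w1_ite (fun x => B x (g • x))]
      exact Finset.sum_congr rfl (fun x _ => h1 x _)
    simp only [Nat.mul_zero, Nat.zero_add, pow_zero, one_mul, pow_one]
    rw [h2]
  | succ m ih =>
    have h1 : ∑ x : V, wk B (2 * (m + 1) + 1) x (g • x)
        = n ^ 2 * ∑ x : V, wk B (2 * m + 1) x (g • x)
          + Fintype.card V * (2 * (n ^ 2 + 2) ^ (2 * m + 1)) := by
      have h2 : ∀ x ∈ (Finset.univ : Finset V), wk B (2 * (m + 1) + 1) x (g • x)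
          = n ^ 2 * wk B (2 * m + 1) x (g • x) + 2 * (n ^ 2 + 2) ^ (2 * m + 1) := by
        intro x _
        exact wk_add_two h (2 * m + 1) x (g • x)
      rw [Finset.sum_congr rfl h2, Finset.sum_add_distrib, ← Finset.mul_sum, Finset.sum_const,
        Finset.card_univ, smul_eq_mul]
    have hv : 2 * Fintype.card V + n ^ 2 = (n ^ 2 + 2) ^ 2 := by
      have := h.two_mul_card'
      rw [Nat.card_eq_fintype_card] at this
      have e : (n ^ 2 + 2) ^ 2 = n ^ 4 + 4 * n ^ 2 + 4 := by ring
      omega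
    rw [h1]
    have e1 : n ^ (2 * (m + 1)) = n ^ 2 * n ^ (2 * m) := by rw [← pow_add]; congr 1; ring
    have e2 : (n ^ 2 + 2) ^ (2 * (m + 1) + 1) = (n ^ 2 + 2) ^ 2 * (n ^ 2 + 2) ^ (2 * m + 1) := by
      rw [← pow_add]; congr 1; ring
    rw [e1, e2, ← hv]
    calc n ^ 2 * ∑ x : V, wk B (2 * m + 1) x (g • x)
          + Fintype.card V * (2 * (n ^ 2 + 2) ^ (2 * m + 1)) + n ^ 2 * n ^ (2 * m) * (n ^ 2 + 2)
        = n ^ 2 * (∑ x : V, wk B (2 * m + 1) x (g • x) + n ^ (2 * m) * (n ^ 2 + 2))
          + Fintype.card V * (2 * (n ^ 2 + 2) ^ (2 * m + 1)) := by ring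
      _ = _ := by rw [ih]; ring

end SRT
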