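import Pool.Agent.SRT.Defs

set_option autoImplicit false

namespace SRT

/-- PROOF. Induction on `L`.  `L = 0`: a function `w : Fin 1 → V` with `w 0 = x`, `w 0 = z`: exactly
one if `x = z`, none otherwise.  `L + 1`: `w ↦ (y, tail w)` with `y = w 1`, is an equivalence onto
`Σ y : {y // B x y}, {w' : Fin (L+1) → V // w' 0 = y ∧ w' last = z ∧ ...}` (`Fin.cons x w'`);
`Nat.card_sigma`, compare Pool/Agent/SRC/W2a.lean. -/
theorem card_walks {V : Type*} [Fintype V] (B : V → V → Prop) (L : ℕ) (x z : V) :
    Nat.card {w : Fin (L + 1) → V // w 0 = x ∧ w (Fin.last L) = z ∧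
      ∀ i : Fin L, B (w i.castSucc) (w i.succ)} = wk B L x z := by
  classical
  induction L generalizing x with
  | zero =>
    by_cases hx : x = z
    · subst hx
      have : Unique {w : Fin (0 + 1) → V // w 0 = x ∧ w (Fin.last 0) = x ∧
          ∀ i : Fin 0, B (w i.castSucc) (w i.succ)} :=
        { default := ⟨fun _ => x, rfl, rfl, fun i => i.elim0⟩
          uniq := fun w => Subtype.ext (funext fun i => by
            have hi : i = 0 := Fin.ext (by
              have h1 := i.2
              have h2 : ((0 : Fin (0 + 1)) : ℕ) = 0 := rfl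
              omega)
            rw [hi]
            exact w.2.1) }
      rw [Nat.card_unique]
      simp [wk]
    · have : IsEmpty {w : Fin (0 + 1) → V // w 0 = x ∧ w (Fin.last 0) = z ∧
          ∀ i : Fin 0, B (w i.castSucc) (w i.succ)} :=
        ⟨fun w => hx (w.2.1.symm.trans w.2.2.1)⟩
      rw [Nat.card_of_isEmpty]
      simp [wk, hx]
  | succ L ih =>
    let E : {w : Fin (L + 1 + 1) → V // w 0 = x ∧ w (Fin.last (L + 1)) = z ∧
        ∀ i : Fin (L + 1), B (w i.castSucc) (w i.succ)} ≃
        (Σ y : {y : V // B x y}, {w : Fin (L + 1) → V // w 0 = y.1 ∧ w (Fin.last L) = z ∧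
          ∀ i : Fin L, B (w i.castSucc) (w i.succ)}) :=
      { toFun := fun w => ⟨⟨w.1 (Fin.succ 0), by
            have h1 := w.2.2.2 0
            have h2 : w.1 (Fin.castSucc 0) = x := w.2.1
            rw [h2] at h1
            exact h1⟩, ⟨fun i => w.1 i.succ, rfl, w.2.2.1, fun i => w.2.2.2 i.succ⟩⟩
        invFun := fun a => ⟨Fin.cons x a.2.1, by
          refine ⟨Fin.cons_zero _ _, ?_, ?_⟩
          · have h1 : Fin.last (L + 1) = (Fin.last L).succ := rfl
            rw [h1, Fin.cons_succ]
            exact a.2.2.2.1
          · intro i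
            refine Fin.cases ?_ (fun j => ?_) i
            · rw [Fin.castSucc_zero, Fin.cons_zero, Fin.cons_succ, a.2.2.1]
              exact a.1.2
            · rw [← Fin.succ_castSucc, Fin.cons_succ, Fin.cons_succ]
              exact a.2.2.2.2 j⟩
        left_inv := fun w => by
          apply Subtype.ext
          have h1 := Fin.cons_self_tail w.1
          conv_rhs => rw [← h1]
          have h2 : w.1 0 = x := w.2.1
          rw [h2]
          rfl
        right_inv := fun a => by
          obtain ⟨⟨y, hy⟩, w, h0, hl, hs⟩ := a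
          dsimp only at h0
          subst h0
          rfl }
    rw [Nat.card_congr E, Nat.card_sigma]
    rw [Finset.sum_congr rfl (fun a _ => ih _)]
    simp only [wk]
    rw [← Finset.sum_filter, ← Finset.sum_subtype_eq_sum_filter, Finset.subtype_univ]

end SRT
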