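import Pool.Agent.SRT.W2a

set_option autoImplicit false

namespace SRT

/-- the walk determined by its first `L + 1` values -/
private theorem w2b_eq {G V : Type*} [Group G] [MulAction G V] (g : G) (L : ℕ) (y : ℕ → V)
    (hy : ∀ i, y (i + L) = g • y i) (q r : ℕ) : y (q * L + r) = g ^ q • y r := by
  induction q with
  | zero => simp
  | succ q ih =>
    have e : (q + 1) * L + r = (q * L + r) + L := by ring
    rw [e, hy, ih, smul_smul, ← pow_succ']

/-- the finite data of a twisted walk -/
private def w2b_equiv {G V : Type*} [Group G] [MulAction G V] {B : V → V → Prop}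
    (haut : Aut G B) (g : G) (L : ℕ) (hL : 0 < L) :
    TS B g L ≃ (Σ x : V, {w : Fin (L + 1) → V // w 0 = x ∧ w (Fin.last L) = g • x ∧
      ∀ i : Fin L, B (w i.castSucc) (w i.succ)}) where
  toFun y := ⟨y.1 0, fun i => y.1 i, rfl, by
    have h1 := y.2.2 0
    rw [zero_add] at h1
    exact h1, fun i => y.2.1 i⟩
  invFun a := ⟨fun i => g ^ (i / L) • a.2.1 ⟨i % L, (Nat.mod_lt _ hL).trans (Nat.lt_succ_self L)⟩, by
    obtain ⟨x, w, h0, hl, hs⟩ := a
    refine ⟨fun i => ?_, fun i => ?_⟩
    · dsimp only
      have hr : i % L < L := Nat.mod_lt _ hL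
      have hi : i = i / L * L + i % L := (Nat.div_add_mod' i L).symm
      rcases Nat.lt_or_ge (i % L + 1) L with h | h
      · have e1 : (i + 1) / L = i / L := by
          rw [Nat.succ_div_of_not_dvd]
          intro hd
          have h2 := Nat.mod_eq_zero_of_dvd hd
          have h3 : (i + 1) % L = i % L + 1 := by
            rw [Nat.add_mod, Nat.mod_eq_of_lt (show 1 < L by omega), Nat.mod_eq_of_lt h]
          omega
        have e2 : (i + 1) % L = i % L + 1 := by
          rw [Nat.add_mod, Nat.mod_eq_of_lt (show 1 < L by omega), Nat.mod_eq_of_lt h]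
        have h4 := haut (g ^ (i / L)) _ _ (hs ⟨i % L, hr⟩)
        have e3 : (⟨(i + 1) % L, (Nat.mod_lt _ hL).trans (Nat.lt_succ_self L)⟩ : Fin (L + 1)) =
            (⟨i % L, hr⟩ : Fin L).succ := by
          apply Fin.ext
          rw [Fin.val_succ]
          exact e2
        rw [e1, e3]
        exact h4
      · have h5 : i % L + 1 = L := by omega
        have e0 : i + 1 = (i / L + 1) * L := by
          rw [add_mul, one_mul]
          omega
        have e1 : (i + 1) / L = i / L + 1 := by
          rw [e0]
          exact Nat.mul_div_cancel _ hL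
        have e2 : (i + 1) % L = 0 := by
          rw [e0]
          exact Nat.mul_mod_left _ _
        have h4 := haut (g ^ (i / L)) _ _ (hs ⟨i % L, hr⟩)
        have e3 : (⟨(i + 1) % L, (Nat.mod_lt _ hL).trans (Nat.lt_succ_self L)⟩ : Fin (L + 1)) = 0 := by
          apply Fin.ext
          exact e2
        have e4 : (⟨i % L, hr⟩ : Fin L).succ = Fin.last L := by
          apply Fin.ext
          rw [Fin.val_succ, Fin.val_last]
          exact h5
        rw [e4, hl] at h4
        rw [e1, e3, h0, pow_succ, ← smul_smul]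
        exact h4
    · dsimp only
      have e1 : (i + L) / L = i / L + 1 := Nat.add_div_right i hL
      have e2 : (⟨(i + L) % L, (Nat.mod_lt _ hL).trans (Nat.lt_succ_self L)⟩ : Fin (L + 1)) =
          ⟨i % L, (Nat.mod_lt _ hL).trans (Nat.lt_succ_self L)⟩ := by
        apply Fin.ext
        simp
      rw [e1, e2, pow_succ', ← smul_smul]⟩
  left_inv y := by
    apply Subtype.ext
    funext i
    change g ^ (i / L) • y.1 (i % L) = y.1 i
    rw [← w2b_eq g L y.1 y.2.2, Nat.div_add_mod']
  right_inv a := by
    obtain ⟨x, w, h0, hl, hs⟩ := a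
    subst h0
    have h1 : g ^ (0 / L) • w ⟨0 % L, (Nat.mod_lt _ hL).trans (Nat.lt_succ_self L)⟩ = w 0 := by
      rw [Nat.zero_div, pow_zero, one_smul]
      congr 1
    have h2 : (fun i : Fin (L + 1) => g ^ ((i : ℕ) / L) •
        w ⟨(i : ℕ) % L, (Nat.mod_lt _ hL).trans (Nat.lt_succ_self L)⟩) = w := by
      funext i
      rcases Nat.lt_or_ge (i : ℕ) L with h | h
      · rw [Nat.div_eq_of_lt h, pow_zero, one_smul]
        congr 1
        apply Fin.ext
        exact Nat.mod_eq_of_lt h
      · have h3 : (i : ℕ) = L := by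
          have := i.2
          omega
        have h4 : i = Fin.last L := Fin.ext h3
        rw [h4, hl, Fin.val_last, Nat.div_self hL, pow_one]
        congr 2
        apply Fin.ext
        simp
    exact Sigma.subtype_ext h1 h2

/-- PROOF. For `0 < L`, `TS B g L` is equivalent to
`Σ x : V, {w : Fin (L+1) → V // w 0 = x ∧ w (Fin.last L) = g • x ∧ ∀ i, B (w i.castSucc) (w i.succ)}`:
`y ↦ (y 0, fun i => y i)`; inverse: `y i = g ^ (i / L) • w (i % L)`
(`B (y i) (y (i+1))`: if `i % L + 1 < L` it is the image by `g ^ (i/L)` of a step; if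
`i % L + 1 = L`, then `y (i+1) = g ^ (i/L + 1) • w 0 = g ^ (i/L) • w (Fin.last L)`.)
`y` is determined by the first `L + 1` values: `y (q L + r) = g ^ q • y r` by induction on `q`.
Compare Pool/Agent/SRC/W2b.lean. -/
theorem card_TS {G V : Type*} [Group G] [MulAction G V] [Fintype V] {B : V → V → Prop}
    (haut : Aut G B) (g : G) (L : ℕ) (hL : 0 < L) :
    Nat.card (TS B g L) = ∑ x : V, wk B L x (g • x) := by
  rw [Nat.card_congr (w2b_equiv haut g L hL), Nat.card_sigma]
  exact Finset.sum_congr rfl fun x _ => card_walks B L x (g • x)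

/-- PROOF. Same equivalence (or the injection `y ↦ (fun i : Fin L => y i)`). -/
theorem finite_TS {G V : Type*} [Group G] [MulAction G V] [Finite V] (B : V → V → Prop) (g : G)
    (L : ℕ) (hL : 0 < L) : Finite (TS B g L) := by
  refine Finite.of_injective (fun y : TS B g L => (fun i : Fin L => y.1 i)) ?_
  intro y z h
  apply Subtype.ext
  funext i
  have h1 : y.1 (i % L) = z.1 (i % L) := congrFun h ⟨i % L, Nat.mod_lt _ hL⟩
  rw [← Nat.div_add_mod' i L, w2b_eq g L y.1 y.2.2, w2b_eq g L z.1 z.2.2, h1]

end SRT
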