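import Pool.Agent.SRT.Defs

set_option autoImplicit false

namespace SRT

theorem W3_mul {G V : Type*} [Group G] [MulAction G V] {B : V → V → Prop} {g : G} {L : ℕ}
    (y : TS B g L) (m i : ℕ) : y.1 (i + m * L) = g ^ m • y.1 i := by
  induction m with
  | zero => rw [zero_mul, add_zero, pow_zero, one_smul]
  | succ m ih => rw [Nat.succ_mul, ← add_assoc, y.2.2, ih, pow_succ', mul_smul]

/-- the shift by `s` -/
def W3_sh {G V : Type*} [Group G] [MulAction G V] {B : V → V → Prop} {g : G} {L : ℕ} (s : ℕ)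
    (y : TS B g L) : TS B g L :=
  ⟨fun i => y.1 (i + s), fun i => by
    have h := y.2.1 (i + s)
    rwa [add_right_comm i s 1] at h, fun i => by
    have h := y.2.2 (i + s)
    rwa [add_right_comm i s L] at h⟩

/-- PROOF. Adaptation of `SRC.dvd_card_TS` (Pool/Agent/SRC/W3b.lean).  The shift
`σ : y ↦ (i ↦ y (i+1))` is a permutation of `TS B g (p^k)` (inverse: shift by `p^(k+1) - 1`, because
`y (i + p^(k+1)) = g^p • y i = y i`); `σ^m` is the shift by `m`; `σ^(p^(k+1)) = 1`; and
`σ^(p^k) y = (i ↦ g • y i) ≠ y` as `g` has no fixed point.  Apply `SRC.dvd_card_of_perm`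
(Pool/Agent/SRC/W3a.lean). -/
theorem dvd_card_TS {G V : Type*} [Group G] [MulAction G V] [Finite V] (B : V → V → Prop) (g : G)
    (p k : ℕ) (hp : p.Prime) (hg : g ^ p = 1) (hfree : ∀ x : V, g • x ≠ x)
    (hfin : Finite (TS B g (p ^ k))) :
    p ^ (k + 1) ∣ Nat.card (TS B g (p ^ k)) := by
  have hp0 : 0 < p ^ (k + 1) := pow_pos hp.pos _
  have hper : ∀ (y : TS B g (p ^ k)) (i : ℕ), y.1 (i + p ^ (k + 1)) = y.1 i := by
    intro y i
    rw [pow_succ', W3_mul y p i, hg, one_smul]
  let σ : Equiv.Perm (TS B g (p ^ k)) :=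
    { toFun := W3_sh 1
      invFun := W3_sh (p ^ (k + 1) - 1)
      left_inv := fun y => Subtype.ext (funext fun i => by
        show y.1 (i + (p ^ (k + 1) - 1) + 1) = y.1 i
        rw [add_assoc, Nat.sub_add_cancel hp0]
        exact hper y i)
      right_inv := fun y => Subtype.ext (funext fun i => by
        show y.1 (i + 1 + (p ^ (k + 1) - 1)) = y.1 i
        rw [add_assoc, add_comm 1, Nat.sub_add_cancel hp0]
        exact hper y i) }
  have hσ : ∀ (m : ℕ) (y : TS B g (p ^ k)) (i : ℕ), ((σ ^ m) y).1 i = y.1 (i + m) := by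
    intro m
    induction m with
    | zero => intro y i; rfl
    | succ m ih =>
      intro y i
      rw [pow_succ', Equiv.Perm.mul_apply]
      show ((σ ^ m) y).1 (i + 1) = y.1 (i + (m + 1))
      rw [ih, add_assoc, add_comm 1 m]
  refine SRC.dvd_card_of_perm σ p k hp ?_ ?_
  · ext y
    refine Subtype.ext (funext fun i => ?_)
    rw [hσ, hper]
    rfl
  · intro y hy
    have h1 := congrArg (fun z : TS B g (p ^ k) => z.1 0) hy
    have h2 : y.1 (0 + p ^ k) = y.1 0 := by
      rw [← hσ]
      exact h1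
    rw [y.2.2 0] at h2
    exact hfree _ h2

end SRT
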