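import Pool.Agent.SRT.W1
import Pool.Agent.SRT.W2b
import Pool.Agent.SRT.W3
import Pool.Agent.SRC.F2

set_option autoImplicit false

namespace SRT

/-- PROOF. Adaptation of `SRC.pow_dvd_T_sub` (Pool/Agent/SRC/W4.lean), replacing `card_TS`,
`sum_cw_conj` by `card_TS`, `sum_wk`. -/
theorem pow_dvd_NN_sub {G V : Type*} [Group G] [MulAction G V] [Finite V] [Nonempty V]
    {B : V → V → Prop} {n : ℕ} (h : Geo B (n ^ 2 + 2)) (haut : Aut G B) (p : ℕ) (hp : p.Prime)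
    (hp2 : p ≠ 2) (hpn : ¬ p ∣ n) (ε : ℤ) (hε : ε = 1 ∨ ε = -1)
    (hd : (p : ℤ) ∣ (n : ℤ) ^ 2 + 2 + ε * n) (g : G) (hg : g ^ p = 1)
    (hfree : ∀ x : V, g • x ≠ x) (k : ℕ) :
    (p : ℤ) ^ (k + 1) ∣ (NN B g : ℤ) - ((n : ℤ) ^ 2 + 2 + ε * n) := by
  letI : Fintype V := Fintype.ofFinite V
  have hodd : Odd (p ^ k) := (hp.odd_of_ne_two hp2).pow
  obtain ⟨m, hm⟩ := hodd
  have hfin := finite_TS B g (p ^ k) (pow_pos hp.pos k)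
  have h1 := dvd_card_TS B g p k hp hg hfree hfin
  rw [card_TS haut g (p ^ k) (pow_pos hp.pos k), hm] at h1
  have h2 := sum_wk h m g
  have h3 : (p : ℤ) ^ (k + 1) ∣ ((∑ x : V, wk B (2 * m + 1) x (g • x) : ℕ) : ℤ) := by
    have := Int.natCast_dvd_natCast.2 h1
    rwa [Nat.cast_pow] at this
  have h2' : ((∑ x : V, wk B (2 * m + 1) x (g • x) : ℕ) : ℤ)
        + (n : ℤ) ^ (2 * m) * ((n : ℤ) ^ 2 + 2)
      = (n : ℤ) ^ (2 * m) * (NN B g : ℤ) + ((n : ℤ) ^ 2 + 2) ^ (2 * m + 1) := by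
    exact_mod_cast h2
  have h4 : (p : ℤ) ^ (k + 1) ∣ ((n : ℤ) ^ 2 + 2) ^ (2 * m + 1) - (-(ε * n)) ^ (2 * m + 1) := by
    rw [← hm]
    have h5 := dvd_sub_pow_of_dvd_sub (R := ℤ) (p := p) (a := (n : ℤ) ^ 2 + 2) (b := -(ε * n))
      (by rw [sub_neg_eq_add]; exact hd) k
    exact h5
  have hε2 : ε ^ (2 * m + 1) = ε := by
    rcases hε with rfl | rfl
    · exact one_pow _
    · exact Odd.neg_one_pow ⟨m, rfl⟩
  have h6 : (-(ε * (n : ℤ))) ^ (2 * m + 1) = -(ε * n) * (n : ℤ) ^ (2 * m) := by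
    rw [Odd.neg_pow ⟨m, rfl⟩, mul_pow, hε2, pow_succ]
    ring
  rw [h6] at h4
  have h7 : (p : ℤ) ^ (k + 1) ∣
      (n : ℤ) ^ (2 * m) * ((NN B g : ℤ) - ((n : ℤ) ^ 2 + 2 + ε * n)) := by
    have h8 := dvd_sub h3 h4
    have h9 : ((∑ x : V, wk B (2 * m + 1) x (g • x) : ℕ) : ℤ)
        - (((n : ℤ) ^ 2 + 2) ^ (2 * m + 1) - -(ε * n) * (n : ℤ) ^ (2 * m))
        = (n : ℤ) ^ (2 * m) * ((NN B g : ℤ) - ((n : ℤ) ^ 2 + 2 + ε * n)) := by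
      linear_combination h2'
    rwa [h9] at h8
  have hcop : IsCoprime ((p : ℤ) ^ (k + 1)) ((n : ℤ) ^ (2 * m)) := by
    apply IsCoprime.pow
    exact Int.isCoprime_iff_gcd_eq_one.2 ((Nat.Prime.coprime_iff_not_dvd hp).2 hpn)
  exact hcop.dvd_of_dvd_mul_left h7

/-- PROOF. `NN B g - (n^2+2+εn)` is divisible by all powers of `p`, so it is `0` (as
`SRC.T_eq_of_dvd` in Pool/Agent/SRC/W4.lean); `¬ p ∣ n` by `SRC.prime_facts`. -/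
theorem NN_eq {G V : Type*} [Group G] [MulAction G V] [Finite V] [Nonempty V]
    {B : V → V → Prop} {n : ℕ} (h : Geo B (n ^ 2 + 2)) (haut : Aut G B) (p : ℕ) (hp : p.Prime)
    (hp2 : p ≠ 2) (ε : ℤ) (hε : ε = 1 ∨ ε = -1)
    (hd : (p : ℤ) ∣ (n : ℤ) ^ 2 + 2 + ε * n) (g : G) (hg : g ^ p = 1)
    (hfree : ∀ x : V, g • x ≠ x) :
    (NN B g : ℤ) = (n : ℤ) ^ 2 + 2 + ε * n := by
  have hpn := (SRC.prime_facts hp hp2 hε hd).1
  have h1 := pow_dvd_NN_sub h haut p hp hp2 hpn ε hε hd g hg hfree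
    ((NN B g : ℤ) - ((n : ℤ) ^ 2 + 2 + ε * n)).natAbs
  have h2 := Int.eq_zero_of_abs_lt_dvd h1 (by
    rw [Int.abs_eq_natAbs]
    have h3 : ((NN B g : ℤ) - ((n : ℤ) ^ 2 + 2 + ε * n)).natAbs
        < p ^ (((NN B g : ℤ) - ((n : ℤ) ^ 2 + 2 + ε * n)).natAbs + 1) :=
      (Nat.lt_pow_self hp.one_lt).trans_le (Nat.pow_le_pow_right hp.pos (Nat.le_succ _))
    exact_mod_cast h3)
  linarith

end SRT
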